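import Mathlib

namespace Pool.Agent.P.MP_52b1ec_lc.OR

open Topology Filter Set

theorem raikov {Γ : Type} [Group Γ] [TopologicalSpace Γ] [IsTopologicalGroup Γ] [PolishSpace Γ]
    {g : ℕ → Γ} (h1 : Tendsto (fun p : ℕ × ℕ => (g p.1)⁻¹ * g p.2) atTop (𝓝 1))
    (h2 : Tendsto (fun p : ℕ × ℕ => g p.1 * (g p.2)⁻¹) atTop (𝓝 1)) :
    ∃ γ, Tendsto g atTop (𝓝 γ) := by
  let := TopologicalSpace.upgradeIsCompletelyMetrizable Γ
  let O : ℕ → Set Γ := fun n =>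
    {x | ∃ h K, ∀ᶠ z in 𝓝 x, ∀ k ≥ K, dist (g k * z) h < 1 / ((n : ℝ) + 1)}
  have ho : ∀ n, IsOpen (O n) := fun n => isOpen_iff_eventually.2 fun x ⟨h, K, hx⟩ =>
    hx.eventually_nhds.mono fun y hy => ⟨h, K, hy⟩
  have hd : ∀ n, Dense (O n) := by
    intro n
    refine dense_iff_inter_open.2 fun U hU ⟨a, ha⟩ => ?_
    have e1 : Tendsto (fun p : ℕ × ℕ => (g p.1)⁻¹ * g p.2 * a) atTop (𝓝 (1 * a)) :=
      h1.mul_const a
    rw [one_mul] at e1
    obtain ⟨⟨K1, K2⟩, hK⟩ := eventually_atTop.1 (e1 (hU.mem_nhds ha))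
    have e2 : Tendsto (fun q : (ℕ × ℕ) × Γ => g q.1.1 * (g q.1.2)⁻¹ * (g K2 * a) * q.2)
        (atTop ×ˢ 𝓝 1) (𝓝 (1 * (g K2 * a) * 1)) :=
      ((h2.comp tendsto_fst).mul_const _).mul tendsto_snd
    rw [one_mul, mul_one] at e2
    obtain ⟨pa, k1, pb, k2, k3⟩ := eventually_prod_iff.1
      (e2 (Metric.ball_mem_nhds _ (Nat.one_div_pos_of_nat (n := n))))
    obtain ⟨⟨K3, K4⟩, hK'⟩ := eventually_atTop.1 k1
    refine ⟨(g (max K1 K4))⁻¹ * (g K2 * a), ?_, g K2 * a, K3, ?_⟩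
    · rw [← mul_assoc]
      exact hK (max K1 K4, K2) ⟨le_max_left _ _, le_rfl⟩
    · have e3 : Tendsto (fun z => ((g (max K1 K4))⁻¹ * (g K2 * a))⁻¹ * z)
          (𝓝 ((g (max K1 K4))⁻¹ * (g K2 * a))) (𝓝 1) :=
        Continuous.tendsto' (by fun_prop) _ _ (inv_mul_cancel _)
      refine (e3.eventually k2).mono fun z hz k hk => ?_
      have := k3 (hK' (k, max K1 K4) ⟨hk, le_max_right _ _⟩) hz
      simp only [Metric.mem_ball] at this
      convert this using 2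
      group
  obtain ⟨x, hx⟩ := (dense_iInter_of_isOpen_nat ho hd).nonempty
  have hc : CauchySeq fun k => g k * x := by
    refine Metric.cauchySeq_iff.2 fun ε hε => ?_
    obtain ⟨n, hn⟩ := exists_nat_one_div_lt (half_pos hε)
    obtain ⟨h, K, hh⟩ := mem_iInter.1 hx n
    refine ⟨K, fun k hk l hl => ?_⟩
    have a1 := hh.self_of_nhds k hk
    have a2 := hh.self_of_nhds l hl
    linarith [dist_triangle_right (g k * x) (g l * x) h]
  obtain ⟨y, hy⟩ := cauchySeq_tendsto_of_complete hc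
  exact ⟨y * x⁻¹, by simpa using hy.mul_const x⁻¹⟩

end Pool.Agent.P.MP_52b1ec_lc.OR
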