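import Pool.Agent.P.MP_52b1ec_lc.Y.ODefs
import Pool.Agent.P.MP_52b1ec_lc.Y.Raikov

set_option linter.unusedSectionVars false

namespace Pool.Agent.P.MP_52b1ec_lc.OR

open Topology Filter Set

/-! ### General tools -/

/-- the filter of a decreasing family of predicates -/
def fam {ι : Type} (R : ℕ → ι → Prop) : Filter ι := ⨅ n, 𝓟 {x | R n x}

lemma fam_ev {ι : Type} (R : ℕ → ι → Prop) (n : ℕ) : ∀ᶠ x in fam R, R n x :=
  mem_iInf_of_mem n (mem_principal_self _)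

lemma fam_out {ι : Type} {R : ℕ → ι → Prop} (h : ∀ n n' x, n ≤ n' → R n' x → R n x)
    {P : ι → Prop} (hP : ∀ᶠ x in fam R, P x) : ∃ n, ∀ x, R n x → P x := by
  obtain ⟨n, -, hn⟩ := (hasBasis_iInf_principal (s := fun n => {x | R n x}) fun a b =>
    ⟨max a b, fun x => h _ _ x (le_max_left _ _), fun x => h _ _ x (le_max_right _ _)⟩).mem_iff.1 hP
  exact ⟨n, fun x hx => hn hx⟩

lemma tmin {ι : Type} {F : Filter ι} {f g : ι → ℕ} :
    Tendsto (fun x => min (f x) (g x)) F atTop ↔ Tendsto f F atTop ∧ Tendsto g F atTop := by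
  simp only [tendsto_atTop, le_min_iff, eventually_and, forall_and]

lemma Cf.tendsto {I ι : Type} {e e' : I → ℕ} (h : Cf e e') {F : Filter ι} {p : ι → I}
    (hp : Tendsto (fun x => e (p x)) F atTop) : Tendsto (fun x => e' (p x)) F atTop := by
  rw [tendsto_atTop] at hp ⊢
  intro n
  obtain ⟨m, hm⟩ := h n
  filter_upwards [hp (m + 1)] with x hx
  by_contra k
  have := hm (p x) (not_le.1 k).le
  omega

lemma exists_inj {Q : ℕ → ℕ → Prop} (h : ∀ a, {i | Q a i}.Infinite) :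
    ∃ f : ℕ → ℕ, Function.Injective f ∧ ∀ a, Q a (f a) := by
  choose g h1 h2 using fun a n => (h a).exists_gt n
  let f : ℕ → ℕ := fun a => Nat.rec (g 0 0) (fun a x => g (a + 1) x) a
  refine ⟨f, (strictMono_nat_of_lt_succ fun a => h2 (a + 1) (f a)).injective, fun a => ?_⟩
  cases a with
  | zero => exact h1 0 0
  | succ a => exact h1 (a + 1) (f a)

/-- a relation along which two towers are uniformly comparable -/
def Wd (e e' : ℕ × ℕ × ℕ → ℕ) (Q : ℕ → ℕ → Prop) : Prop :=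
  (∀ a, {i | Q a i}.Infinite) ∧ (∀ i, {a | Q a i}.Infinite) ∧
    ∀ m, ∃ m', ∀ a i a' i' j, Q a i → Q a' i' →
      (e (a, a', j) ≤ m → e' (i, i', j) ≤ m') ∧ (e' (i, i', j) ≤ m → e (a, a', j) ≤ m')

lemma Wd.es {e e' : ℕ × ℕ × ℕ → ℕ} {Q : ℕ → ℕ → Prop} (h : Wd e e' Q) : Es e e' := by
  obtain ⟨f, hf, hf'⟩ := exists_inj h.1
  obtain ⟨g, hg, hg'⟩ := exists_inj (Q := fun i a => Q a i) h.2.1
  obtain ⟨σ, hσ, hQ⟩ := Function.Embedding.schroeder_bernstein_of_rel hf hg Q hf' hg'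
  exact ⟨Equiv.ofBijective σ hσ,
    fun m => (h.2.2 m).imp fun _ k p => (k _ _ _ _ _ (hQ p.1) (hQ p.2.1)).2,
    fun m => (h.2.2 m).imp fun _ k p => (k _ _ _ _ _ (hQ p.1) (hQ p.2.1)).1⟩

section meas
variable {Ω : Type} [MeasurableSpace Ω]

lemma meas_choice {P : Ω → ℕ → Prop} (h : ∀ n, Measurable fun ω => P ω n) :
    ∃ f : Ω → ℕ, Measurable f ∧ ∀ ω, (∃ n, P ω n) → P ω (f ω) := by
  classical
  have hq : ∀ ω, ∃ n, P ω n ∨ ∀ n, ¬ P ω n := fun ω => by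
    by_cases k : ∃ n, P ω n
    · exact k.imp fun n => Or.inl
    · exact ⟨0, Or.inr (not_exists.1 k)⟩
  exact ⟨fun ω => Nat.find (hq ω), measurable_find hq fun n =>
    ((h n).or (Measurable.forall fun n => (h n).not)).setOf,
    fun ω ⟨n, hn⟩ => (Nat.find_spec (hq ω)).resolve_right fun k => k n hn⟩

lemma meas_ev {β : Type} [MeasurableSpace β] {F : ℕ → Ω → β} (hF : ∀ n, Measurable (F n))
    {p : Ω → ℕ} (hp : Measurable p) : Measurable fun ω => F (p ω) ω :=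
  (measurable_from_prod_countable_left (f := fun q : Ω × ℕ => F q.2 q.1) hF).comp
    (measurable_id.prodMk hp)

lemma meas_seq {St : Ω → ℕ → ℕ → ℕ → Prop} (h : ∀ k c c', Measurable fun ω => St ω k c c') :
    ∃ q : Ω → ℕ → ℕ, (∀ k, Measurable fun ω => q ω k) ∧ ∀ ω, q ω 0 = 0 ∧
      ∀ k, (∃ c', St ω k (q ω k) c') → St ω k (q ω k) (q ω (k + 1)) := by
  choose f hf hf' using fun k c => meas_choice (h k c)
  refine ⟨fun ω k => Nat.rec 0 (fun k c => f k c ω) k, fun k => ?_,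
    fun ω => ⟨rfl, fun k => hf' k _ ω⟩⟩
  induction k with
  | zero => exact measurable_const
  | succ k ih => exact meas_ev (hf k) ih

lemma meas_le {f g : Ω → ℕ} (hf : Measurable f) (hg : Measurable g) :
    Measurable fun ω => f ω ≤ g ω := measurableSet_setOfPred.1 (measurableSet_le hf hg)

lemma meas_inf {P : Ω → ℕ → Prop} (h : ∀ n, Measurable fun ω => P ω n) :
    Measurable fun ω => {n | P ω n}.Infinite := by
  simp only [infinite_iff_exists_gt, mem_ofPred_eq]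
  exact Measurable.forall fun a => Measurable.exists fun b => (h b).and measurable_const

end meas

/-! ### Two-sided closeness -/

section grp
variable {Γ : Type} [Group Γ] [TopologicalSpace Γ] [IsTopologicalGroup Γ] {ι : Type}
  {F : Filter ι} {g h k : ι → Γ}

/-- asymptotically equal on both sides -/
def TC (F : Filter ι) (g h : ι → Γ) : Prop :=
  Tendsto (fun x => (g x)⁻¹ * h x) F (𝓝 1) ∧ Tendsto (fun x => g x * (h x)⁻¹) F (𝓝 1)

lemma TC.symm (c : TC F g h) : TC F h g :=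
  ⟨by simpa using c.1.inv, by simpa using c.2.inv⟩

lemma TC.trans (c : TC F g h) (c' : TC F h k) : TC F g k :=
  ⟨by simpa [mul_assoc] using c.1.mul c'.1, by simpa [mul_assoc] using c.2.mul c'.2⟩

lemma TC.left (c : TC F g h) (m : Γ) : TC F (fun x => m * g x) fun x => m * h x :=
  ⟨by simpa [mul_assoc] using c.1, by simpa [mul_assoc] using (c.2.const_mul m).mul_const m⁻¹⟩

lemma tc_of_tendsto {γ : Γ} (c : Tendsto g F (𝓝 γ)) (c' : Tendsto h F (𝓝 γ)) : TC F g h :=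
  ⟨by simpa using c.inv.mul c', by simpa using c.mul c'.inv⟩

/-- close on both sides -/
def Cl (V : ℕ → Set Γ) (n : ℕ) (a b : Γ) : Prop := a⁻¹ * b ∈ V n ∧ a * b⁻¹ ∈ V n

variable {V : ℕ → Set Γ}

lemma tend_iff (hV : (𝓝 (1 : Γ)).HasAntitoneBasis V) :
    Tendsto g F (𝓝 1) ↔ ∀ n, ∀ᶠ x in F, g x ∈ V n := by
  simp only [hV.1.tendsto_right_iff, true_imp_iff]

lemma tc_iff (hV : (𝓝 (1 : Γ)).HasAntitoneBasis V) :
    TC F g h ↔ ∀ n, ∀ᶠ x in F, Cl V n (g x) (h x) := by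
  simp only [TC, Cl, tend_iff hV, eventually_and, forall_and]

lemma Cl.mono (hV : (𝓝 (1 : Γ)).HasAntitoneBasis V) {n n' : ℕ} {a b : Γ} (c : Cl V n' a b)
    (hn : n ≤ n') : Cl V n a b := ⟨hV.2 hn c.1, hV.2 hn c.2⟩

lemma cl_left (hV : (𝓝 (1 : Γ)).HasAntitoneBasis V) (n : ℕ) (b : Γ) :
    ∀ᶠ a in 𝓝 b, Cl V n a b :=
  (tc_iff hV).1 (tc_of_tendsto tendsto_id tendsto_const_nhds) n

lemma cl_right (hV : (𝓝 (1 : Γ)).HasAntitoneBasis V) (n : ℕ) (a : Γ) :
    ∀ᶠ b in 𝓝 a, Cl V n a b :=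
  (tc_iff hV).1 (tc_of_tendsto tendsto_const_nhds tendsto_id) n

lemma exists_half (hV : (𝓝 (1 : Γ)).HasAntitoneBasis V) (n : ℕ) :
    ∃ n', ∀ a ∈ V n', ∀ b ∈ V n', a * b ∈ V n := by
  obtain ⟨W, hW, h⟩ := exists_nhds_one_split (hV.mem n)
  obtain ⟨n', hn⟩ := hV.mem_iff.1 hW
  exact ⟨n', fun a ha b hb => h a (hn ha) b (hn hb)⟩

end grp

end Pool.Agent.P.MP_52b1ec_lc.OR
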