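import Pool.Agent.P.MP_52b1ec_lc.Y.OrbB

set_option linter.unusedSectionVars false

namespace Pool.Agent.P.MP_52b1ec_lc.OR

open Topology Filter Set

/-- the uniform structure of a tower -/
noncomputable def Eu (e : ℕ × ℕ × ℕ → ℕ) (a b : ℕ) : ℕ :=
  min (min (e (a, b, lam (some (.inl 0)))) (e (a, b, lam none)))
    (min (e (b, a, lam (some (.inl 0)))) (e (b, a, lam none)))

/-- the ball contains balls of a fixed radius around points of all levels -/
def Fat (e : ℕ × ℕ × ℕ → ℕ) (a N : ℕ) : Prop :=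
  ∃ N', ∀ n', ∃ b, n' ≤ Eu e b b ∧ ∀ c, N' ≤ Eu e b c → N ≤ Eu e a c

/-- the next ball -/
def St (e : ℕ × ℕ × ℕ → ℕ) (k s s' : ℕ) : Prop :=
  Fat e s'.unpair.1 s'.unpair.2 ∧ k ≤ s'.unpair.2 ∧ s'.unpair.2 ≤ Eu e s'.unpair.1 s'.unpair.1 ∧
    ∀ c, s'.unpair.2 ≤ Eu e s'.unpair.1 c → s.unpair.2 ≤ Eu e s.unpair.1 c

/-- the trace of the limit of `a` -/
def TT (e : ℕ × ℕ × ℕ → ℕ) (a : ℕ → ℕ) (k : ℕ) : Prop :=
  ∀ N, ∃ K, ∀ i, K ≤ i → N ≤ e (a i, a i, lam (some (.inr k)))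

/-- `b` is close to the translate of the limit of `a` -/
def Near (e : ℕ × ℕ × ℕ → ℕ) (a : ℕ → ℕ) (b s n : ℕ) : Prop :=
  ∃ N, ∀ k, N ≤ k → ∀ c, N ≤ e (a k, c, lam (some (.inl s))) → n ≤ Eu e c b

/-- admissible partners -/
def Rl (e : ℕ × ℕ × ℕ → ℕ) (a : ℕ → ℕ) (b i : ℕ) : Prop :=
  Near e a b (pt.symm i).1 (lp i) ∧ ((∀ s, ¬ Near e a b s (lp i + 1)) ∨
    ∀ M, {b' | Near e a b' (pt.symm i).1 (lp i) ∧ Eu e b' b' ≤ M}.Infinite → Eu e b b ≤ M)

lemma Near.mono {e : ℕ × ℕ × ℕ → ℕ} {a : ℕ → ℕ} {b s n n' : ℕ} (h : Near e a b s n')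
    (hn : n ≤ n') : Near e a b s n := h.imp fun _ k i hi c hc => hn.trans (k i hi c hc)

section meas
variable {a : (ℕ × ℕ × ℕ → ℕ) → ℕ → ℕ}

lemma meas_Eu (b c : ℕ) : Measurable fun e => Eu e b c := by
  unfold Eu
  fun_prop

lemma meas_St (k s s' : ℕ) : Measurable fun e => St e k s s' :=
  (Measurable.exists fun _ => Measurable.forall fun _ => Measurable.exists fun _ =>
    (meas_le measurable_const (meas_Eu _ _)).and (Measurable.forall fun _ =>
      (meas_le measurable_const (meas_Eu _ _)).imp (meas_le measurable_const (meas_Eu _ _)))).and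
    (measurable_const.and ((meas_le measurable_const (meas_Eu _ _)).and (Measurable.forall fun _ =>
      (meas_le measurable_const (meas_Eu _ _)).imp (meas_le measurable_const (meas_Eu _ _)))))

lemma meas_TT (ha : ∀ k, Measurable fun e => a e k) : Measurable fun e => TT e (a e) :=
  measurable_pi_lambda _ fun k => Measurable.forall fun _ => Measurable.exists fun _ =>
    Measurable.forall fun i => measurable_const.imp (meas_le measurable_const
      (meas_ev (F := fun n e => e (n, n, lam (some (.inr k))))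
        (fun _ => measurable_pi_apply _) (ha i)))

lemma meas_Near (ha : ∀ k, Measurable fun e => a e k) (b s n : ℕ) :
    Measurable fun e => Near e (a e) b s n :=
  Measurable.exists fun _ => Measurable.forall fun k => measurable_const.imp
    (Measurable.forall fun c => (meas_le measurable_const
      (meas_ev (F := fun n e => e (n, c, lam (some (.inl s))))
        (fun _ => measurable_pi_apply _) (ha k))).imp (meas_le measurable_const (meas_Eu _ _)))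

lemma meas_Rl (ha : ∀ k, Measurable fun e => a e k) (b i : ℕ) :
    Measurable fun e => Rl e (a e) b i :=
  (meas_Near ha _ _ _).and ((Measurable.forall fun _ => (meas_Near ha _ _ _).not).or
    (Measurable.forall fun _ => (meas_inf fun _ => (meas_Near ha _ _ _).and
      (meas_le (meas_Eu _ _) measurable_const)).imp (meas_le (meas_Eu _ _) measurable_const)))

end meas

variable {Γ Y : Type} [Group Γ] [TopologicalSpace Γ] [IsTopologicalGroup Γ] [TopologicalSpace Y]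
  [MulAction Γ Y] [ContinuousSMul Γ Y] {C : Ctx Γ Y} {e : ℕ × ℕ × ℕ → ℕ} {y : Y} {G : ℕ → Γ}
  {lv : ℕ → ℕ}

lemma Ctx.Real.eu (R : C.Real e y G lv) {ι : Type} (F : Filter ι) (a b : ι → ℕ) :
    Tendsto (fun x => Eu e (a x) (b x)) F atTop ↔ Tendsto (fun x => lv (a x)) F atTop ∧
      Tendsto (fun x => lv (b x)) F atTop ∧ TC F (fun x => G (a x)) fun x => G (b x) := by
  simp only [Eu, tmin, R.iff, Ctx.Pr, C.d0, mul_one, ← tend_iff C.hV]
  exact ⟨fun h => ⟨h.1.1.1, h.1.1.2.1, h.1.1.2.2, h.1.2.2.2⟩, fun h =>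
    ⟨⟨⟨h.1, h.2.1, h.2.2.1⟩, h.1, h.2.1, h.2.2.2⟩, ⟨h.2.1, h.1, h.2.2.symm.1⟩, h.2.1, h.1,
      h.2.2.symm.2⟩⟩

lemma Ctx.Real.lo (R : C.Real e y G lv) (n : ℕ) : ∃ n', ∀ a b, n' ≤ lv a → n' ≤ lv b →
    Cl C.V n' (G a) (G b) → n ≤ Eu e a b := by
  let S : ℕ → ℕ × ℕ → Prop := fun n p => n ≤ lv p.1 ∧ n ≤ lv p.2 ∧ Cl C.V n (G p.1) (G p.2)
  obtain ⟨n', h⟩ := fam_out (R := S)
    (fun _ _ _ h k => ⟨h.trans k.1, h.trans k.2.1, k.2.2.mono C.hV h⟩)
    (tendsto_atTop.1 ((R.eu _ Prod.fst Prod.snd).2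
      ⟨tendsto_atTop.2 fun n => (fam_ev S n).mono fun _ k => k.1,
        tendsto_atTop.2 fun n => (fam_ev S n).mono fun _ k => k.2.1,
        (tc_iff C.hV).2 fun n => (fam_ev S n).mono fun _ k => k.2.2⟩) n)
  exact ⟨n', fun a b h1 h2 h3 => h (a, b) ⟨h1, h2, h3⟩⟩

lemma Ctx.Real.hi (R : C.Real e y G lv) (n : ℕ) : ∃ n', ∀ a b, n' ≤ Eu e a b →
    n ≤ lv a ∧ n ≤ lv b ∧ Cl C.V n (G a) (G b) := by
  obtain ⟨h1, h2, h3⟩ := (R.eu _ Prod.fst Prod.snd).1
    (tendsto_atTop.2 (fam_ev fun n (p : ℕ × ℕ) => n ≤ Eu e p.1 p.2))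
  obtain ⟨n', h⟩ := fam_out (R := fun n (p : ℕ × ℕ) => n ≤ Eu e p.1 p.2)
    (fun _ _ _ h k => h.trans k) ((tendsto_atTop.1 h1 n).and
    ((tendsto_atTop.1 h2 n).and ((tc_iff C.hV).1 h3 n)))
  exact ⟨n', fun a b => h (a, b)⟩

lemma Ctx.Real.tri (R : C.Real e y G lv) (n : ℕ) : ∃ n', ∀ a b c, n' ≤ Eu e a b →
    n' ≤ Eu e b c → n ≤ Eu e a c := by
  let S : ℕ → ℕ × ℕ × ℕ → Prop := fun n p => n ≤ Eu e p.1 p.2.1 ∧ n ≤ Eu e p.2.1 p.2.2
  obtain ⟨h1, -, h3⟩ := (R.eu _ (fun p => p.1) fun p => p.2.1).1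
    (tendsto_atTop.2 fun n => (fam_ev S n).mono fun _ k => k.1)
  obtain ⟨-, h2, h4⟩ := (R.eu _ (fun p => p.2.1) fun p => p.2.2).1
    (tendsto_atTop.2 fun n => (fam_ev S n).mono fun _ k => k.2)
  obtain ⟨n', h⟩ := fam_out (R := S) (fun _ _ _ h k => ⟨h.trans k.1, h.trans k.2⟩)
    (tendsto_atTop.1 ((R.eu _ _ _).2 ⟨h1, h2, h3.trans h4⟩) n)
  exact ⟨n', fun a b c h1 h2 => h (a, b, c) ⟨h1, h2⟩⟩

lemma Ctx.cl_refl (n : ℕ) (g : Γ) : Cl C.V n g g := (cl_left C.hV n g).self_of_nhds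

lemma Ctx.Real.fat (R : C.Real e y G lv) (N : ℕ) : ∃ n, ∀ a, n ≤ Eu e a a → Fat e a N := by
  obtain ⟨N', h1⟩ := R.tri N
  obtain ⟨n1, h2⟩ := R.lo N'
  obtain ⟨n, h3⟩ := R.hi n1
  refine ⟨n, fun a ha => ⟨N', fun n' => ?_⟩⟩
  obtain ⟨n2, h4⟩ := R.lo n'
  obtain ⟨b, k1, k2⟩ := (R.dense (cl_right C.hV n1 (G a)) (max n1 n2)).nonempty
  exact ⟨b, h4 b b (by omega) (by omega) (Ctx.cl_refl _ _),
    fun c => h1 a b c (h2 a b (h3 a a ha).1 (by omega) k2)⟩

lemma Ctx.Real.lim [PolishSpace Γ] (R : C.Real e y G lv) {q : ℕ → ℕ} (h0 : q 0 = 0)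
    (hq : ∀ k, (∃ c', St e k (q k) c') → St e k (q k) (q (k + 1))) :
    ∃ m, Tendsto (fun k => G (q (k + 1)).unpair.1) atTop (𝓝 m) ∧
      Tendsto (fun k => lv (q (k + 1)).unpair.1) atTop atTop := by
  have s1 : ∀ k, Fat e (q k).unpair.1 (q k).unpair.2 → St e k (q k) (q (k + 1)) := by
    rintro k ⟨N', h⟩
    obtain ⟨n, h1⟩ := R.fat (max k N')
    obtain ⟨b, h2, h3⟩ := h (max n (max k N'))
    refine hq k ⟨Nat.pair b (max k N'), ?_⟩
    simp only [St, Nat.unpair_pair]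
    exact ⟨h1 b (by omega), le_max_left _ _, by omega, fun c hc => h3 c (by omega)⟩
  have s2 : ∀ k, St e k (q k) (q (k + 1)) := by
    intro k
    induction k with
    | zero =>
      refine s1 0 ⟨0, fun n' => ?_⟩
      obtain ⟨n2, h4⟩ := R.lo n'
      obtain ⟨b, -, k1⟩ := (R.inf 0 n2).nonempty
      exact ⟨b, h4 b b k1.ge k1.ge (Ctx.cl_refl _ _), fun c _ => by simp [h0]⟩
    | succ k ih => exact s1 _ ih.1
  have s3 : ∀ k l, k ≤ l → ∀ c, (q l).unpair.2 ≤ Eu e (q l).unpair.1 c →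
      (q k).unpair.2 ≤ Eu e (q k).unpair.1 c := by
    intro k l h
    induction h with
    | refl => exact fun _ h => h
    | step _ ih => exact fun c h => ih c ((s2 _).2.2.2 c h)
  have s4 : ∀ k l, k ≤ l → k ≤ Eu e (q (k + 1)).unpair.1 (q (l + 1)).unpair.1 := fun k l h =>
    (s2 k).2.1.trans (s3 _ _ (Nat.succ_le_succ h) _ (s2 l).2.2.1)
  have s5 : Tendsto (fun p : ℕ × ℕ => Eu e (q (p.1 + 1)).unpair.1 (q (p.2 + 1)).unpair.1)
      atTop atTop := by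
    refine tendsto_atTop.2 fun n => (eventually_ge_atTop (n, n)).mono fun p hp => ?_
    rcases le_total p.1 p.2 with h | h
    · exact le_trans hp.1 (s4 _ _ h)
    · exact le_trans hp.2 ((s4 _ _ h).trans (min_comm _ _).le)
  obtain ⟨-, -, t1, t2⟩ := (R.eu _ _ _).1 s5
  obtain ⟨m, hm⟩ := raikov (g := fun k => G (q (k + 1)).unpair.1) t1 t2
  exact ⟨m, hm, ((R.eu _ _ _).1 (tendsto_atTop_mono (fun k => s4 k k le_rfl) tendsto_id)).1⟩

/-- the trace of a point -/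
def Ctx.tt (C : Ctx Γ Y) (x : Y) (k : ℕ) : Prop := ∀ n, ∃ w ∈ C.V n, w⁻¹ • x ∈ C.U k

lemma Ctx.tt_inj [T3Space Y] : Function.Injective C.tt := by
  intro x x' h
  by_contra hn
  obtain ⟨t, ht, htc, hts⟩ := exists_mem_nhds_isClosed_subset (isOpen_ne.mem_nhds hn)
  obtain ⟨k, k1, k2⟩ := C.hU x t ht
  have h1 : C.tt x' k := h ▸ fun n => ⟨1, mem_of_mem_nhds (C.hV.mem n), by simpa using k1⟩
  choose w w1 w2 using h1
  have h2 : Tendsto w atTop (𝓝 1) := C.hV.tendsto w1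
  have h3 := h2.inv.smul_const x'
  rw [inv_one, one_smul] at h3
  exact hts (htc.mem_of_tendsto h3 (Eventually.of_forall fun n => k2 (w2 n))) rfl

lemma Ctx.meas_tt [MeasurableSpace Y] [BorelSpace Y] : Measurable C.tt := by
  refine measurable_pi_lambda _ fun k => Measurable.forall fun n =>
    measurableSet_setOfPred.1 (IsOpen.measurableSet ?_)
  simp only [ofPred_exists, ← exists_prop]
  exact isOpen_iUnion fun w => isOpen_iUnion fun _ => (C.ho k).preimage (by fun_prop)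

variable {a : ℕ → ℕ} {m : Γ} {x : Y}

lemma Ctx.Real.trace (R : C.Real e (m • x) G lv) (h1 : Tendsto (fun k => G (a k)) atTop (𝓝 m))
    (h2 : Tendsto (fun k => lv (a k)) atTop atTop) : TT e a = C.tt x := by
  funext k
  have t : TC atTop (fun i => G (a i)) fun _ => m * 1 :=
    tc_of_tendsto h1 (by rw [mul_one]; exact tendsto_const_nhds)
  have t' := (t.left m⁻¹).symm
  simp only [inv_mul_cancel_left] at t'
  refine propext ((tendsto_atTop_atTop.symm.trans (R.iff _ atTop a a)).trans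
    ⟨fun h n => ?_, fun h => ⟨h2, h2, Ctx.pr_move t t _ fun n => Eventually.of_forall fun _ => ?_⟩⟩)
  · simpa [Ctx.Pr] using (Ctx.pr_move t' t' _ h.2.2 n).exists
  · simpa [Ctx.Pr] using h n

lemma Ctx.Real.near_hi (R : C.Real e y G lv) (h1 : Tendsto (fun k => G (a k)) atTop (𝓝 m))
    (h2 : Tendsto (fun k => lv (a k)) atTop atTop) (n : ℕ) :
    ∃ n', ∀ b s, Near e a b s n' → n ≤ lv b ∧ Cl C.V n (G b) (m * C.d s) := by
  let S : ℕ → Γ × Γ × Γ → Prop := fun n p => Cl C.V n p.2.1 p.1 ∧ Cl C.V n p.2.1 p.2.2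
  obtain ⟨n1, k1⟩ := fam_out (R := S) (fun _ _ _ h k => ⟨k.1.mono C.hV h, k.2.mono C.hV h⟩)
    ((tc_iff C.hV).1 (((tc_iff C.hV).2 fun n => (fam_ev S n).mono fun _ k => k.1).symm.trans
      ((tc_iff C.hV).2 fun n => (fam_ev S n).mono fun _ k => k.2)) n)
  obtain ⟨n', k2⟩ := R.hi (max n n1)
  refine ⟨n', fun b s ⟨N, hN⟩ => ?_⟩
  choose c c1 c2 using fun k => (R.dense (cl_right C.hV k (m * C.d s)) k).nonempty
  have t1 : TC atTop (fun _ => m * C.d s) fun k => G (c k) :=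
    (tc_iff C.hV).2 fun n => (eventually_ge_atTop n).mono fun k hk => (c2 k).mono C.hV hk
  have t2 := (tc_of_tendsto (h1.mul_const (C.d s)) tendsto_const_nhds).trans t1
  have t3 := (R.iff (some (.inl s)) atTop a c).2
    ⟨h2, tendsto_id.congr fun k => (c1 k).symm, (tend_iff C.hV).1 t2.1⟩
  obtain ⟨k, e1, e2, e3⟩ := ((eventually_ge_atTop N).and ((tendsto_atTop.1 t3 N).and
    ((tc_iff C.hV).1 t1.symm n1))).exists
  obtain ⟨-, e4, e5⟩ := k2 _ _ (hN k e1 _ e2)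
  exact ⟨by omega, k1 (G b, G (c k), m * C.d s) ⟨e5.mono C.hV (le_max_right _ _), e3⟩⟩

lemma Ctx.Real.near_lo (R : C.Real e y G lv) (h1 : Tendsto (fun k => G (a k)) atTop (𝓝 m))
    (n : ℕ) : ∃ n', ∀ b s, n' ≤ lv b → Cl C.V n' (m * C.d s) (G b) → Near e a b s n := by
  obtain ⟨n1, k1⟩ := R.lo n
  let S : ℕ → Γ × Γ × Γ → Prop := fun n p => Cl C.V n p.1 p.2.1 ∧ Cl C.V n p.2.1 p.2.2
  obtain ⟨n2, k2⟩ := fam_out (R := S) (fun _ _ _ h k => ⟨k.1.mono C.hV h, k.2.mono C.hV h⟩)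
    ((tc_iff C.hV).1 (((tc_iff C.hV).2 fun n => (fam_ev S n).mono fun _ k => k.1).trans
      ((tc_iff C.hV).2 fun n => (fam_ev S n).mono fun _ k => k.2)) n1)
  refine ⟨max n1 n2, fun b s hb hc => ?_⟩
  let T : ℕ → ℕ × ℕ → Prop := fun N p => N ≤ p.1 ∧ N ≤ e (a p.1, p.2, lam (some (.inl s)))
  obtain ⟨-, t1, t2⟩ := (R.iff (some (.inl s)) (fam T) (fun p => a p.1) Prod.snd).1
    (tendsto_atTop.2 fun n => (fam_ev T n).mono fun _ k => k.2)
  have t3 := (h1.mul_const (C.d s)).comp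
    (tendsto_atTop.2 fun n => (fam_ev T n).mono fun _ k => k.1)
  have t4 : Tendsto (fun p : ℕ × ℕ => G p.2) (fam T) (𝓝 (m * C.d s)) := by
    simpa [mul_assoc] using t3.mul ((tend_iff C.hV).2 t2)
  obtain ⟨N, hN⟩ := fam_out (R := T) (fun _ _ _ h k => ⟨h.trans k.1, h.trans k.2⟩)
    ((tendsto_atTop.1 t1 n1).and (t4.eventually (cl_left C.hV n2 _)))
  refine ⟨N, fun k hk c hc' => ?_⟩
  obtain ⟨e1, e2⟩ := hN (k, c) ⟨hk, hc'⟩
  exact k1 c b e1 (by omega) (k2 (G c, m * C.d s, G b) ⟨e2, hc.mono C.hV (le_max_right _ _)⟩)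

lemma Ctx.Real.wd (R : C.Real e (m • x) G lv) (h1 : Tendsto (fun k => G (a k)) atTop (𝓝 m))
    (h2 : Tendsto (fun k => lv (a k)) atTop atTop) : Wd e (C.uu x) (Rl e a) := by
  have p1 : ∀ n, ∃ M, ∀ s, {b | Near e a b s n ∧ Eu e b b ≤ M}.Infinite := by
    intro n
    obtain ⟨n', k1⟩ := R.near_lo h1 n
    obtain ⟨M, k2⟩ := R.hi (n' + 1)
    refine ⟨M, fun s => (R.dense (cl_right C.hV n' (m * C.d s)) n').mono
      fun b (k : _ ∧ _) => ⟨k1 b s k.1.ge k.2, ?_⟩⟩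
    by_contra hn
    have := (k2 b b (not_le.1 hn).le).1
    omega
  refine ⟨fun b => ?_, fun i => ?_, R.unif (C.real_uu x) (fun n => ?_) fun n => ?_⟩
  · obtain ⟨n', k⟩ := R.near_hi h1 h2 (lv b + 1)
    obtain ⟨l, k1, k2⟩ := Nat.exists_not_and_succ_of_not_zero_of_exists
      (p := fun l => ∀ s, ¬ Near e a b s l) (fun h => h 0 ⟨0, fun _ _ _ _ => Nat.zero_le _⟩)
      ⟨n', fun s h => by have := (k b s h).1; omega⟩
    obtain ⟨s, hs⟩ := not_forall.1 k1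
    refine inf_pt s l fun j => ?_
    simp only [Rl, lp, Equiv.symm_apply_apply]
    exact ⟨not_not.1 hs, Or.inl k2⟩
  · classical
    have hex : ∃ M, {b | Near e a b (pt.symm i).1 (lp i) ∧ Eu e b b ≤ M}.Infinite :=
      (p1 (lp i)).imp fun _ k => k _
    exact (Nat.find_spec hex).mono fun b (k : _ ∧ _) =>
      ⟨k.1, Or.inr fun M hM => k.2.trans (Nat.find_min' hex hM)⟩
  · obtain ⟨M, k1⟩ := p1 n
    obtain ⟨n1, k2⟩ := R.near_lo h1 n
    obtain ⟨n2, k3⟩ := R.lo (M + 1)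
    refine ⟨max n1 n2, fun b i q hb => ?_⟩
    by_contra hn
    rcases q.2 with q | q
    · have t : Tendsto (fun g => m * g) (𝓝 (m⁻¹ * G b)) (𝓝 (G b)) :=
        Continuous.tendsto' (by fun_prop) _ _ (mul_inv_cancel_left _ _)
      obtain ⟨s, hs⟩ := C.hd.mem_nhds (t.eventually (cl_left C.hV n1 (G b)))
      exact q s ((k2 b s (by omega) hs).mono (by omega))
    · have e1 := q M ((k1 _).mono fun b' (k : _ ∧ _) => ⟨k.1.mono (by omega), k.2⟩)
      have e2 := k3 b b (by omega) (by omega) (Ctx.cl_refl _ _)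
      omega
  · obtain ⟨n', k⟩ := R.near_hi h1 h2 n
    exact ⟨n', fun b i q hi => k b _ (q.1.mono hi)⟩

theorem orbit_code (Γ Y : Type) [Group Γ] [TopologicalSpace Γ] [IsTopologicalGroup Γ]
    [PolishSpace Γ] [TopologicalSpace Y] [PolishSpace Y] [MeasurableSpace Y] [BorelSpace Y]
    [MulAction Γ Y] [ContinuousSMul Γ Y] [Nonempty Y] :
    ∃ (u : Y → ℕ × ℕ × ℕ → ℕ) (v : (ℕ × ℕ × ℕ → ℕ) → Y) (A : Set (ℕ × ℕ × ℕ → ℕ)),
      Measurable u ∧ Measurable v ∧ MeasurableSet A ∧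
      (∀ y y', (∃ g : Γ, g • y = y') ↔ Es (u y) (u y')) ∧
      (∀ e, e ∈ A ↔ ∃ y, Es e (u y)) ∧ ∀ e y, Es e (u y) → ∃ g : Γ, g • y = v e := by
  obtain ⟨y0⟩ := ‹Nonempty Y›
  obtain ⟨V, hV⟩ := (𝓝 (1 : Γ)).exists_antitone_basis
  obtain ⟨b, cb, -, hb⟩ := TopologicalSpace.exists_countable_basis Y
  obtain ⟨U, hU⟩ := (cb.insert ∅).exists_eq_range (insert_nonempty _ _)
  let C : Ctx Γ Y := ⟨V, fun n => Nat.casesOn n 1 (TopologicalSpace.denseSeq Γ), U, hV,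
    (TopologicalSpace.denseRange_denseSeq Γ).mono (by rintro _ ⟨n, rfl⟩; exact ⟨n + 1, rfl⟩), rfl,
    fun k => by
      have : U k ∈ insert ∅ b := hU ▸ mem_range_self k
      rcases this with h | h
      · rw [h]; exact isOpen_empty
      · exact hb.isOpen h,
    fun y W hW => by
      obtain ⟨T, hT, h1, h2⟩ := hb.mem_nhds_iff.1 hW
      obtain ⟨j, rfl⟩ : T ∈ range U := hU ▸ mem_insert_of_mem _ hT
      exact ⟨j, h1, h2⟩⟩
  obtain ⟨q, qm, hq⟩ := meas_seq meas_St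
  let a : (ℕ × ℕ × ℕ → ℕ) → ℕ → ℕ := fun e k => (q e (k + 1)).unpair.1
  have am : ∀ k, Measurable fun e => a e k := fun k =>
    (measurable_from_nat (f := fun n : ℕ => n.unpair.1)).comp (qm (k + 1))
  let v : (ℕ × ℕ × ℕ → ℕ) → Y := fun e => Function.extend C.tt id (fun _ => y0) (TT e (a e))
  have vm : Measurable v := ((C.meas_tt.measurableEmbedding C.tt_inj).measurable_extend
    measurable_id measurable_const).comp (meas_TT am)
  have key : ∀ e y, Es e (C.uu y) → (∃ g : Γ, g • y = v e) ∧ Wd e (C.uu (v e)) (Rl e (a e)) := by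
    intro e y h
    obtain ⟨G, lv, R⟩ := C.real_of_es h
    obtain ⟨m, h1, h2⟩ := R.lim (hq e).1 (hq e).2
    rw [← smul_inv_smul m y] at R
    have : v e = m⁻¹ • y := by
      simp only [v, a, R.trace h1 h2, C.tt_inj.extend_apply, id]
    rw [this]
    exact ⟨⟨_, rfl⟩, R.wd h1 h2⟩
  refine ⟨C.uu, v, {e | Wd e (C.uu (v e)) (Rl e (a e))}, C.meas_uu, vm, Measurable.setOf ?_,
    fun y y' => ⟨?_, fun h => ?_⟩, fun e => ⟨fun h => ⟨_, Wd.es h⟩, fun ⟨y, h⟩ => (key e y h).2⟩,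
    fun e y h => (key e y h).1⟩
  · have um : ∀ p, Measurable fun e => C.uu (v e) p := fun p =>
      (measurable_pi_apply p).comp (C.meas_uu.comp vm)
    exact (Measurable.forall fun _ => meas_inf fun _ => meas_Rl am _ _).and
      ((Measurable.forall fun _ => meas_inf fun _ => meas_Rl am _ _).and
        (Measurable.forall fun _ => Measurable.exists fun _ => Measurable.forall fun _ =>
          Measurable.forall fun _ => Measurable.forall fun _ => Measurable.forall fun _ =>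
          Measurable.forall fun _ => (meas_Rl am _ _).imp ((meas_Rl am _ _).imp
            (((meas_le (measurable_pi_apply _) measurable_const).imp
              (meas_le (um _) measurable_const)).and ((meas_le (um _) measurable_const).imp
              (meas_le (measurable_pi_apply _) measurable_const))))))
  · rintro ⟨g, rfl⟩
    simpa using C.es_smul g⁻¹ (g • y)
  · obtain ⟨g, hg⟩ := (key _ _ h).1
    obtain ⟨g', hg'⟩ := (key _ y (by simpa using C.es_smul 1 y)).1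
    exact ⟨g⁻¹ * g', by rw [mul_smul, hg', ← hg, inv_smul_smul]⟩

end Pool.Agent.P.MP_52b1ec_lc.OR
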