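import Pool.Agent.P.MP_52b1ec_lc.Y.ODefs

namespace Pool.Agent.P.MP_52b1ec_lc.OR

open Topology Filter Set
open scoped commutatorElement

noncomputable section

/-- the multiplier of the block `b` -/
def rg_lam (b : ℕ) (u : ℕ × ℕ →₀ ℤ) : ℚ :=
  u.prod fun k n => if k.1 = b then ((Nat.nth Nat.Prime k.2 : ℕ) : ℚ) ^ n else 1

lemma rg_p0 (i : ℕ) : ((Nat.nth Nat.Prime i : ℕ) : ℚ) ≠ 0 := by
  exact_mod_cast (Nat.prime_nth_prime i).ne_zero

@[simp] lemma rg_lam_zero (b : ℕ) : rg_lam b 0 = 1 := by simp [rg_lam]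

lemma rg_lam_add (b : ℕ) (u v : ℕ × ℕ →₀ ℤ) : rg_lam b (u + v) = rg_lam b u * rg_lam b v := by
  refine Finsupp.prod_add_index' (fun k => by simp) fun k m n => ?_
  split_ifs
  · exact zpow_add₀ (rg_p0 _) _ _
  · simp

lemma rg_lam_single (b : ℕ) (k : ℕ × ℕ) (n : ℤ) : rg_lam b (Finsupp.single k n) =
    if k.1 = b then ((Nat.nth Nat.Prime k.2 : ℕ) : ℚ) ^ n else 1 :=
  Finsupp.prod_single_index (by simp)

lemma rg_lam_neg (b : ℕ) (u : ℕ × ℕ →₀ ℤ) : rg_lam b (-u) * rg_lam b u = 1 := by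
  rw [← rg_lam_add, neg_add_cancel, rg_lam_zero]

lemma rg_lam_ne (b : ℕ) (u : ℕ × ℕ →₀ ℤ) : rg_lam b u ≠ 0 :=
  right_ne_zero_of_mul_eq_one (rg_lam_neg b u)

lemma rg_val (b i : ℕ) (u : ℕ × ℕ →₀ ℤ) :
    padicValRat (Nat.nth Nat.Prime i) (rg_lam b u) = u (b, i) := by
  have := Fact.mk (Nat.prime_nth_prime i)
  induction u using Finsupp.induction_linear with
  | zero => simp
  | add u v hu hv =>
    rw [rg_lam_add, padicValRat.mul (rg_lam_ne _ _) (rg_lam_ne _ _), hu, hv, Finsupp.add_apply]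
  | single k n =>
    obtain ⟨c, j⟩ := k
    have := Fact.mk (Nat.prime_nth_prime j)
    rw [rg_lam_single, Finsupp.single_apply]
    by_cases h : c = b
    · subst h
      rw [if_pos rfl, padicValRat.zpow, padicValRat.of_nat]
      by_cases h' : j = i
      · subst h'
        simp
      · rw [padicValNat_primes fun e => h' (Nat.nth_injective Nat.infinite_setOfPred_prime e).symm]
        simp [h']
    · simp [h]

lemma rg_lam_nat (b : ℕ) (d : ℕ) (hd : d ≠ 0) : ∃ u, rg_lam b u = d := by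
  induction d using induction_on_primes with
  | zero => exact absurd rfl hd
  | one => exact ⟨0, by simp⟩
  | prime_mul p a hp ih =>
    obtain ⟨u, hu⟩ := ih (right_ne_zero_of_mul hd)
    refine ⟨Finsupp.single (b, Nat.count Nat.Prime p) 1 + u, ?_⟩
    rw [rg_lam_add, rg_lam_single, hu, if_pos rfl, Nat.nth_count hp]
    simp

/-- the action on the translations -/
def rg_act (u : ℕ × ℕ →₀ ℤ) (q : ℕ →₀ ℚ) : ℕ →₀ ℚ :=
  ⟨q.support, fun b => rg_lam b u * q b, fun b => by simp [rg_lam_ne]⟩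

@[simp] lemma rg_act_apply (u : ℕ × ℕ →₀ ℤ) (q : ℕ →₀ ℚ) (b : ℕ) :
    rg_act u q b = rg_lam b u * q b := rfl

/-- the restricted sum of affine groups -/
@[ext] structure RW where
  q : ℕ →₀ ℚ
  u : ℕ × ℕ →₀ ℤ

instance : Countable RW :=
  Function.Injective.countable (f := fun w : RW => (w.q, w.u)) fun _ _ h =>
    RW.ext (congrArg Prod.fst h) (congrArg Prod.snd h)

instance : Mul RW := ⟨fun a b => ⟨a.q + rg_act a.u b.q, a.u + b.u⟩⟩
instance : One RW := ⟨⟨0, 0⟩⟩
instance : Inv RW := ⟨fun a => ⟨-rg_act (-a.u) a.q, -a.u⟩⟩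

@[simp] lemma rg_mul_q (a b : RW) (c : ℕ) : (a * b).q c = a.q c + rg_lam c a.u * b.q c := rfl
@[simp] lemma rg_mul_u (a b : RW) : (a * b).u = a.u + b.u := rfl
@[simp] lemma rg_one_q : (1 : RW).q = 0 := rfl
@[simp] lemma rg_one_u : (1 : RW).u = 0 := rfl
@[simp] lemma rg_inv_q (a : RW) (c : ℕ) : a⁻¹.q c = -(rg_lam c (-a.u) * a.q c) := rfl
@[simp] lemma rg_inv_u (a : RW) : a⁻¹.u = -a.u := rfl

instance : Group RW := Group.ofLeftAxioms
  (fun a b c => RW.ext (Finsupp.ext fun i => by simp [rg_lam_add]; ring) (by simp [add_assoc]))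
  (fun a => RW.ext (Finsupp.ext fun i => by simp) (by simp))
  (fun a => RW.ext (Finsupp.ext fun i => by simp) (by simp))

/-- translations -/
def rg_T : Multiplicative (ℕ →₀ ℚ) →* RW where
  toFun q := ⟨q.toAdd, 0⟩
  map_one' := rfl
  map_mul' a b := RW.ext (Finsupp.ext fun i => by simp) (by simp)

/-- dilations -/
def rg_X : Multiplicative (ℕ × ℕ →₀ ℤ) →* RW where
  toFun u := ⟨0, u.toAdd⟩
  map_one' := rfl
  map_mul' a b := RW.ext (Finsupp.ext fun i => by simp) (by simp)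

/-- the linear part -/
def rg_U : RW →* Multiplicative (ℕ × ℕ →₀ ℤ) where
  toFun w := Multiplicative.ofAdd w.u
  map_one' := rfl
  map_mul' _ _ := rfl

lemma rg_conj (g : RW) (q : ℕ →₀ ℚ) : g * ⟨q, 0⟩ * g⁻¹ = ⟨rg_act g.u q, 0⟩ := by
  refine RW.ext (Finsupp.ext fun i => ?_) (by simp)
  have := rg_lam_neg i g.u
  simp only [rg_mul_q, rg_mul_u, add_zero, rg_inv_q, rg_act_apply]
  linear_combination (-(g.q i)) * this

lemma rg_act_single (u : ℕ × ℕ →₀ ℤ) (b : ℕ) (r : ℚ) :
    rg_act u (Finsupp.single b r) = Finsupp.single b (rg_lam b u * r) := by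
  ext c
  by_cases h : b = c
  · subst h
    simp
  · simp [h]

lemma rg_comm (b : ℕ) (r : ℚ) : ⁅(⟨0, Finsupp.single (b, 0) 1⟩ : RW),
    (⟨Finsupp.single b r, 0⟩ : RW)⁆ = ⟨Finsupp.single b r, 0⟩ := by
  rw [commutatorElement_def, rg_conj, rg_act_single, rg_lam_single, if_pos rfl,
    Nat.nth_prime_zero_eq_two]
  refine RW.ext (Finsupp.ext fun c => ?_) (by simp)
  by_cases h : b = c
  · subst h
    simp
    ring
  · simp [h]

lemma rg_kill (β : RW →* RW) (q : ℕ →₀ ℚ) : (β ⟨q, 0⟩).u = 0 := by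
  induction q using Finsupp.induction_linear with
  | zero => exact congrArg RW.u β.map_one
  | add p q hp hq =>
    have : (⟨p + q, 0⟩ : RW) = ⟨p, 0⟩ * ⟨q, 0⟩ := rg_T.map_mul (.ofAdd p) (.ofAdd q)
    rw [this, map_mul, rg_mul_u, hp, hq, add_zero]
  | single b r =>
    rw [← rg_comm, map_commutatorElement, commutatorElement_def]
    simp

lemma rg_half (β : RW ≃* RW) : ∃ s : ℕ → ℕ, ∀ w b i, (β w).u (s b, i) = w.u (b, i) := by
  have e : ∀ q, β ⟨q, 0⟩ = ⟨(β ⟨q, 0⟩).q, 0⟩ := fun q => RW.ext rfl (rg_kill β.toMonoidHom q)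
  let f : (ℕ →₀ ℚ) →+ (ℕ →₀ ℚ) := AddMonoidHom.mk' (fun q => (β ⟨q, 0⟩).q) fun p q => by
    have : (⟨p + q, 0⟩ : RW) = ⟨p, 0⟩ * ⟨q, 0⟩ := rg_T.map_mul (.ofAdd p) (.ofAdd q)
    ext c
    simp only [this, map_mul, rg_mul_q, Finsupp.add_apply]
    rw [show (β ⟨p, 0⟩).u = 0 from rg_kill β.toMonoidHom p, rg_lam_zero, one_mul]
  have h1 : ∀ b, ∃ c, f (Finsupp.single b 1) c ≠ 0 := fun b => by
    by_contra! h
    have : β ⟨Finsupp.single b 1, 0⟩ = 1 := (e _).trans (RW.ext (Finsupp.ext h) rfl)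
    have := congrArg (fun w : RW => w.q b) (β.map_eq_one_iff.1 this)
    simp at this
  choose s hs using h1
  refine ⟨s, fun w b i => ?_⟩
  have h2 := congrArg β (rg_conj w (Finsupp.single b 1))
  rw [map_mul, map_mul, map_inv, e, rg_conj, rg_act_single] at h2
  have h3 : rg_lam (s b) (β w).u * f (Finsupp.single b 1) (s b) =
      f (Finsupp.single b (rg_lam b w.u * 1)) (s b) := congrArg (fun w : RW => w.q (s b)) h2
  rw [← smul_eq_mul (rg_lam b w.u), ← Finsupp.smul_single, map_rat_smul, Finsupp.smul_apply,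
    smul_eq_mul] at h3
  rw [← rg_val, ← rg_val, mul_right_cancel₀ (hs b) h3]

/-- relabelling of the blocks -/
def rg_F (σ : Equiv.Perm ℕ) : RW →* RW :=
  MonoidHom.mk' (fun w => ⟨Finsupp.equivMapDomain σ w.q,
    Finsupp.equivMapDomain (σ.prodCongr (Equiv.refl ℕ)) w.u⟩) fun a b => by
    refine RW.ext (Finsupp.ext fun c => ?_) (Finsupp.ext fun k => by simp)
    simp only [Finsupp.equivMapDomain_apply, rg_mul_q, rg_lam, Finsupp.prod_equivMapDomain]
    simp [Equiv.eq_symm_apply]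

theorem exists_rig : ∃ (W : Type) (_ : Group W) (_ : Countable W), Nonempty (Rig W) := by
  refine ⟨RW, inferInstance, inferInstance, ⟨⟨rg_U, fun k => ⟨0, Finsupp.single k 1⟩,
    fun b => ⟨Finsupp.single b 1, 0⟩, fun _ => rfl, fun k l => ?_, fun b => rg_comm b 1, ?_,
    fun w h => ?_, fun β => ?_, fun σ => ?_⟩⟩⟩
  · exact RW.ext (Finsupp.ext fun c => by simp) (by simp [add_comm])
  · generalize hH : Subgroup.closure (G := RW) _ = H
    have hx : ∀ k, (⟨0, Finsupp.single k 1⟩ : RW) ∈ H := fun k =>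
      hH ▸ Subgroup.subset_closure (Or.inl ⟨k, rfl⟩)
    have ht : ∀ b, (⟨Finsupp.single b 1, 0⟩ : RW) ∈ H := fun b =>
      hH ▸ Subgroup.subset_closure (Or.inr ⟨b, rfl⟩)
    have h1 : ∀ u, rg_X (.ofAdd u) ∈ H := fun u => by
      induction u using Finsupp.induction_linear with
      | zero => exact H.one_mem
      | add u v hu hv =>
        rw [ofAdd_add, map_mul]
        exact H.mul_mem hu hv
      | single k n =>
        rw [show Finsupp.single k n = n • Finsupp.single k 1 by simp, ofAdd_zsmul, map_zpow]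
        exact H.zpow_mem (hx k) n
    have h2 : ∀ q, rg_T (.ofAdd q) ∈ H := fun q => by
      induction q using Finsupp.induction_linear with
      | zero => exact H.one_mem
      | add u v hu hv =>
        rw [ofAdd_add, map_mul]
        exact H.mul_mem hu hv
      | single b r =>
        obtain ⟨u, hu⟩ := rg_lam_nat b r.den r.den_nz
        have k := H.mul_mem (H.mul_mem (h1 (-u)) (ht b)) (H.inv_mem (h1 (-u)))
        rw [rg_conj, rg_act_single] at k
        have e : Finsupp.single b r = r.num • Finsupp.single b (rg_lam b (-u) * 1) := by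
          have := rg_lam_neg b u
          rw [hu] at this
          rw [Finsupp.smul_single, zsmul_eq_mul, ← Rat.mul_den_eq_num]
          congr 1
          linear_combination (-r) * this
        rw [e, ofAdd_zsmul, map_zpow]
        exact H.zpow_mem k _
    refine (Subgroup.eq_top_iff' H).2 fun w => ?_
    convert H.mul_mem (h2 w.q) (h1 w.u)
    exact RW.ext (Finsupp.ext fun c => by simp [rg_T, rg_X]) (by simp [rg_T, rg_X])
  · have h1 : w.u = 0 := Finsupp.ext fun ⟨b, i⟩ => by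
      have := congrArg (fun w : RW => w.q b) (h ⟨Finsupp.single b 1, 0⟩).eq
      simp only [rg_mul_q, Finsupp.single_eq_same, mul_one, rg_lam_zero, one_mul] at this
      rw [← rg_val, show rg_lam b w.u = 1 by linarith]
      simp
    refine RW.ext (Finsupp.ext fun b => ?_) h1
    have := congrArg (fun w : RW => w.q b) (h ⟨0, Finsupp.single (b, 0) 1⟩).eq
    simp only [rg_mul_q, rg_lam_single, if_true, Nat.nth_prime_zero_eq_two] at this
    simp only [rg_one_q, Finsupp.zero_apply] at this ⊢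
    push_cast at this
    linarith
  · obtain ⟨s, hs⟩ := rg_half β
    obtain ⟨s', hs'⟩ := rg_half β.symm
    refine ⟨⟨s, s', fun b => ?_, fun b => ?_⟩, hs⟩
    · have := (hs' (β ⟨0, Finsupp.single (b, 0) 1⟩) (s b) 0).trans (hs _ b 0)
      rw [β.symm_apply_apply] at this
      by_contra k
      simp [Ne.symm k] at this
    · have := (hs (β.symm ⟨0, Finsupp.single (b, 0) 1⟩) (s' b) 0).trans (hs' _ b 0)
      rw [β.apply_symm_apply] at this
      by_contra k
      simp [Ne.symm k] at this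
  · refine ⟨(rg_F σ).toMulEquiv (rg_F σ.symm) ?_ ?_, fun w b i => by simp [rg_F, rg_U]⟩
    · exact MonoidHom.ext fun w => RW.ext (Finsupp.ext fun c => by simp [rg_F])
        (Finsupp.ext fun ⟨c, i⟩ => by simp [rg_F])
    · exact MonoidHom.ext fun w => RW.ext (Finsupp.ext fun c => by simp [rg_F])
        (Finsupp.ext fun ⟨c, i⟩ => by simp [rg_F])

end

end Pool.Agent.P.MP_52b1ec_lc.OR
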