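import Pool.Agent.P.MP_52b1ec_lc.Y.CDeg
import Pool.Agent.P.MP_52b1ec_lc.Y.Rig
import Pool.Agent.P.MP_52b1ec_lc.Y.Orbit

namespace Pool.Agent.P.MP_52b1ec_lc.OR

open Topology Filter Set

theorem realize {X : Type} [MeasurableSpace X] {E : X → X → Prop} (hE : Equivalence E)
    {u : X → Om → ℕ} {v : (Om → ℕ) → X} {A : Set (Om → ℕ)} (hu : Measurable u)
    (hv : Measurable v) (hA : MeasurableSet A) (h1 : ∀ x y, E x y ↔ Es (u x) (u y))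
    (h2 : ∀ e, e ∈ A ↔ ∃ x, Es e (u x)) (h3 : ∀ e x, Es e (u x) → E x (v e)) {D : Set X}
    (hD : MeasurableSet D) (hi : ∀ x y, E x y → x ∈ D → y ∈ D) :
    ∃ C ⊆ ProCountable, MeasurableSet C ∧ Invariant C ∧
      BorelRed (fun x y : D => E x y) (IsoOn C) ∧ BorelRed (IsoOn C) (fun x y : D => E x y) := by
  obtain ⟨W, _, _, ⟨R⟩⟩ := exists_rig
  obtain ⟨sg, s1, s2, s3⟩ := exists_sg R
  have t := topIso_equivalence
  have k0 : ∀ {x H}, TopIso (GS R (u x)) H → Es (sg H) (u x) := fun h =>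
    topIso_iff.1 (t.trans (s3 _ _ h) (t.symm h))
  have k1 : ∀ {x H}, TopIso (GS R (u x)) H → E x (v (sg H)) := fun h => h3 _ _ (k0 h)
  have k2 : MeasurableSet {H | ∃ x ∈ D, TopIso (GS R (u x)) H} := by
    convert s2.inter (s1 (hA.inter (hv hD))) using 1
    refine Set.ext fun H => ⟨fun ⟨x, hx, h⟩ => ⟨⟨_, h⟩, (h2 _).2 ⟨x, k0 h⟩, hi _ _ (k1 h) hx⟩,
      fun ⟨⟨e, h⟩, a, d⟩ => ?_⟩
    obtain ⟨x, hx⟩ := (h2 _).1 a
    exact ⟨x, hi _ _ (hE.symm (h3 _ _ hx)) d,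
      t.trans (t.symm (topIso_iff.2 hx)) (s3 _ _ h)⟩
  refine ⟨{H | ∃ x ∈ D, TopIso (GS R (u x)) H}, fun H ⟨x, _, h⟩ =>
    invariant_proCountable _ GS_pro _ h, k2,
    fun G ⟨x, hx, h⟩ H h' => ⟨x, hx, t.trans h h'⟩, ⟨fun x => ⟨GS R (u x), x, x.2, t.refl _⟩,
      (measurable_GS.comp (hu.comp measurable_subtype_coe)).subtype_mk,
      fun x y => (h1 x y).trans topIso_iff.symm⟩,
    fun H => ⟨v (sg H), H.2.elim fun x h => hi _ _ (k1 h.2) h.1⟩,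
    ((hv.comp s1).comp measurable_subtype_coe).subtype_mk, ?_⟩
  rintro ⟨G, x, -, h⟩ ⟨H, y, -, h'⟩
  refine Iff.trans (b := E x y) ?_ ⟨fun c => hE.trans (hE.symm (k1 h)) (hE.trans c (k1 h')),
    fun c => hE.trans (k1 h) (hE.trans c (hE.symm (k1 h')))⟩
  rw [h1, ← topIso_iff (D := R)]
  exact ⟨fun c => t.trans h (t.trans c (t.symm h')), fun c => t.trans (t.symm h) (t.trans c h')⟩

theorem realize_orbit (Γ Y : Type) [Group Γ] [TopologicalSpace Γ] [IsTopologicalGroup Γ]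
    [PolishSpace Γ] [TopologicalSpace Y] [PolishSpace Y] [MeasurableSpace Y] [BorelSpace Y]
    [MulAction Γ Y] [ContinuousSMul Γ Y] (D : Set Y) (hD : MeasurableSet D)
    (hi : ∀ (g : Γ), ∀ y ∈ D, g • y ∈ D) :
    ∃ C ⊆ ProCountable, MeasurableSet C ∧ Invariant C ∧
      BorelRed (fun x y : D => ∃ g : Γ, g • x.1 = y.1) (IsoOn C) ∧
        BorelRed (IsoOn C) (fun x y : D => ∃ g : Γ, g • x.1 = y.1) := by
  rcases isEmpty_or_nonempty Y with h | h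
  · exact ⟨∅, empty_subset _, .empty, fun _ h => h.elim,
      ⟨isEmptyElim, measurable_of_empty _, isEmptyElim⟩,
      isEmptyElim, measurable_of_empty _, isEmptyElim⟩
  · obtain ⟨u, v, A, hu, hv, hA, h1, h2, h3⟩ := orbit_code Γ Y
    exact realize (E := fun x y : Y => ∃ g : Γ, g • x = y) ⟨fun x => ⟨1, one_smul _ _⟩,
      fun ⟨g, h⟩ => ⟨g⁻¹, h ▸ inv_smul_smul _ _⟩,
      fun ⟨g, h⟩ ⟨g', h'⟩ => ⟨g' * g, by rw [mul_smul, h, h']⟩⟩ hu hv hA h1 h2 h3 hD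
      fun x y ⟨g, h⟩ hx => h ▸ hi g x hx

end Pool.Agent.P.MP_52b1ec_lc.OR
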