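import Pool.Agent.P.MP_52b1ec_lc.X.Smooth

namespace Pool.Agent.P.MP_52b1ec_lc.FG

open Topology Filter Set MeasureTheory

lemma ext_agree {Φ : Type} [Group Φ] {z z' : Φ →* SInf} {n m : ℕ}
    (h : ∀ w, (∀ i < m, ap (z w) i = i) → ∀ i < n, ap (z' w) i = i) {w w' : Φ}
    (e : ∀ i < m, ap (z w) i = ap (z w') i) : ∀ i < n, ap (z' w) i = ap (z' w') i := by
  intro i hi
  have h1 := h (w'⁻¹ * w) (fun j hj => by rw [map_mul, map_inv, ap_mul, e j hj, ap_inv_ap]) i hi
  rw [map_mul, map_inv, ap_mul] at h1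
  have := congrArg (ap (z' w')) h1
  rwa [ap_ap_inv] at this

lemma ext_hom {Φ : Type} [Group Φ] (z z' : Φ →* SInf)
    (h : ∀ n, ∃ m, ∀ w, (∀ i < m, ap (z w) i = i) → ∀ i < n, ap (z' w) i = i)
    {G H : CS} (hG : (G : Set SInf) = closure (range z))
    (hH : (H : Set SInf) = closure (range z')) :
    ∃ Θ : G.toSubgroup →* H.toSubgroup, Continuous Θ ∧
      ∀ w (g : G.toSubgroup), g.1 = z w → (Θ g).1 = z' w := by
  choose γ hγ using h
  have hex : ∀ (g : G.toSubgroup) m, ∃ w, ∀ i < m, ap (z w) i = ap g i := by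
    intro g m
    have hg : g.1 ∈ closure (range z) := hG ▸ g.2
    obtain ⟨_, ⟨w, rfl⟩, hw⟩ := SInf_mem_closure.1 hg m
    exact ⟨w, hw⟩
  choose a ha using hex
  let val : G.toSubgroup → ℕ → ℕ := fun g i => ap (z' (a g (γ (i + 1)))) i
  have P : ∀ (g : G.toSubgroup) n w, (∀ i < γ n, ap (z w) i = ap g i) →
      ∀ i < n, val g i = ap (z' w) i := by
    intro g n w hw i hi
    have h0 := ha g (max (γ n) (γ (i + 1)))
    rw [ext_agree (hγ n) (w := w) (w' := a g (max (γ n) (γ (i + 1))))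
      (fun j hj => (hw j hj).trans (h0 j (lt_max_of_lt_left hj)).symm) i hi]
    exact ext_agree (hγ (i + 1)) (fun j hj => (ha g _ j hj).trans
      (h0 j (lt_max_of_lt_right hj)).symm) i (Nat.lt_succ_self i)
  have hone : ∀ i, val 1 i = i := fun i => by
    rw [P 1 (i + 1) 1 (fun j _ => by rw [map_one]; rfl) i (Nat.lt_succ_self i), map_one, ap_one]
  have hmul : ∀ g g' i, val (g * g') i = val g (val g' i) := by
    intro g g' i
    obtain ⟨M, hM⟩ := ((Set.finite_Iio (γ (i + 1))).image (ap g'.1)).bddAbove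
    have h0 := ha g (max (γ (val g' i + 1)) (M + 1))
    rw [P g (val g' i + 1) _ (fun j hj => h0 j (lt_max_of_lt_left hj)) _ (Nat.lt_succ_self _),
      P (g * g') (i + 1) (a g (max (γ (val g' i + 1)) (M + 1)) * a g' (γ (i + 1))) ?_ i
        (Nat.lt_succ_self i), map_mul, ap_mul]
    intro j hj
    rw [map_mul, ap_mul, ha g' _ j hj,
      h0 _ (lt_max_of_lt_right (Nat.lt_succ_of_le (hM ⟨j, hj, rfl⟩)))]
    rfl
  let σ : G.toSubgroup → SInf := fun g => SInf.ofPerm ⟨val g, val g⁻¹,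
    fun i => by rw [← hmul, inv_mul_cancel, hone], fun i => by rw [← hmul, mul_inv_cancel, hone]⟩
  have hσ : ∀ g, σ g ∈ H := fun g => by
    show σ g ∈ (H : Set SInf)
    rw [hH, SInf_mem_closure]
    exact fun n => ⟨_, ⟨a g (γ n), rfl⟩, fun i hi => (P g n _ (ha g _) i hi).symm⟩
  refine ⟨MonoidHom.mk' (fun g => ⟨σ g, hσ g⟩) fun g g' =>
    Subtype.ext (ap_injective (funext (hmul g g'))), ?_, fun w g e => ?_⟩
  · rw [hom_continuous_iff]
    refine fun n => ⟨γ n, fun g hg i hi => ?_⟩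
    have := P g n 1 (fun j hj => by rw [map_one, ap_one, hg j hj]) i hi
    rwa [map_one, ap_one] at this
  · exact ap_injective (funext fun i => P g (i + 1) w (fun j _ => by rw [e]) i (Nat.lt_succ_self i))

lemma ext_inv {Φ : Type} [Group Φ] {z z' : Φ →* SInf} {G H : CS}
    (hG : (G : Set SInf) = closure (range z)) {Θ : G.toSubgroup →* H.toSubgroup}
    {Θ' : H.toSubgroup →* G.toSubgroup} (c : Continuous Θ) (c' : Continuous Θ')
    (e : ∀ w (g : G.toSubgroup), g.1 = z w → (Θ g).1 = z' w)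
    (e' : ∀ w (g : H.toSubgroup), g.1 = z' w → (Θ' g).1 = z w) (g : G.toSubgroup) :
    Θ' (Θ g) = g := by
  have hc : IsClosed {g : G.toSubgroup | Θ' (Θ g) = g} := isClosed_eq (c'.comp c) continuous_id
  have hg : g.1 ∈ closure (range z) := hG ▸ g.2
  refine hc.closure_subset (mem_closure_iff_nhds.2 fun U hU => ?_)
  obtain ⟨n, hn⟩ := sub_mem_nhds.1 hU
  obtain ⟨_, ⟨w, rfl⟩, hw⟩ := SInf_mem_closure.1 hg n
  have hz : z w ∈ G.toSubgroup := by
    show z w ∈ (G : Set SInf)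
    rw [hG]
    exact subset_closure ⟨w, rfl⟩
  exact ⟨⟨z w, hz⟩, hn _ hw, Subtype.ext (e' w _ (e w _ rfl))⟩

theorem ext_iso {Φ : Type} [Group Φ] (z z' : Φ →* SInf)
    (h : ∀ n, ∃ m, ∀ w, (∀ i < m, ap (z w) i = i) → ∀ i < n, ap (z' w) i = i)
    (h' : ∀ n, ∃ m, ∀ w, (∀ i < m, ap (z' w) i = i) → ∀ i < n, ap (z w) i = i)
    {G H : CS} (hG : (G : Set SInf) = closure (range z))
    (hH : (H : Set SInf) = closure (range z')) :
    ∃ Θ : G.toSubgroup ≃ₜ* H.toSubgroup,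
      ∀ w (g : G.toSubgroup), g.1 = z w → (Θ g).1 = z' w := by
  obtain ⟨Θ, c, e⟩ := ext_hom z z' h hG hH
  obtain ⟨Θ', c', e'⟩ := ext_hom z' z h' hH hG
  exact ⟨{ toFun := Θ, invFun := Θ', left_inv := ext_inv hG c c' e e',
           right_inv := ext_inv hH c' c e' e, map_mul' := map_mul Θ,
           continuous_toFun := c, continuous_invFun := c' }, e⟩

theorem meas_of_pi [MeasurableSpace SInf] [BorelSpace SInf] {A : Set CS}
    (h : MeasurableSet (lus_pi ⁻¹' A)) : MeasurableSet A := by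
  obtain ⟨c, hc, hci⟩ := lus_code
  have hp : Measurable lus_pi := measurable_CS fun U hU => (lus_open hU).measurableSet
  obtain ⟨u, h1, h2, hu⟩ := (h.analyticSet_image (hc.comp hp)).measurablySeparable
    (h.compl.analyticSet_image (hc.comp hp)) (by
      rw [Set.disjoint_left]
      rintro _ ⟨x, hx, rfl⟩ ⟨y, hy, e⟩
      have e' : lus_pi y = lus_pi x := hci e
      exact hy (show lus_pi y ∈ A from e' ▸ hx))
  convert hc hu using 1
  ext G
  obtain ⟨x, rfl⟩ := lus_surj G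
  refine ⟨fun hG => h1 ⟨x, hG, rfl⟩, fun hG => ?_⟩
  by_contra hn
  exact Set.disjoint_left.1 h2 ⟨x, hn, rfl⟩ hG

end Pool.Agent.P.MP_52b1ec_lc.FG
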