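import Pool.Agent.P.MP_52b1ec_lc.Y.Tower

namespace Pool.Agent.P.MP_52b1ec_lc.FG

open Topology Filter Set

lemma ks_sel0 {Z : Type} [TopologicalSpace Z] [MeasurableSpace Z] [OpensMeasurableSpace Z]
    {C : Set ℝ} (hC : IsCompact C) (c0 : C) {W : Set (Z × C)} (hW : IsClosed W) :
    ∃ s : Z → C, Measurable s ∧ ∀ e, (∃ t, (e, t) ∈ W) → (e, s e) ∈ W := by
  have := isCompact_iff_compactSpace.1 hC
  have ex : ∀ e, ∃ t : C, ((∃ t, (e, t) ∈ W) → IsLeast {t | (e, t) ∈ W} t) ∧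
      ((¬ ∃ t, (e, t) ∈ W) → t = c0) := by
    intro e
    by_cases h : ∃ t, (e, t) ∈ W
    · obtain ⟨t, ht⟩ := (hW.preimage (f := fun t : C => (e, t))
        (by fun_prop)).isCompact.exists_isLeast h
      exact ⟨t, fun _ => ht, fun h' => absurd h h'⟩
    · exact ⟨c0, fun h' => absurd h' h, fun _ => rfl⟩
  choose s h1 h2 using ex
  refine ⟨s, Measurable.subtype_mk (f := fun e => (s e : ℝ)) (measurable_of_Iic fun r => ?_),
    fun e h => (h1 e h).1⟩
  have c1 : IsClosed (Prod.fst '' (W ∩ {p | (p.2 : ℝ) ≤ r})) :=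
    isClosedMap_fst_of_compactSpace _ (hW.inter (isClosed_le (by fun_prop) continuous_const))
  have c2 : IsClosed (Prod.fst '' W) := isClosedMap_fst_of_compactSpace _ hW
  convert c1.measurableSet.union
    (c2.measurableSet.compl.inter (MeasurableSet.const ((c0 : ℝ) ≤ r))) using 1
  ext e
  simp only [mem_preimage, mem_Iic, mem_union, mem_image, mem_inter_iff, mem_ofPred_eq,
    mem_compl_iff]
  constructor
  · intro h
    by_cases h' : ∃ t, (e, t) ∈ W
    · exact Or.inl ⟨(e, s e), ⟨(h1 e h').1, h⟩, rfl⟩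
    · refine Or.inr ⟨?_, h2 e h' ▸ h⟩
      rintro ⟨⟨e', t⟩, ht, rfl⟩
      exact h' ⟨t, ht⟩
  · rintro (⟨⟨e', t⟩, ⟨ht, hr⟩, rfl⟩ | ⟨h, hr⟩)
    · exact le_trans ((h1 _ ⟨t, ht⟩).2 ht) hr
    · rw [h2 e fun ⟨t, ht⟩ => h ⟨(e, t), ht, rfl⟩]
      exact hr

lemma ks_sel {Z X : Type} [TopologicalSpace Z] [MeasurableSpace Z] [OpensMeasurableSpace Z]
    [TopologicalSpace X] [PolishSpace X] [MeasurableSpace X] [BorelSpace X]
    {Y : Set X} (hY : IsCompact Y) (hne : Y.Nonempty) {W : Set (Z × X)} (hW : IsClosed W) :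
    ∃ s : Z → X, Measurable s ∧ ∀ e, (∃ y ∈ Y, (e, y) ∈ W) → (e, s e) ∈ W := by
  let := TopologicalSpace.upgradeIsCompletelyMetrizable X
  have := isCompact_iff_compactSpace.1 hY
  have := hne.to_subtype
  obtain ⟨f, hf, hs⟩ := exists_nat_bool_continuous_surjective_of_compact Y
  let π : cantorSet → X := fun t => f (cantorSetHomeomorphNatToBool t)
  have hπ : Continuous π :=
    continuous_subtype_val.comp (hf.comp cantorSetHomeomorphNatToBool.continuous)
  obtain ⟨s, h1, h2⟩ := ks_sel0 isCompact_cantorSet ⟨0, zero_mem_cantorSet⟩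
    (hW.preimage (f := fun p : Z × cantorSet => (p.1, π p.2)) (by fun_prop))
  refine ⟨π ∘ s, hπ.measurable.comp h1, fun e ⟨y, hy, h⟩ => h2 e ?_⟩
  obtain ⟨c, hc⟩ := hs ⟨y, hy⟩
  refine ⟨cantorSetHomeomorphNatToBool.symm c, ?_⟩
  show (e, π _) ∈ W
  simp only [π, Homeomorph.apply_symm_apply, hc]
  exact h

lemma ks_tower {X : Type} [TopologicalSpace X] [T2Space X] (x0 : X) {E : X → X → Prop}
    (hE : Equivalence E) (hs : IsSigmaCompact {p : X × X | E p.1 p.2}) :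
    ∃ K : ℕ → Set (X × X), (∀ n, IsCompact (K n)) ∧ Monotone K ∧ (x0, x0) ∈ K 0 ∧
      (∀ x y, E x y ↔ ∃ n, (x, y) ∈ K n) ∧
      ∀ n x y z, (x, y) ∈ K n → (x, z) ∈ K n → (y, z) ∈ K (n + 1) := by
  obtain ⟨C, hC, hU⟩ := hs
  let op : Set (X × X) → Set (X × X) := fun A =>
    (fun q : (X × X) × (X × X) => (q.1.2, q.2.2)) '' ((A ×ˢ A) ∩ {q | q.1.1 = q.2.1})
  let K : ℕ → Set (X × X) := fun n => Nat.rec {(x0, x0)} (fun n A => A ∪ (op A ∪ C n)) n
  refine ⟨K, fun n => ?_, monotone_nat_of_le_succ fun n => subset_union_left, rfl,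
    fun x y => ⟨fun h => ?_, ?_⟩, fun n x y z h h' =>
      Or.inr (Or.inl ⟨((x, y), (x, z)), ⟨⟨h, h'⟩, rfl⟩, rfl⟩)⟩
  · induction n with
    | zero => exact isCompact_singleton
    | succ n ih =>
      exact ih.union ((((ih.prod ih).inter_right
        (isClosed_eq (by fun_prop) (by fun_prop))).image (by fun_prop)).union (hC n))
  · obtain ⟨n, hn⟩ := mem_iUnion.1 (hU.ge (show (x, y) ∈ {p : X × X | E p.1 p.2} from h))
    exact ⟨n + 1, Or.inr (Or.inr hn)⟩
  · rintro ⟨n, h⟩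
    induction n generalizing x y with
    | zero =>
      obtain ⟨rfl, rfl⟩ := Prod.mk.inj h
      exact hE.refl _
    | succ n ih =>
      rcases h with h | ⟨⟨⟨a, b⟩, ⟨a', b'⟩⟩, ⟨⟨h1, h2⟩, h3⟩, h4⟩ | h
      · exact ih x y h
      · obtain ⟨rfl, rfl⟩ := Prod.mk.inj h4
        obtain rfl : a = a' := h3
        exact hE.trans (hE.symm (ih _ _ h1)) (ih _ _ h2)
      · exact hU.le (mem_iUnion.2 ⟨n, h⟩)

theorem ksigma (X : Type) [TopologicalSpace X] [PolishSpace X] [MeasurableSpace X] [BorelSpace X]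
    [Nonempty X] (E : X → X → Prop) (hE : Equivalence E)
    (hs : IsSigmaCompact {p : X × X | E p.1 p.2}) :
    ∃ (u : X → ℕ → ℕ) (v : (ℕ → ℕ) → X), Measurable u ∧ Measurable v ∧
      (∀ x y, E x y ↔ Cof (u x) (u y) ∧ Cof (u y) (u x)) ∧
      ∀ x e, Cof e (u x) → Cof (u x) e → E (v e) x := by
  classical
  obtain ⟨x0⟩ := ‹Nonempty X›
  obtain ⟨K, hK, hm, h0, hEK, hc⟩ := ks_tower x0 hE hs
  obtain ⟨b, cb, -, hb⟩ := TopologicalSpace.exists_countable_basis X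
  obtain ⟨U, hU⟩ := (cb.insert ∅).exists_eq_range (insert_nonempty _ _)
  have ho : ∀ k, IsOpen (U k) := fun k => by
    have : U k ∈ insert ∅ b := hU ▸ mem_range_self k
    rcases this with h | h
    · rw [h]; exact isOpen_empty
    · exact hb.isOpen h
  let p : ℕ → X → ℕ → Prop := fun i x n =>
    i.unpair.2 ≤ n ∨ ∃ y ∈ closure (U i.unpair.1), (x, y) ∈ K n
  have hp : ∀ i x, ∃ n, p i x n := fun i x => ⟨_, Or.inl le_rfl⟩
  let u : X → ℕ → ℕ := fun x i => Nat.find (hp i x)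
  have hu : ∀ x i m, u x i ≤ m ↔ p i x m := fun x i m =>
    ⟨fun h => (Nat.find_spec (hp i x)).imp (fun h' => h'.trans h)
      fun ⟨y, hy, h'⟩ => ⟨y, hy, hm h h'⟩, fun h => Nat.find_min' _ h⟩
  have um : Measurable u := by
    refine measurable_pi_lambda _ fun i => measurable_find (hp i) fun n => ?_
    refine (MeasurableSet.const (i.unpair.2 ≤ n)).union (s₂ := {x | ∃ y ∈ closure (U i.unpair.1),
      (x, y) ∈ K n}) ?_
    have := (((hK n).inter_right ((isClosed_closure (s := U i.unpair.1)).preimage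
      continuous_snd)).image continuous_fst).isClosed.measurableSet
    convert this using 1
    ext x
    exact ⟨fun ⟨y, h1, h2⟩ => ⟨(x, y), ⟨h2, h1⟩, rfl⟩, by
      rintro ⟨⟨x, y⟩, ⟨h2, h1⟩, rfl⟩
      exact ⟨y, h1, h2⟩⟩
  let D : ℕ → Set ((ℕ → ℕ) × X) := fun n => {q | ∀ i, q.2 ∈ U i.unpair.1 → q.1 i ≤ n}
  have hD : ∀ n, IsClosed (D n) := fun n => by
    have : D n = ⋂ i, (Prod.snd ⁻¹' U i.unpair.1)ᶜ ∪ {q : (ℕ → ℕ) × X | q.1 i ≤ n} := by
      ext q
      simp only [D, mem_iInter, mem_ofPred_eq, mem_union, mem_compl_iff, mem_preimage,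
        imp_iff_not_or]
    rw [this]
    exact isClosed_iInter fun i => ((ho _).preimage continuous_snd).isClosed_compl.union
      (isClosed_le (by fun_prop) continuous_const)
  have k1 : ∀ x y, E x y → Cof (u y) (u x) := by
    intro x y h m
    obtain ⟨l, hl⟩ := (hEK x y).1 h
    refine ⟨max l m + 1, fun i hi => (hu y i _).2 (((hu x i m).1 hi).imp (fun h' => by omega)
      fun ⟨z, hz, h'⟩ => ⟨z, hz, hc _ x y z (hm (le_max_left _ _) hl) (hm (le_max_right _ _) h')⟩)⟩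
  have k2 : ∀ x e n y, Cof (u x) e → (e, y) ∈ D n → E x y := by
    intro x e n y h hy
    obtain ⟨m, hm'⟩ := h n
    refine (hEK x y).2 ⟨m, ?_⟩
    by_contra hn
    have hF : {z | (x, z) ∈ K m}ᶜ ∈ 𝓝 y :=
      ((hK m).isClosed.preimage (f := fun z => (x, z)) (by fun_prop)).isOpen_compl.mem_nhds hn
    obtain ⟨t, ht, htc, hts⟩ := exists_mem_nhds_isClosed_subset hF
    obtain ⟨V, hV, hyV, hVt⟩ := hb.mem_nhds_iff.1 ht
    obtain ⟨j, rfl⟩ : V ∈ range U := hU ▸ mem_insert_of_mem _ hV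
    have := (hu x _ m).1 (hm' (Nat.pair j (m + 1)) (hy _ (by simpa using hyV)))
    simp only [p, Nat.unpair_pair] at this
    rcases this with h' | ⟨z, hz, h'⟩
    · omega
    · exact hts (closure_minimal hVt htc hz) h'
  have k3 : ∀ x e, Cof e (u x) → ∃ n, x ∈ Prod.fst '' K n ∧ (e, x) ∈ D n := by
    intro x e h
    obtain ⟨l, hl⟩ := (hEK x x).1 (hE.refl x)
    obtain ⟨n, hn⟩ := h l
    exact ⟨max l n, ⟨(x, x), hm (le_max_left _ _) hl, rfl⟩, fun i hi =>
      (hn i ((hu x i l).2 (Or.inr ⟨x, subset_closure hi, hl⟩))).trans (le_max_right _ _)⟩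
  have hY : ∀ n, IsCompact (Prod.fst '' K n) := fun n => (hK n).image continuous_fst
  choose s sm hs using fun n => ks_sel (hY n) ⟨x0, (x0, x0), hm (Nat.zero_le n) h0, rfl⟩ (hD n)
  let q : ℕ → (ℕ → ℕ) → Prop := fun n e => (e, s n e) ∈ D n
  have qm : ∀ n, MeasurableSet {e | q n e} := fun n =>
    (measurable_id.prodMk (sm n)) (hD n).measurableSet
  have hq : ∀ e, ∃ n, q n e ∨ ∀ n, ¬ q n e := fun e => by
    by_cases h : ∃ n, q n e
    · exact h.imp fun n => Or.inl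
    · exact ⟨0, Or.inr (not_exists.1 h)⟩
  refine ⟨u, fun e => s (Nat.find (hq e)) e, um, Measurable.find
    (p := fun n e => q n e ∨ ∀ n, ¬ q n e) sm
    (fun n => (qm n).union (s₂ := {e | ∀ n, ¬ q n e}) ?_) hq,
    fun x y => ⟨fun h => ⟨k1 y x (hE.symm h), k1 x y h⟩, fun h => ?_⟩, fun x e h h' => ?_⟩
  · have := MeasurableSet.iInter fun n => (qm n).compl
    convert this using 1
    ext e
    simp
  · obtain ⟨n, -, hn⟩ := k3 y (u y) fun m => ⟨m, fun _ h => h⟩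
    exact k2 x _ n y h.1 hn
  · obtain ⟨n, h1, h2⟩ := k3 x e h
    exact hE.symm (k2 x e _ _ h' ((Nat.find_spec (hq e)).resolve_right
      fun h3 => h3 n (hs n e ⟨x, h1, h2⟩)))

end Pool.Agent.P.MP_52b1ec_lc.FG
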