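import Pool.Agent.P.MP_52b1ec_lc.Y.Glue
import Pool.Agent.P.MP_52b1ec_lc.Y.Ext
import Pool.Agent.P.MP_52b1ec_lc.Y.KSigma

namespace Pool.Agent.P.MP_52b1ec_lc.FG

open Topology Filter Set LaurentPolynomial

variable {e : ℕ → ℕ}

lemma Cof.refl (e : ℕ → ℕ) : Cof e e := fun m => ⟨m, fun _ h => h⟩

lemma Cof.trans {a b c : ℕ → ℕ} (h : Cof a b) (k : Cof b c) : Cof a c := fun m =>
  (k m).elim fun m' h1 => (h m').imp fun _ h2 i hi => h2 i (h1 i hi)

lemma measurableSet_cof {Ω : Type} [MeasurableSpace Ω] {a b : Ω → ℕ → ℕ} (ha : Measurable a)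
    (hb : Measurable b) : MeasurableSet {ω | Cof (a ω) (b ω)} := by
  simp only [Cof, measurableSet_setOfPred]
  refine .forall fun m => .exists fun m' => .forall fun i => .imp ?_ ?_
  · exact (measurable_from_top (f := fun k : ℕ => k ≤ m)).comp ((measurable_pi_apply i).comp hb)
  · exact (measurable_from_top (f := fun k : ℕ => k ≤ m')).comp ((measurable_pi_apply i).comp ha)

lemma pow_na (x : B) (k : ℕ) : (x ^ k).n = k • x.n ∧ (x.n = 0 → (x ^ k).a = k • x.a) := by
  induction k with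
  | zero => simp
  | succ k ih =>
    rw [pow_succ, mul_n, mul_a, ih.1, succ_nsmul, succ_nsmul]
    exact ⟨rfl, fun h => by rw [ih.2 h, h, T_zero, mul_one, add_comm]⟩

lemma tors_Gh {i : ℕ} {x : Gh e} (h : x ^ pz i = 1) : ∃ k : ℕ, x = zt e i ^ k := by
  have h0 : x.1 ^ pz i = 1 := congrArg Subtype.val h
  have hp := (pz_prime i).out.ne_zero
  obtain ⟨h1, h2⟩ := pow_na x.1 (pz i)
  rw [h0] at h1 h2
  have k1 : x.1.n = 0 := by simpa [hp] using h1.symm
  have k2 : x.1.a = 0 := (smul_eq_zero.1 (h2 k1).symm).resolve_left hp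
  have k3 : x.1 = ze x.1.c := B.ext k1 k2 ((show x.1.b = _ from x.2.1).trans (by simp [k2, ze])) rfl
  refine ⟨(x.1.c i).val, Subtype.ext (k3.trans (Eq.trans (congrArg ze (funext fun j => ?_))
    (ze_pow _ _).symm))⟩
  by_cases hj : j = i
  · subst hj; simp [ka_T]
  · simp [ka_T, tors (k3 ▸ h0) hj, Pi.single_eq_of_ne hj]

/-- the tower read off from a closed subgroup -/
noncomputable def sg (H : CS) (i : ℕ) : ℕ := sInf {j | ∃ g ∈ H, g ^ pz i = 1 ∧ ap g j ≠ j}

lemma sg_eq {H : CS} (Θ : (GS e).toSubgroup ≃* H.toSubgroup) (i : ℕ) :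
    sg H i = sInf {j | ap (Θ (toGS e (zt e i))) j ≠ j} := by
  refine congrArg sInf (Set.ext fun j => ⟨?_, fun h => ⟨_, (Θ _).2, ?_, h⟩⟩)
  · rintro ⟨g, hg, h1, h2⟩ h3
    obtain ⟨x, hx⟩ := ((toGS e).trans Θ).surjective ⟨g, hg⟩
    obtain ⟨k, rfl⟩ := tors_Gh (i := i) (x := x) (((toGS e).trans Θ).injective
      (by rw [map_pow, hx, map_one]; exact Subtype.ext h1))
    rw [map_pow] at hx
    obtain rfl : (Θ (toGS e (zt e i))).1 ^ k = g := congrArg Subtype.val hx
    refine h2 ?_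
    clear h1 h2 hx hg
    induction k with
    | zero => rfl
    | succ k ih => rw [pow_succ, ap_mul, h3, ih]
  · rw [← Subgroup.coe_pow, ← map_pow, ← map_pow, zt_pow, map_one, map_one, Subgroup.coe_one]

lemma sg_cof {H : CS} (Θ : (GS e).toSubgroup ≃ₜ* H.toSubgroup) : Cof e (sg H) ∧ Cof (sg H) e := by
  constructor
  · intro m
    obtain ⟨m', hm⟩ := (cont_from Θ.toMulEquiv.toMonoidHom).1 (map_continuous Θ) (m + 1)
    refine ⟨m', fun i hi => not_lt.1 fun k => ?_⟩
    rw [sg_eq Θ.toMulEquiv] at hi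
    refine Nat.sInf_mem (s := {j | ap (Θ.toMulEquiv (toGS e (zt e i))) j ≠ j}) ?_
      (hm _ (zt_mem.2 k) _ (Nat.lt_succ_of_le hi))
    by_contra hn
    have : Θ.toMulEquiv (toGS e (zt e i)) = 1 := Subtype.ext (ap_injective (funext fun j =>
      not_not.1 fun k => hn ⟨j, k⟩))
    rw [map_eq_one_iff _ Θ.toMulEquiv.injective, map_eq_one_iff _ (toGS e).injective] at this
    exact lt_irrefl _ (zt_mem.1 (this ▸ (V e (e i)).one_mem))
  · intro m
    obtain ⟨n, hn⟩ := (cont_to Θ.symm.toMulEquiv.toMonoidHom).1 (map_continuous Θ.symm) m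
    refine ⟨n, fun i hi => not_lt.1 fun k => ?_⟩
    rw [sg_eq Θ.toMulEquiv] at k
    have := hn _ fun j hj => not_not.1 (Nat.notMem_of_lt_sInf (hj.trans k))
    rw [show Θ.symm.toMulEquiv.toMonoidHom (Θ.toMulEquiv (toGS e (zt e i))) = toGS e (zt e i) from
      Θ.symm_apply_apply _, MulEquiv.symm_apply_apply] at this
    exact (zt_mem.1 this).not_ge hi

lemma iso_sg {H : CS} (h : TopIso (GS e) H) : TopIso (GS (sg H)) H :=
  h.elim fun Θ => topIso_equivalence.trans (topIso_iff.2 (sg_cof Θ).symm) h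

/-- the sum of the coefficients -/
noncomputable def ev1 : R →+* ℤ := eval₂ (RingHom.id ℤ) 1

variable (e) in
/-- the generators in the completion -/
noncomputable def gg (j : Fin 2) : Gh e := emb e _ (gn_fin j)

lemma exists_aut (v : Fin 2 → Gh e) (hv : ∀ j, v j ∈ V e 0) :
    ∃ A : (GS e).toSubgroup ≃ₜ* (GS e).toSubgroup,
      ∀ j, A (toGS e (gg e j)) = toGS e (gg e j * v j) := by
  choose c hc using fun j => (hv j).imp fun _ h => h.1
  let ψ : B → Z := fun g => g.n • c 0 + ev1 g.a • c 1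
  have h1 : ∀ x y, ψ (x * y) = ψ x + ψ y := fun x y => by
    simp only [ψ, mul_n, mul_a, map_add, map_mul, add_smul, ev1, eval₂_T, one_zpow,
      Units.val_one, mul_one]
    abel
  have h2 : ∀ (s : ℤ) x, ze (s • ψ x) ∈ Gh e := fun s x => ⟨ze_mem _, fun m =>
    (((v 0).2.2 m).union ((v 1).2.2 m)).subset fun i hi => by
      by_contra k
      simp only [mem_union, mem_ofPred_eq, hi.1, true_and, not_or, not_not, hc, ze] at k
      exact hi.2 (by simp [ze, ψ, k])⟩
  let α : ℤ → Gh e → Gh e := fun s g => g * ⟨_, h2 s g.1⟩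
  have h3 : ∀ s g, (α s g).1 = ⟨g.1.n, g.1.a, g.1.b, s • ψ g.1 + g.1.c⟩ := fun s g => mul_ze _ _
  have h4 : ∀ s g, α (-s) (α s g) = g := fun s g => Subtype.ext (by
    rw [h3, h3]
    exact B.ext rfl rfl rfl (by rw [neg_smul]; exact neg_add_cancel_left _ _))
  let θ : Gh e ≃* Gh e :=
    { toFun := α 1, invFun := α (-1), left_inv := h4 1, right_inv := h4 (-1)
      map_mul' := fun x y => Subtype.ext (by
        rw [h3, Subgroup.coe_mul (Gh e) (α 1 x), h3, h3, Subgroup.coe_mul, h1]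
        refine B.ext rfl rfl rfl ?_
        simp only [mul_c, one_smul]
        abel) }
  have h5 : ∀ s m, ∃ m', ∀ g ∈ V e m', α s g ∈ V e m := fun s m => ⟨m, fun g ⟨d, d1, d2⟩ =>
    ⟨d, by simp [h3, d1, ψ, ze], d2⟩⟩
  let Θ := (toGS e).symm.trans (θ.trans (toGS e))
  refine ⟨⟨Θ, (cont_iff Θ.toMonoidHom).2 (by simpa [Θ, θ] using h5 1),
    (cont_iff Θ.symm.toMonoidHom).2 (by simpa [Θ, θ] using h5 (-1))⟩, fun j => ?_⟩
  show toGS e (α 1 ((toGS e).symm (toGS e (gg e j)))) = _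
  rw [MulEquiv.symm_apply_apply]
  refine congrArg _ (Subtype.ext ?_)
  rw [h3, Subgroup.coe_mul, hc, mul_ze]
  fin_cases j <;> simp [ψ, gg, emb, gn]

variable (e) in
/-- words in the generators -/
noncomputable def pw : FreeGroup (Fin 2) →* Gh e := FreeGroup.lift (gg e)

lemma pw_val (w : FreeGroup (Fin 2)) : (pw e w).1 = FreeGroup.lift gn w :=
  FreeGroup.lift_unique ((Gh e).subtype.comp (pw e)) fun j => by simp [pw, gg, emb]

lemma lift_fin (w : FreeGroup (Fin 2)) :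
    FreeGroup.lift gn w ∈ Sy ∧ {i | (FreeGroup.lift gn w).c i ≠ 0}.Finite := by
  rw [← pw_val (e := 0)]
  exact ⟨(pw 0 w).2.1, by simpa using (pw 0 w).2.2 0⟩

lemma pw_eq (w : FreeGroup (Fin 2)) : pw e w = emb e _ (lift_fin w) := Subtype.ext (pw_val w)

lemma exists_word {f : Gh e} (hf : {i | f.1.c i ≠ 0}.Finite) : ∃ w, pw e w = f :=
  gen_Gh (MonoidHom.id _) (L := (pw e).range) (fun j => ⟨.of j, by simp [pw, gg]⟩) hf

/-- words for the central generators -/
noncomputable def zw (i : ℕ) : FreeGroup (Fin 2) := (exists_word (f := zt 0 i) (ka_fin _)).choose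

lemma pw_zw (i : ℕ) : pw e (zw i) = zt e i := Subtype.ext ((pw_val _).trans
  ((pw_val (e := 0) _).symm.trans
    (congrArg Subtype.val (exists_word (f := zt 0 i) (ka_fin _)).choose_spec)))

lemma GS_closure : (GS e : Set SInf) = closure (range ((rho e).comp (pw e))) := by
  refine Subset.antisymm ?_ (closure_minimal ?_ (GS e).isClosed')
  · rintro _ ⟨g, -, rfl⟩
    refine SInf_mem_closure.2 fun n => ?_
    obtain ⟨m, hm⟩ := (isRep (e := e)).h2 n
    obtain ⟨f, f1, f2⟩ := exists_Fs g m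
    obtain ⟨w, rfl⟩ := exists_word f1
    exact ⟨_, ⟨w, rfl⟩, fun i hi => ((NC.agree_iff _ g n).1 (hm _ f2) i hi).symm⟩
  · rintro _ ⟨w, rfl⟩
    exact ⟨_, trivial, rfl⟩

/-- the tower read off from a pair -/
noncomputable def eh (h : Fin 2 → SInf) (i : ℕ) : ℕ :=
  sInf {j | ap (FreeGroup.lift h (zw i)) j ≠ j}

/-- the pair generates a copy of the group of its tower, dense in the group of the sequence -/
def Good (y : ℕ → SInf) (h : Fin 2 → SInf) : Prop :=
  (∀ n, ∃ m, ∀ w, (∀ i < m, ap (rho (eh h) (pw (eh h) w)) i = i) →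
    ∀ i < n, ap (FreeGroup.lift h w) i = i) ∧
  (∀ n, ∃ m, ∀ w, (∀ i < m, ap (FreeGroup.lift h w) i = i) →
    ∀ i < n, ap (rho (eh h) (pw (eh h) w)) i = i) ∧
  ∀ j n, ∃ w, ∀ i < n, ap (FreeGroup.lift h w) i = ap (y j) i

lemma lift_mem {ι : Type} {L : Subgroup SInf} {h : ι → SInf} (k : ∀ j, h j ∈ L)
    (w : FreeGroup ι) : FreeGroup.lift h w ∈ L :=
  FreeGroup.range_lift_le (by rintro _ ⟨j, rfl⟩; exact k j) ⟨w, rfl⟩

lemma y_mem (y : ℕ → SInf) (j : ℕ) : y j ∈ (lus_pi y).toSubgroup :=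
  (lus_mem _ _).2 (subset_closure (Subgroup.subset_closure ⟨j, rfl⟩))

lemma Good.iso {y : ℕ → SInf} {u : Fin 2 → FreeGroup ℕ}
    (h : Good y fun j => FreeGroup.lift y (u j)) : TopIso (GS (sg (lus_pi y))) (lus_pi y) ∧
      sg (lus_pi y) = eh fun j => FreeGroup.lift y (u j) := by
  obtain ⟨Θ, hΘ⟩ := ext_iso ((rho _).comp (pw _)) _ h.1 h.2.1 (H := lus_pi y) GS_closure (by
    refine Subset.antisymm ?_ (closure_minimal ?_ (lus_pi y).isClosed')
    · refine closure_minimal ((Subgroup.closure_le (FreeGroup.lift fun j =>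
        FreeGroup.lift y (u j)).range.topologicalClosure).2 ?_) isClosed_closure
      rintro _ ⟨j, rfl⟩
      exact SInf_mem_closure.2 fun n => (h.2.2 j n).elim fun w hw => ⟨_, ⟨w, rfl⟩, hw⟩
    · rintro _ ⟨w, rfl⟩
      exact lift_mem (fun j => lift_mem (y_mem y) _) w)
  refine ⟨iso_sg ⟨Θ⟩, funext fun i => ?_⟩
  rw [sg_eq Θ.toMulEquiv, eh, ← hΘ (zw i) (toGS _ (zt _ i)) (by rw [toGS_val, ← pw_zw]; rfl)]
  rfl

lemma exists_good {y : ℕ → SInf} (h : TopIso (GS (sg (lus_pi y))) (lus_pi y)) :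
    ∃ u : Fin 2 → FreeGroup ℕ, Good y fun j => FreeGroup.lift y (u j) := by
  obtain ⟨Θ⟩ := h
  generalize he : sg (lus_pi y) = e at Θ
  obtain ⟨n, hn⟩ := (cont_to Θ.symm.toMulEquiv.toMonoidHom).1 (map_continuous Θ.symm) 0
  have h1 : ∀ j, ∃ u : FreeGroup ℕ, ∀ i < n,
      ap (FreeGroup.lift y u) i = ap (Θ (toGS e (gg e j))) i := fun j => by
    obtain ⟨g, hg, k⟩ := SInf_mem_closure.1 ((lus_mem _ _).1 (Θ (toGS e (gg e j))).2) n
    rw [← FreeGroup.range_lift_eq_closure] at hg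
    obtain ⟨u, rfl⟩ := hg
    exact ⟨u, k⟩
  choose u hu using h1
  let g : Fin 2 → (lus_pi y).toSubgroup := fun j => ⟨_, lift_mem (y_mem y) (u j)⟩
  obtain ⟨A, hA⟩ := exists_aut _ fun j => hn ((Θ (toGS e (gg e j)))⁻¹ * g j) fun i hi => by
    rw [Subgroup.coe_mul, Subgroup.coe_inv, ap_mul, hu j i hi, ap_inv_ap]
  let Θ' := A.trans Θ
  have h2 : ∀ w, FreeGroup.lift (fun j => FreeGroup.lift y (u j)) w = Θ' (toGS e (pw e w)) :=
    fun w => (FreeGroup.lift_unique ((lus_pi y).toSubgroup.subtype.comp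
      (Θ'.toMulEquiv.toMonoidHom.comp ((toGS e).toMonoidHom.comp (pw e)))) fun j => by
        show (Θ (A (toGS e (pw e (.of j))))).1 = _
        rw [pw, FreeGroup.lift_apply_of, hA, map_mul, map_mul, MulEquiv.apply_symm_apply]
        rw [show ∀ x, Θ (Θ.symm.toMulEquiv.toMonoidHom x) = x from Θ.apply_symm_apply,
          mul_inv_cancel_left]).symm
  have h3 : eh (fun j => FreeGroup.lift y (u j)) = e := funext fun i => by
    rw [← he, sg_eq Θ'.toMulEquiv, eh, h2, pw_zw]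
    rfl
  refine ⟨u, ?_⟩
  rw [Good, h3]
  simp only [h2]
  refine ⟨fun n => ((hom_continuous_iff Θ'.toMulEquiv.toMonoidHom).1 (map_continuous Θ') n).imp
    fun m hm w => hm (toGS e (pw e w)), fun n => ((hom_continuous_iff
      Θ'.symm.toMulEquiv.toMonoidHom).1 (map_continuous Θ'.symm) n).imp fun m hm w k => ?_,
    fun j n => ?_⟩
  · have := hm _ k
    rwa [show ∀ x, Θ'.symm.toMulEquiv.toMonoidHom (Θ' x) = x from Θ'.symm_apply_apply] at this
  · obtain ⟨m, hm⟩ := (cont_from Θ'.toMulEquiv.toMonoidHom).1 (map_continuous Θ') n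
    obtain ⟨x, hx⟩ := ((toGS e).trans Θ'.toMulEquiv).surjective ⟨y j, y_mem y j⟩
    obtain ⟨f, f1, f2⟩ := exists_Fs x m
    obtain ⟨w, rfl⟩ := exists_word f1
    have := (NC.agree_iff (ρ := (lus_pi y).toSubgroup.subtype.comp
      ((toGS e).trans Θ'.toMulEquiv).toMonoidHom) _ x n).1 (hm _ f2)
    exact ⟨w, fun i hi => (this i hi).symm.trans (congrArg (fun g => ap g.1 i) hx)⟩

section
variable [MeasurableSpace SInf] [BorelSpace SInf]

lemma meas_lift {Ω ι : Type} [MeasurableSpace Ω] {h : Ω → ι → SInf} (hh : ∀ j, Measurable (h · j))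
    (w : FreeGroup ι) : Measurable fun ω => FreeGroup.lift (h ω) w := by
  induction w using FreeGroup.induction_on with
  | C1 => simp
  | of j => simpa using hh j
  | inv_of j ih => simpa only [map_inv] using ih.fun_inv
  | mul a b ha hb => simpa only [map_mul] using ha.fun_mul hb

omit [MeasurableSpace SInf] [BorelSpace SInf] in
lemma meas_eq {Ω : Type} [MeasurableSpace Ω] {a b : Ω → ℕ} (ha : Measurable a)
    (hb : Measurable b) : Measurable fun ω => a ω = b ω :=
  measurableSet_setOfPred.1 (measurableSet_eq_fun ha hb)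

lemma meas_eh {Ω : Type} [MeasurableSpace Ω] {h : Ω → Fin 2 → SInf}
    (hh : ∀ j, Measurable (h · j)) : Measurable fun ω => eh (h ω) := by
  refine measurable_pi_lambda _ fun i => measurable_to_countable' fun k => ?_
  have k1 : ∀ j, Measurable fun ω => ap (FreeGroup.lift (h ω) (zw i)) j = j := fun j =>
    meas_eq ((continuous_ap_at j).measurable.comp (meas_lift hh _)) measurable_const
  have : (fun ω => eh (h ω) i) ⁻¹' {k} = {ω | (k = 0 ∧ ∀ j, ap (FreeGroup.lift (h ω) (zw i)) j = j) ∨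
      (¬ ap (FreeGroup.lift (h ω) (zw i)) k = k ∧
        ∀ j, j < k → ap (FreeGroup.lift (h ω) (zw i)) j = j)} := by
    ext ω
    simp only [mem_preimage, mem_singleton_iff, mem_ofPred_eq, eh]
    generalize ap (FreeGroup.lift (h ω) (zw i)) = f
    constructor
    · rintro rfl
      rcases {j | f j ≠ j}.eq_empty_or_nonempty with c | c
      · exact Or.inl ⟨by simp [c], fun j => not_not.1 fun d => (c ▸ d : j ∈ (∅ : Set ℕ))⟩
      · exact Or.inr ⟨Nat.sInf_mem c, fun j hj => not_not.1 (Nat.notMem_of_lt_sInf hj)⟩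
    · rintro (⟨rfl, c⟩ | ⟨c, d⟩)
      · simp [c]
      · exact le_antisymm (Nat.sInf_le c) (not_lt.1 fun j => Nat.sInf_mem (s := {j | f j ≠ j})
          ⟨k, c⟩ (d _ j))
  rw [this, measurableSet_setOfPred]
  exact (measurable_const.and (.forall k1)).or
    ((k1 k).not.and (.forall fun j => measurable_const.imp (k1 j)))

lemma meas_good {h : (ℕ → SInf) → Fin 2 → SInf} (hh : ∀ j, Measurable (h · j)) :
    Measurable fun y => Good y (h y) := by
  have k1 : ∀ w i, Measurable fun y => ap (FreeGroup.lift (h y) w) i := fun w i =>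
    (continuous_ap_at i).measurable.comp (meas_lift hh w)
  have k2 : ∀ w i, Measurable fun y => ap (rho (eh (h y)) (pw (eh (h y)) w)) i := fun w i => by
    simp only [pw_eq]
    exact (measurable_rho _ (lift_fin w) i).comp (meas_eh hh)
  have k3 : ∀ {a : (ℕ → SInf) → ℕ → ℕ}, (∀ i, Measurable (a · i)) → ∀ m,
      Measurable fun y => ∀ i < m, a y i = i := fun ha m =>
    .forall fun i => measurable_const.imp (meas_eq (ha i) measurable_const)
  exact (Measurable.forall fun n => .exists fun m => .forall fun w =>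
      (k3 (k2 w) m).imp (k3 (k1 w) n)).and
    ((Measurable.forall fun n => .exists fun m => .forall fun w =>
      (k3 (k1 w) m).imp (k3 (k2 w) n)).and (.forall fun j => .forall fun n => .exists fun w =>
        .forall fun i => measurable_const.imp (meas_eq (k1 w i)
          ((continuous_ap_at i).measurable.comp (measurable_pi_apply j)))))

end

theorem meas_class {A : Set (ℕ → ℕ)} (hA : MeasurableSet A) :
    MeasurableSet {H : CS | TopIso (GS (sg H)) H ∧ sg H ∈ A} := by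
  borelize SInf
  refine meas_of_pi ?_
  have : lus_pi ⁻¹' {H : CS | TopIso (GS (sg H)) H ∧ sg H ∈ A} = {y | ∃ u : Fin 2 → FreeGroup ℕ,
      (Good y fun j => FreeGroup.lift y (u j)) ∧ (eh fun j => FreeGroup.lift y (u j)) ∈ A} := by
    ext y
    exact ⟨fun ⟨h1, h2⟩ => (exists_good h1).imp fun u hu => ⟨hu, hu.iso.2 ▸ h2⟩,
      fun ⟨u, h1, h2⟩ => ⟨h1.iso.1, h1.iso.2 ▸ h2⟩⟩
  rw [this, measurableSet_setOfPred]
  exact .exists fun u => (meas_good fun j => meas_lift measurable_pi_apply _).and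
    (measurableSet_setOfPred.1 (meas_eh (fun j => meas_lift measurable_pi_apply _) hA))

theorem realize {X : Type} [MeasurableSpace X] {E : X → X → Prop} (hE : Equivalence E)
    {u : X → ℕ → ℕ} {v : (ℕ → ℕ) → X} (hu : Measurable u) (hv : Measurable v)
    (h1 : ∀ x y, E x y ↔ Cof (u x) (u y) ∧ Cof (u y) (u x))
    (h2 : ∀ x e, Cof e (u x) → Cof (u x) e → E (v e) x) {D : Set X} (hD : MeasurableSet D)
    (hi : ∀ x y, E x y → x ∈ D → y ∈ D) :
    ∃ C ⊆ ProGen 2, MeasurableSet C ∧ Invariant C ∧ BorelRed (fun x y : D => E x y) (IsoOn C) ∧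
      BorelRed (IsoOn C) (fun x y : D => E x y) := by
  have t := topIso_equivalence
  have k1 : ∀ {x H}, TopIso (GS (u x)) H → E (v (sg H)) x := fun ⟨Θ⟩ =>
    h2 _ _ (sg_cof Θ).2 (sg_cof Θ).1
  have k2 : ∀ {A}, MeasurableSet A →
      MeasurableSet {H | (∃ x ∈ D, TopIso (GS (u x)) H) ∧ v (sg H) ∈ A} := fun {A} hA => by
    convert meas_class (((measurableSet_cof measurable_id (hu.comp hv)).inter
      (measurableSet_cof (hu.comp hv) measurable_id)).inter (hv (hD.inter hA))) using 1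
    refine Set.ext fun H => ⟨fun ⟨⟨x, hx, h⟩, a⟩ => ?_, fun ⟨h, ⟨c1, c2⟩, d, a⟩ =>
      ⟨⟨_, d, t.trans (topIso_iff.2 ⟨c2, c1⟩) h⟩, a⟩⟩
    obtain ⟨c1, c2⟩ := (h1 _ _).1 (k1 h)
    exact h.elim fun Θ => ⟨iso_sg h, ⟨(sg_cof Θ).2.trans c2, c1.trans (sg_cof Θ).1⟩,
      hi _ _ (hE.symm (k1 h)) hx, a⟩
  refine ⟨{H | ∃ x ∈ D, TopIso (GS (u x)) H}, fun H ⟨x, _, h⟩ =>
    invariant_proGen 2 _ (GS_proGen le_rfl _) _ h, by simpa using k2 MeasurableSet.univ,
    fun G ⟨x, hx, h⟩ H h' => ⟨x, hx, t.trans h h'⟩, ⟨fun x => ⟨GS (u x), x, x.2, t.refl _⟩,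
      (measurable_GS.comp (hu.comp measurable_subtype_coe)).subtype_mk,
      fun x y => (h1 x y).trans topIso_iff.symm⟩,
    fun H => ⟨v (sg H), H.2.elim fun x h => hi _ _ (hE.symm (k1 h.2)) h.1⟩,
    Measurable.subtype_mk fun A hA => ?_, ?_⟩
  · convert measurable_subtype_coe (k2 hA) using 1
    exact Set.ext fun H => (and_iff_right H.2).symm
  · rintro ⟨G, x, -, h⟩ ⟨H, y, -, h'⟩
    refine Iff.trans (b := E x y) ?_ ⟨fun c => hE.trans (k1 h) (hE.trans c (hE.symm (k1 h'))),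
      fun c => hE.trans (hE.symm (k1 h)) (hE.trans c (k1 h'))⟩
    rw [h1, ← topIso_iff]
    exact ⟨fun c => t.trans h (t.trans c (t.symm h')), fun c => t.trans (t.symm h) (t.trans c h')⟩

theorem realize_ksigma (X : Type) [TopologicalSpace X] [PolishSpace X] [MeasurableSpace X]
    [BorelSpace X] (E : X → X → Prop) (hE : Equivalence E)
    (hs : IsSigmaCompact {p : X × X | E p.1 p.2}) (D : Set X) (hD : MeasurableSet D)
    (hi : ∀ x y, E x y → x ∈ D → y ∈ D) :
    ∃ C ⊆ ProGen 2, MeasurableSet C ∧ Invariant C ∧ BorelRed (fun x y : D => E x y) (IsoOn C) ∧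
      BorelRed (IsoOn C) (fun x y : D => E x y) := by
  rcases isEmpty_or_nonempty X with h | h
  · exact ⟨∅, empty_subset _, .empty, fun _ h => h.elim,
      ⟨isEmptyElim, measurable_of_empty _, isEmptyElim⟩,
      isEmptyElim, measurable_of_empty _, isEmptyElim⟩
  · obtain ⟨u, v, hu, hv, h1, h2⟩ := ksigma X E hE hs
    exact realize hE hu hv h1 h2 hD hi

end Pool.Agent.P.MP_52b1ec_lc.FG
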