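import Pool.Agent.P.MP_52b1ec_lc.Y.ODefs

/-! A Borel choice of a marking of the central quotient. -/

namespace Pool.Agent.P.MP_52b1ec_lc.OR

open Topology Filter Set

theorem mark_sel {Y : Type} [MeasurableSpace Y] [StandardBorelSpace Y] (C : Y → Set (ℕ → ℕ))
    (hc : ∀ y, IsClosed (C y)) (hG : MeasurableSet {z : Y × (ℕ → ℕ) | z.2 ∈ C z.1})
    (B : ℕ → ℕ → Set (ℕ → ℕ)) (hB : ∀ n k, MeasurableSet (B n k))
    (hCB : ∀ y p, p ∈ C y → ∀ n k, p ∈ B n k ↔ ∃ q ∈ C y, (∀ i < n, q i = p i) ∧ q n = k) :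
    ∃ s : Y → ℕ → ℕ, (∀ S : Set (ℕ → ℕ), MeasurableSet S →
      MeasurableSet {y | (C y).Nonempty ∧ s y ∈ S}) ∧ ∀ y, (C y).Nonempty → s y ∈ C y := by
  choose! s h1 h2 using fun y => exists_lexLeast (hc y)
  refine ⟨s, fun S hS => ?_, h1⟩
  obtain ⟨T, hT⟩ : ∃ T : Set (Y × (ℕ → ℕ)), T = {z | z.2 ∈ C z.1} ∩
      ⋂ n, ⋂ k, (Prod.snd ⁻¹' B n k)ᶜ ∪ {z | z.2 n ≤ k} := ⟨_, rfl⟩
  have mT : MeasurableSet T := hT ▸ hG.inter (MeasurableSet.iInter fun n =>
    MeasurableSet.iInter fun k => (measurable_snd (hB n k)).compl.union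
      (measurableSet_le ((measurable_pi_apply n).comp measurable_snd) measurable_const))
  have key : ∀ y p, (y, p) ∈ T ↔ (C y).Nonempty ∧ s y = p := fun y p => by
    simp only [hT, mem_inter_iff, mem_iInter, mem_union, mem_compl_iff, mem_preimage,
      mem_ofPred_eq, ← imp_iff_not_or]
    constructor
    · rintro ⟨a, b⟩
      refine ⟨⟨p, a⟩, funext fun n => ?_⟩
      induction n using Nat.strong_induction_on with
      | _ n ih =>
        exact le_antisymm (h2 y ⟨p, a⟩ p a n fun i hi => (ih i hi).symm)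
          (b n _ ((hCB y p a n _).2 ⟨s y, h1 y ⟨p, a⟩, ih, rfl⟩))
    · rintro ⟨a, rfl⟩
      refine ⟨h1 y a, fun n k hk => ?_⟩
      obtain ⟨q, q1, q2, rfl⟩ := (hCB y _ (h1 y a) n k).1 hk
      exact h2 y a q q1 n q2
  have him := (mT.inter (measurable_snd hS)).image_of_measurable_injOn measurable_fst (by
    rintro ⟨y, p⟩ ⟨a, -⟩ ⟨y', p'⟩ ⟨a', -⟩ (rfl : y = y')
    rw [← ((key _ _).1 a).2, ← ((key _ _).1 a').2])
  convert him using 1
  ext y
  constructor
  · rintro ⟨a, b⟩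
    exact ⟨(y, s y), ⟨(key _ _).2 ⟨a, rfl⟩, b⟩, rfl⟩
  · rintro ⟨⟨y, p⟩, ⟨a, b⟩, rfl⟩
    obtain ⟨c, rfl⟩ := (key _ _).1 a
    exact ⟨c, b⟩

theorem mark_lc (j : ℕ) : IsLocallyConstant fun p : ℕ → ℕ => p j :=
  (IsLocallyConstant.iff_continuous _).2 (continuous_apply j)

theorem mark_ev {a : (ℕ → ℕ) → ℕ} (ha : IsLocallyConstant a) :
    IsLocallyConstant fun p : ℕ → ℕ => p (a p) :=
  (IsLocallyConstant.iff_eventually_eq _).2 fun p => by
    filter_upwards [ha.eventually_eq p, (mark_lc (a p)).eventually_eq p] with q h1 h2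
    rw [h1, h2]

theorem mark_clopen {Z : Type} {f g : (ℕ → ℕ) → Z} (hf : IsLocallyConstant f)
    (hg : IsLocallyConstant g) : IsClopen {p | f p = g p} := by
  simpa using (hf.comp₂ hg fun a b => a = b).isClopen_fiber True

theorem mark_aut {W : Type} [Group W] {y : ℕ → SInf} {φ ψ : FreeGroup ℕ →* W} (h1 : Mk y φ)
    (h2 : Mk y ψ) : ∃ β : W ≃* W, ∀ w, ψ w = β (φ w) := by
  have e : φ.ker = ψ.ker := Subgroup.ext fun w => (h1.2 w).trans (h2.2 w).symm
  refine ⟨(QuotientGroup.quotientKerEquivOfSurjective φ h1.1).symm.trans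
    ((QuotientGroup.quotientMulEquivOfEq e).trans
      (QuotientGroup.quotientKerEquivOfSurjective ψ h2.1)), fun w => ?_⟩
  have : (QuotientGroup.quotientKerEquivOfSurjective φ h1.1).symm (φ w) = QuotientGroup.mk w :=
    (MulEquiv.symm_apply_eq _).2 rfl
  rw [MulEquiv.trans_apply, this]
  rfl

theorem exists_mark [MeasurableSpace SInf] [BorelSpace SInf] (W : Type) [Group W] [Countable W] :
    ∃ m : (ℕ → SInf) → FreeGroup ℕ → W, (∀ w g, MeasurableSet {y | m y w = g}) ∧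
      ∀ y (φ : FreeGroup ℕ →* W), Mk y φ → ∃ ψ : FreeGroup ℕ →* W, Mk y ψ ∧ ⇑ψ = m y := by
  classical
  obtain ⟨ι, hι⟩ := exists_injective_nat (FreeGroup ℕ ⊕ W)
  obtain ⟨dF, hF⟩ := exists_surjective_nat (FreeGroup ℕ)
  obtain ⟨dW, hW⟩ := exists_surjective_nat W
  choose sF hF using hF
  choose sW hW using hW
  obtain ⟨φ, hφ⟩ : ∃ φ : (ℕ → ℕ) → FreeGroup ℕ → W, ∀ p w, φ p w = dW (p (ι (.inl w))) :=
    ⟨_, fun _ _ => rfl⟩
  obtain ⟨r, hr⟩ : ∃ r : (ℕ → ℕ) → W → FreeGroup ℕ, ∀ p g, r p g = dF (p (ι (.inr g))) :=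
    ⟨_, fun _ _ => rfl⟩
  have l1 : ∀ w, IsLocallyConstant fun p => φ p w := fun w => by
    simp only [hφ]
    exact (mark_lc _).comp dW
  have l2 : ∀ a : (ℕ → ℕ) → ℕ, IsLocallyConstant a → IsLocallyConstant fun p => φ p (dF (a p)) :=
    fun a ha => by
      simp only [hφ]
      exact (mark_ev (ha.comp fun j => ι (.inl (dF j)))).comp dW
  obtain ⟨C0, hC0⟩ : ∃ C0 : Set (ℕ → ℕ), C0 =
      {p | (∀ u v, φ p (u * v) = φ p u * φ p v) ∧ ∀ g, φ p (r p g) = g} := ⟨_, rfl⟩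
  have c0 : IsClosed C0 := by
    simp only [hC0, ofPred_and, ofPred_forall, hr]
    exact (isClosed_iInter fun u => isClosed_iInter fun v =>
      (mark_clopen (l1 _) ((l1 u).comp₂ (l1 v) (· * ·))).1).inter
        (isClosed_iInter fun g => ((l2 _ (mark_lc _)).isClopen_fiber g).1)
  obtain ⟨C, hC⟩ : ∃ C : (ℕ → SInf) → Set (ℕ → ℕ), ∀ y, C y =
      C0 ∩ ⋂ w, {p | φ p w = 1 ↔ ∀ j, Commute (FreeGroup.lift y w) (y j)} := ⟨_, fun _ => rfl⟩
  have mem : ∀ y p, p ∈ C y ↔ (∃ ψ : FreeGroup ℕ →* W, Mk y ψ ∧ ⇑ψ = φ p) ∧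
      ∀ g, φ p (r p g) = g := fun y p => by
    rw [hC, hC0, mem_inter_iff, mem_iInter]
    constructor
    · rintro ⟨⟨a, b⟩, c⟩
      exact ⟨⟨MonoidHom.mk' (φ p) a, ⟨fun g => ⟨_, b g⟩, c⟩, rfl⟩, b⟩
    · rintro ⟨⟨ψ, a, b⟩, c⟩
      exact ⟨⟨fun u v => b ▸ ψ.map_mul u v, c⟩, fun w => by
        rw [mem_ofPred_eq, ← b]
        exact a.2 w⟩
  have lu : ∀ n k j : ℕ, IsLocallyConstant fun p : ℕ → ℕ => Function.update p n k j :=
    fun n k j => (IsLocallyConstant.iff_continuous _).2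
      ((continuous_apply j).comp (continuous_id.update n continuous_const))
  refine (mark_sel C (fun y => ?_) ?_ (fun n k => ⋃ β : W ≃* W,
      (⋂ w ∈ {w | ι (.inl w) ≤ n}, {p | dW (Function.update p n k (ι (.inl w))) = β (φ p w)}) ∩
        ⋂ g ∈ {g | ι (.inr g) ≤ n}, {p | β (φ p (dF (Function.update p n k (ι (.inr g))))) = g})
    (fun n k => IsOpen.measurableSet (isOpen_iUnion fun β => IsOpen.inter ?_ ?_))
    fun y p hp n k => ?_).elim fun s ⟨s1, s2⟩ => ?_
  rotate_right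
  · refine ⟨fun y w => if (C y).Nonempty then φ (s y) w else 1, fun w g => ?_, fun y ψ hψ => ?_⟩
    · have a := s1 _ ((l1 w).isOpen_fiber g).measurableSet
      have b := (s1 _ MeasurableSet.univ).compl.inter (MeasurableSet.const ((1 : W) = g))
      convert a.union b using 1
      ext y
      by_cases h : (C y).Nonempty <;> simp [h]
    · obtain ⟨ρ, hρ⟩ := hψ.1.hasRightInverse
      have e1 : φ (Function.extend ι (Sum.elim (fun w => sW (ψ w)) fun g => sF (ρ g)) 0) = ψ :=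
        funext fun w => by rw [hφ, hι.extend_apply, Sum.elim_inl, hW]
      have hn : (C y).Nonempty := ⟨_, (mem y _).2 ⟨⟨ψ, hψ, e1.symm⟩, fun g => by
        rw [e1, hr, hι.extend_apply, Sum.elim_inr, hF, hρ]⟩⟩
      simp only [if_pos hn]
      exact ((mem y _).1 (s2 y hn)).1
  · rw [hC]
    refine c0.inter (isClosed_iInter fun w => ?_)
    simpa using (mark_clopen ((l1 w).comp fun g => g = 1)
      (IsLocallyConstant.const (∀ j, Commute (FreeGroup.lift y w) (y j)))).1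
  · simp only [hC, mem_inter_iff, mem_iInter, ofPred_and, ofPred_forall, mem_ofPred_eq]
    refine (measurable_snd c0.measurableSet).inter (MeasurableSet.iInter fun w =>
      MeasurableSet.iff (measurable_snd ((l1 w).isOpen_fiber 1).measurableSet)
        (measurable_fst (t := {y | ∀ j, Commute (FreeGroup.lift y w) (y j)})
          (IsClosed.measurableSet ?_)))
    rw [ofPred_forall]
    exact isClosed_iInter fun j => isClosed_eq ((NC.continuous_lift w).mul (continuous_apply j))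
      ((continuous_apply j).mul (NC.continuous_lift w))
  · exact ((finite_Iic n).preimage (hι.comp Sum.inl_injective).injOn).isOpen_biInter fun w _ =>
      (mark_clopen ((lu n k _).comp dW) ((l1 w).comp β)).2
  · exact ((finite_Iic n).preimage (hι.comp Sum.inr_injective).injOn).isOpen_biInter fun g _ =>
      ((l2 _ (lu n k _)).comp β).isOpen_fiber g
  · obtain ⟨⟨ψ, a1, a2⟩, a3⟩ := (mem y p).1 hp
    simp only [mem_iUnion, mem_inter_iff, mem_iInter, mem_ofPred_eq]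
    constructor
    · rintro ⟨β, b1, b2⟩
      obtain ⟨q, hq⟩ : ∃ q : ℕ → ℕ, ∀ j, q j = if j ≤ n then Function.update p n k j else
          Function.extend ι (Sum.elim (fun w => sW (β (φ p w))) fun g => sF (r p (β.symm g))) 0 j :=
        ⟨_, fun _ => rfl⟩
      have e1 : ∀ w, φ q w = β (φ p w) := fun w => by
        rw [hφ q, hq]
        split_ifs with h
        · exact b1 w h
        · rw [hι.extend_apply, Sum.elim_inl, hW]
      refine ⟨q, (mem y q).2 ⟨⟨β.toMonoidHom.comp ψ, ⟨β.surjective.comp a1.1, fun w => ?_⟩,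
        funext fun w => by rw [e1, ← a2]; rfl⟩, fun g => ?_⟩, fun i hi => ?_, ?_⟩
      · exact β.map_eq_one_iff.trans (a1.2 w)
      · rw [e1, hr q, hq]
        split_ifs with h
        · exact b2 g h
        · rw [hι.extend_apply, Sum.elim_inr, hF, a3, β.apply_symm_apply]
      · rw [hq, if_pos hi.le, Function.update_of_ne hi.ne]
      · rw [hq, if_pos le_rfl, Function.update_self]
    · rintro ⟨q, q1, q2, q3⟩
      obtain ⟨⟨χ, b1, b2⟩, b3⟩ := (mem y q).1 q1
      obtain ⟨β, hβ⟩ := mark_aut a1 b1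
      rw [a2, b2] at hβ
      have e : ∀ j ≤ n, Function.update p n k j = q j := fun j hj => by
        rcases hj.eq_or_lt with rfl | h
        · rw [Function.update_self, q3]
        · rw [Function.update_of_ne h.ne, q2 j h]
      exact ⟨β, fun w h => by rw [e _ h, ← hφ, hβ], fun g h => by rw [e _ h, ← hr, ← hβ, b3]⟩

end Pool.Agent.P.MP_52b1ec_lc.OR
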