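import Pool.Agent.P.MP_52b1ec_lc.X.Glue

namespace Pool.Agent.P.MP_52b1ec_lc.OR

open Topology Filter Set

/-- measurability from initial segments -/
lemma sec_meas {Ω : Type} [MeasurableSpace Ω] {x : Ω → ℕ → ℕ}
    (h : ∀ (n : ℕ) (t : ℕ → ℕ), MeasurableSet {ω | ∀ i < n, x ω i = t i}) : Measurable x := by
  refine measurable_pi_iff.2 fun n => measurable_to_countable' fun k => ?_
  have : (fun ω => x ω n) ⁻¹' {k} = ⋃ (t : Fin (n + 1) → ℕ) (_ : t (Fin.last n) = k),
      {ω | ∀ i < n + 1, x ω i = (fun j => if h : j < n + 1 then t ⟨j, h⟩ else 0) i} := by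
    ext ω
    simp only [mem_preimage, mem_singleton_iff, mem_iUnion, mem_ofPred_eq, exists_prop]
    constructor
    · intro hk
      exact ⟨fun i => x ω i, hk, fun i hi => by rw [dif_pos hi]⟩
    · rintro ⟨t, ht, hx⟩
      rw [hx n (Nat.lt_succ_self n), dif_pos (Nat.lt_succ_self n)]
      exact ht
  rw [this]
  exact .iUnion fun t => .iUnion fun _ => h _ _

/-- measurable selection from closed subsets of Baire space -/
lemma sec_sel {Ω : Type} [MeasurableSpace Ω] (F : Ω → Set (ℕ → ℕ)) (hc : ∀ ω, IsClosed (F ω))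
    (hne : ∀ ω, (F ω).Nonempty)
    (hm : ∀ V : Set (ℕ → ℕ), IsOpen V → MeasurableSet {ω | ∃ y ∈ F ω, y ∈ V}) :
    ∃ x : Ω → ℕ → ℕ, Measurable x ∧ ∀ ω, x ω ∈ F ω := by
  choose x hx hl using fun ω => exists_lexLeast (hc ω) (hne ω)
  refine ⟨x, sec_meas fun n t => ?_, hx⟩
  have ho : ∀ n k, IsOpen {y : ℕ → ℕ | (∀ i < n, y i = t i) ∧ y n = k} := fun n k => by
    have : {y : ℕ → ℕ | (∀ i < n, y i = t i) ∧ y n = k} =
        (⋂ i ∈ Finset.range n, (fun y : ℕ → ℕ => y i) ⁻¹' {t i}) ∩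
          (fun y : ℕ → ℕ => y n) ⁻¹' {k} := by
      ext y
      simp
    rw [this]
    exact (isOpen_biInter_finset fun i _ => (isOpen_discrete _).preimage (continuous_apply i)).inter
      ((isOpen_discrete _).preimage (continuous_apply n))
  induction n with
  | zero => simp
  | succ n ih =>
    have : {ω | ∀ i < n + 1, x ω i = t i} = {ω | ∀ i < n, x ω i = t i} ∩
        ({ω | ∃ y ∈ F ω, y ∈ {y : ℕ → ℕ | (∀ i < n, y i = t i) ∧ y n = t n}} ∩
          ⋂ k ∈ Iio (t n), {ω | ∃ y ∈ F ω, y ∈ {y : ℕ → ℕ | (∀ i < n, y i = t i) ∧ y n = k}}ᶜ) := by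
      ext ω
      simp only [mem_ofPred_eq, mem_inter_iff, mem_iInter, mem_compl_iff, mem_Iio]
      constructor
      · intro h
        have h1 : ∀ i < n, x ω i = t i := fun i hi => h i (Nat.lt_succ_of_lt hi)
        have h2 := h n (Nat.lt_succ_self n)
        refine ⟨h1, ⟨x ω, hx ω, h1, h2⟩, ?_⟩
        rintro k hk ⟨y, hy, h3, h4⟩
        have := hl ω y hy n fun i hi => (h3 i hi).trans (h1 i hi).symm
        omega
      · rintro ⟨h1, ⟨y, hy, h3, h4⟩, h5⟩ i hi
        rcases (Nat.lt_succ_iff.1 hi).eq_or_lt with rfl | hi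
        · have := hl ω y hy i fun j hj => (h3 j hj).trans (h1 j hj).symm
          by_contra hn
          exact h5 (x ω i) (by omega) ⟨x ω, hx ω, h1, rfl⟩
        · exact h1 i hi
    rw [this]
    exact ih.inter ((hm _ (ho _ _)).inter
      (.biInter (to_countable _) fun k _ => (hm _ (ho _ _)).compl))

/-- a measurable choice of a point of the group in a clopen set -/
lemma sec_point [MeasurableSpace SInf] [BorelSpace SInf] {U : Set SInf} (hU : IsClopen U) :
    ∃ s : CS → SInf, Measurable s ∧ (∀ H, s H ∈ H) ∧ ∀ H : CS, (∃ g ∈ H, g ∈ U) → s H ∈ U := by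
  obtain ⟨c, hc⟩ := exists_closedEmbedding
  let F : CS → Set SInf := fun H => {g | g ∈ H ∧ (g ∈ U ∨ ¬ ∃ g ∈ H, g ∈ U)}
  obtain ⟨x, hx, hF⟩ := sec_sel (fun H => c '' F H)
    (fun H => hc.isClosedMap _ (H.isClosed'.inter (hU.isClosed.union isClosed_const)))
    (fun H => by
      by_cases h : ∃ g ∈ H, g ∈ U
      · obtain ⟨g, h1, h2⟩ := h
        exact ⟨_, g, ⟨h1, Or.inl h2⟩, rfl⟩
      · exact ⟨_, 1, ⟨one_mem H, Or.inr h⟩, rfl⟩)
    (fun V hV => by
      have : {H : CS | ∃ y ∈ c '' F H, y ∈ V} = {H : CS | ∃ g ∈ H, g ∈ U ∩ c ⁻¹' V} ∪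
          ({H : CS | ∃ g ∈ H, g ∈ c ⁻¹' V} ∩ {H : CS | ∃ g ∈ H, g ∈ U}ᶜ) := by
        ext H
        constructor
        · rintro ⟨_, ⟨g, ⟨h1, h2 | h2⟩, rfl⟩, h3⟩
          · exact Or.inl ⟨g, h1, h2, h3⟩
          · exact Or.inr ⟨⟨g, h1, h3⟩, h2⟩
        · rintro (⟨g, h1, h2, h3⟩ | ⟨⟨g, h1, h3⟩, h2⟩)
          · exact ⟨_, ⟨g, ⟨h1, Or.inl h2⟩, rfl⟩, h3⟩
          · exact ⟨_, ⟨g, ⟨h1, Or.inr h2⟩, rfl⟩, h3⟩
      rw [this]
      exact (measurableSet_hit (hU.isOpen.inter (hV.preimage hc.continuous))).union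
        ((measurableSet_hit (hV.preimage hc.continuous)).inter
          (measurableSet_hit hU.isOpen).compl))
  choose s hs hcs using hF
  refine ⟨s, hc.measurableEmbedding.measurable_comp_iff.1 ?_, fun H => (hs H).1,
    fun H h => (hs H).2.resolve_right (not_not.2 h)⟩
  rwa [show c ∘ s = x from funext hcs]

theorem exists_section [MeasurableSpace SInf] [BorelSpace SInf] :
    ∃ s : CS → ℕ → SInf, Measurable s ∧ ∀ H, lus_pi (s H) = H := by
  have hU : ∀ p : Σ n : ℕ, Fin n → ℕ, IsClopen {g : SInf | ∀ i : Fin p.1, ap g i = p.2 i} :=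
    fun p => (isClopen_discrete {p.2}).preimage
      (f := fun (g : SInf) (i : Fin p.1) => ap g i) (continuous_pi fun i => continuous_ap_at i)
      |>.imp (fun h => by convert h using 1; ext g; simp [funext_iff])
        (fun h => by convert h using 1; ext g; simp [funext_iff])
  choose s hs h1 h2 using fun p => sec_point (hU p)
  obtain ⟨e, he⟩ := exists_surjective_nat (Σ n : ℕ, Fin n → ℕ)
  refine ⟨fun H k => s (e k) H, measurable_pi_iff.2 fun k => hs _, fun H => SetLike.ext fun g => ?_⟩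
  rw [lus_mem]
  constructor
  · intro hg
    refine closure_minimal (t := (H : Set SInf)) ?_ H.isClosed' hg
    refine (Subgroup.closure_le H.toSubgroup).2 ?_
    rintro _ ⟨k, rfl⟩
    exact h1 _ H
  · intro hg
    refine SInf_mem_closure.2 fun n => ?_
    obtain ⟨k, hk⟩ := he ⟨n, fun i => ap g i⟩
    have := h2 ⟨n, fun i => ap g i⟩ H ⟨g, hg, fun _ => rfl⟩
    rw [← hk] at this
    refine ⟨s (e k) H, Subgroup.subset_closure ⟨k, rfl⟩, fun i hi => ?_⟩
    rw [hk] at this ⊢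
    exact this ⟨i, hi⟩

end Pool.Agent.P.MP_52b1ec_lc.OR
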