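import Pool.Agent.P.MP_52b1ec_lc.Y.CTower
import Pool.Agent.P.MP_52b1ec_lc.Y.Deg
import Pool.Agent.P.MP_52b1ec_lc.Y.Mark
import Pool.Agent.P.MP_52b1ec_lc.Y.Section

namespace Pool.Agent.P.MP_52b1ec_lc.OR

open Topology Filter Set
open scoped commutatorElement

variable {W : Type} [Group W] {D : Rig W} {e : Om → ℕ}

/-- the generators -/
abbrev Gn : Type := ℕ × ℕ ⊕ ℕ

variable (D e) in
/-- the generators in the completion -/
noncomputable def gg : Gn → Gh D e
  | .inl k => lf D e (D.x k)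
  | .inr b => lf D e (D.t b)

lemma U_t (b : ℕ) : D.U (D.t b) = 1 := by
  rw [← D.t_comm, map_commutatorElement]
  exact commutatorElement_eq_one_iff_mul_comm.2 (mul_comm _ _)

lemma comm_t {x y : Gh D e} {b : ℕ} (hx : x.1.w = D.x (b, 0)) (hy : y.1.w = D.t b) :
    ⁅x, y⁆ = lf D e (D.t b) := by
  rw [commutatorElement_def, mul_assoc, ← mul_inv_rev, mul_inv_eq_iff_eq_mul]
  refine Subtype.ext (B.ext ?_ (funext fun p => ?_))
  · have := D.t_comm b
    rw [commutatorElement_def, mul_assoc, ← mul_inv_rev, mul_inv_eq_iff_eq_mul] at this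
    simpa [hx, hy, lf, emb] using this
  · simp [hx, hy, lf, emb, ka, U_t, add_comm]

variable (D e) in
/-- words in the generators -/
noncomputable def pw : FreeGroup Gn →* Gh D e := FreeGroup.lift (gg D e)

lemma pw_val (w : FreeGroup Gn) : (pw D e w).1 = (pw D 0 w).1 :=
  (FreeGroup.lift_unique ((Gh D e).subtype.comp (pw D e)) (f := fun j => (gg D 0 j).1)
    fun j => by rcases j with j | j <;> simp [pw, gg, lf, emb]).trans
    (FreeGroup.lift_unique ((Gh D 0).subtype.comp (pw D 0)) fun j => by simp [pw]).symm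

lemma pw_fin (w : FreeGroup Gn) : {i | (pw D 0 w).1.c i ≠ 0}.Finite := by
  simpa using (pw D 0 w).2 0

lemma pw_eq (w : FreeGroup Gn) : pw D e w = emb e _ (pw_fin w) := Subtype.ext (pw_val w)

/-- words for the central generators -/
def zw (p : Om) : FreeGroup Gn :=
  ⁅(FreeGroup.of (.inl (p.1, 0)) : FreeGroup Gn), FreeGroup.of (Sum.inl (p.2.1, p.2.2 + 1))⁆

lemma pw_zw (p : Om) : pw D e (zw p) = zt D e p := by
  simp only [zw, map_commutatorElement, pw, FreeGroup.lift_apply_of]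
  exact comm_eq (D.x_comm _ _) (D.U_x _) (D.U_x _)

lemma exists_word {f : Gh D e} (hf : {i | f.1.c i ≠ 0}.Finite) : ∃ w, pw D e w = f := by
  have h1 : ∀ c : Om →₀ ZMod 2, emb e (ze D c) c.hasFiniteSupport ∈ (pw D e).range := fun c => by
    induction c using Finsupp.induction_linear with
    | zero => exact one_mem _
    | add c d hc hd =>
      convert mul_mem hc hd using 1
      exact Subtype.ext (by simp [emb, ze, B.ext_iff])
    | single p a =>
      have : ∀ a : ZMod 2, a = 0 ∨ a = 1 := by decide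
      rcases this a with rfl | rfl
      · convert one_mem (pw D e).range using 1
        exact Subtype.ext (by simp [emb, ze, B.ext_iff])
      · exact ⟨zw p, (pw_zw p).trans (Subtype.ext (congrArg (ze D) (funext fun q => by
          simp [Finsupp.single_apply, Pi.single_apply, eq_comm])))⟩
  have h2 : ∀ w, w ∈ (pw D e).range.map (pr D e) := fun w => by
    refine (Subgroup.closure_le _).2 ?_ (D.gen.ge (Subgroup.mem_top w))
    rintro _ (⟨k, rfl⟩ | ⟨b, rfl⟩)
    · exact ⟨_, ⟨.of (.inl k), FreeGroup.lift_apply_of⟩, rfl⟩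
    · exact ⟨_, ⟨.of (.inr b), FreeGroup.lift_apply_of⟩, rfl⟩
  obtain ⟨_, ⟨w, rfl⟩, hw⟩ := h2 f.1.w
  have h3 : {i | (f.1.c - (pw D e w).1.c) i ≠ 0}.Finite := (hf.union (pw_fin (D := D) w)).subset
    fun i hi => by
      by_contra k
      simp only [mem_union, mem_ofPred_eq, not_or, not_not] at k
      exact hi (by simp [pw_val, k])
  obtain ⟨w', hw'⟩ := h1 (Finsupp.ofSupportFinite _ h3)
  refine ⟨w * w', Subtype.ext ?_⟩
  rw [map_mul, hw', Subgroup.coe_mul]
  exact (mul_ze _ _).trans (B.ext hw (sub_add_cancel _ _))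

variable [Countable W]

lemma GS_closure : (GS D e : Set SInf) = closure (range ((rho D e).comp (pw D e))) := by
  refine Subset.antisymm ?_ (closure_minimal ?_ (GS D e).isClosed')
  · rintro _ ⟨g, -, rfl⟩
    refine SInf_mem_closure.2 fun n => ?_
    obtain ⟨m, hm⟩ := (isRep (D := D) (e := e)).h2 n
    obtain ⟨f, f1, f2⟩ := exists_Fs g m
    obtain ⟨w, rfl⟩ := exists_word f1
    exact ⟨_, ⟨w, rfl⟩, fun i hi => ((NC.agree_iff _ g n).1 (hm _ f2) i hi).symm⟩
  · rintro _ ⟨w, rfl⟩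
    exact ⟨_, trivial, rfl⟩

lemma exists_aut (g : ℕ × ℕ → Gh D e) (hg : ∀ k, (g k).1.w = D.x k) :
    ∃ A : (GS D e).toSubgroup ≃ₜ* (GS D e).toSubgroup,
      (∀ k, A (toGS D e (lf D e (D.x k))) = toGS D e (g k)) ∧
        ∀ b, A (toGS D e (lf D e (D.t b))) = toGS D e (lf D e (D.t b)) := by
  let χ : (ℕ × ℕ →₀ ℤ) →+ Z := Finsupp.liftAddHom fun k => zmultiplesHom Z (g k).1.c
  have h1 : ∀ u, ze D (χ u) ∈ Gh D e := fun u m => by
    induction u using Finsupp.induction_linear with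
    | zero => simp [ze]
    | add u v hu hv =>
      refine (hu.union hv).subset fun i hi => ?_
      by_contra k
      simp only [mem_union, mem_ofPred_eq, hi.1, true_and, not_or, not_not, ze] at k
      exact hi.2 (by simp [ze, k])
    | single k n => exact ((g k).2 m).subset fun i hi => ⟨hi.1, fun k => hi.2 (by simp [ze, χ, k])⟩
  let α : Gh D e → Gh D e := fun x => x * ⟨_, h1 (D.U x.1.w).toAdd⟩
  have h3 : ∀ x, (α x).1 = ⟨x.1.w, χ (D.U x.1.w).toAdd + x.1.c⟩ := fun x => mul_ze _ _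
  have h4 : ∀ x, α (α x) = x := fun x => Subtype.ext (by
    rw [h3, h3]
    exact B.ext rfl (funext fun i => CharTwo.add_cancel_left _ _))
  let θ : Gh D e ≃* Gh D e :=
    { toFun := α, invFun := α, left_inv := h4, right_inv := h4
      map_mul' := fun x y => Subtype.ext (by
        rw [h3, Subgroup.coe_mul (Gh D e) (α x), h3, h3, Subgroup.coe_mul]
        refine B.ext rfl ?_
        simp only [mul_c, mul_w, map_mul, toAdd_mul, map_add]
        abel) }
  have h5 : ∀ m, ∃ m', ∀ x ∈ V D e m', α x ∈ V D e m := fun m => ⟨m, fun x hx =>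
    ⟨by rw [h3]; exact hx.1, fun i hi => by simp [h3, hx.1, hx.2 i hi]⟩⟩
  obtain ⟨A, hA⟩ := exists_iso θ h5 h5
  refine ⟨A, fun k => (hA _).trans (congrArg _ (Subtype.ext ((h3 _).trans (B.ext (hg k).symm ?_)))),
    fun b => (hA _).trans (congrArg _ (Subtype.ext ((h3 _).trans (B.ext rfl ?_))))⟩
  · simp [lf, emb, D.U_x, χ]
  · simp [lf, emb, U_t]

lemma zt_cof {H : CS} (Θ : (GS D e).toSubgroup ≃ₜ* H.toSubgroup) {s : Om → ℕ}
    (hs : ∀ i, s i = sInf {j | ap (Θ (toGS D e (zt D e i))) j ≠ j}) : Cf e s ∧ Cf s e := by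
  constructor
  · intro m
    obtain ⟨m', hm⟩ := (cont_from Θ.toMulEquiv.toMonoidHom).1 (map_continuous Θ) (m + 1)
    refine ⟨m', fun i hi => not_lt.1 fun k => ?_⟩
    rw [hs] at hi
    refine Nat.sInf_mem (s := {j | ap (Θ (toGS D e (zt D e i))) j ≠ j}) ?_
      (hm _ (zt_mem.2 k) _ (Nat.lt_succ_of_le hi))
    by_contra hn
    have : Θ (toGS D e (zt D e i)) = 1 := Subtype.ext (ap_injective (funext fun j =>
      not_not.1 fun k => hn ⟨j, k⟩))
    rw [map_eq_one_iff _ Θ.injective, map_eq_one_iff _ (toGS D e).injective] at this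
    exact lt_irrefl _ (zt_mem.1 (this ▸ (V D e (e i)).one_mem))
  · intro m
    obtain ⟨n, hn⟩ := (cont_to Θ.symm.toMulEquiv.toMonoidHom).1 (map_continuous Θ.symm) m
    refine ⟨n, fun i hi => not_lt.1 fun k => ?_⟩
    rw [hs] at k
    have := hn _ fun j hj => not_not.1 (Nat.notMem_of_lt_sInf (hj.trans k))
    rw [show Θ.symm.toMulEquiv.toMonoidHom (Θ (toGS D e (zt D e i))) = toGS D e (zt D e i) from
      Θ.symm_apply_apply _, MulEquiv.symm_apply_apply] at this
    exact (zt_mem.1 this).not_ge hi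

/-- the tower read off from a family -/
noncomputable def eh (h : Gn → SInf) (p : Om) : ℕ := sInf {j | ap (FreeGroup.lift h (zw p)) j ≠ j}

variable (D) in
/-- the family generates a copy of the group of its tower, dense in the group of the sequence -/
def Good (y : ℕ → SInf) (h : Gn → SInf) : Prop :=
  (∀ n, ∃ m, ∀ w, (∀ i < m, ap (rho D (eh h) (pw D (eh h) w)) i = i) →
    ∀ i < n, ap (FreeGroup.lift h w) i = i) ∧
  (∀ n, ∃ m, ∀ w, (∀ i < m, ap (FreeGroup.lift h w) i = i) →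
    ∀ i < n, ap (rho D (eh h) (pw D (eh h) w)) i = i) ∧
  ∀ j n, ∃ w, ∀ i < n, ap (FreeGroup.lift h w) i = ap (y j) i

lemma Good.iso {y : ℕ → SInf} {h : Gn → SInf} (hh : ∀ j, h j ∈ (lus_pi y).toSubgroup)
    (k : Good D y h) : TopIso (GS D (eh h)) (lus_pi y) := by
  refine (FG.ext_iso ((rho D _).comp (pw D _)) _ k.1 k.2.1 (H := lus_pi y) GS_closure ?_).elim
    fun Θ _ => ⟨Θ⟩
  refine Subset.antisymm ?_ (closure_minimal ?_ (lus_pi y).isClosed')
  · refine closure_minimal ((Subgroup.closure_le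
      (FreeGroup.lift h).range.topologicalClosure).2 ?_) isClosed_closure
    rintro _ ⟨j, rfl⟩
    exact SInf_mem_closure.2 fun n => (k.2.2 j n).elim fun w hw => ⟨_, ⟨w, rfl⟩, hw⟩
  · rintro _ ⟨w, rfl⟩
    exact FG.lift_mem hh w

lemma good_of {y : ℕ → SInf} {h : Gn → SInf}
    (Θ : (GS D e).toSubgroup ≃ₜ* (lus_pi y).toSubgroup)
    (hh : ∀ j, (Θ (toGS D e (gg D e j))).1 = h j) : Good D y h := by
  have h1 : ∀ w, FreeGroup.lift h w = Θ (toGS D e (pw D e w)) :=
    fun w => (FreeGroup.lift_unique ((lus_pi y).toSubgroup.subtype.comp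
      (Θ.toMulEquiv.toMonoidHom.comp ((toGS D e).toMonoidHom.comp (pw D e)))) fun j => by
        show (Θ (toGS D e (pw D e (.of j)))).1 = _
        rw [pw, FreeGroup.lift_apply_of, hh]).symm
  obtain ⟨c1, c2⟩ := zt_cof Θ (s := eh h) fun p => by rw [eh, h1, pw_zw]
  obtain ⟨θ, t1, t2, t3⟩ := exists_lift (D := D) (e := eh h) (e' := e) (MulEquiv.refl W)
    (Equiv.refl ℕ) (fun _ _ _ => rfl) c2 c1
  obtain ⟨A, hA⟩ := exists_iso θ t1 t2
  obtain ⟨Θ', h2⟩ : ∃ Θ' : (GS D (eh h)).toSubgroup ≃ₜ* (lus_pi y).toSubgroup,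
      ∀ w, FreeGroup.lift h w = Θ' (toGS D _ (pw D (eh h) w)) := ⟨A.trans Θ, fun w => by
    show _ = (Θ (A _)).1
    rw [h1, hA, show θ (pw D (eh h) w) = pw D e w from
      Subtype.ext ((t3 _).trans ((pw_val w).trans (pw_val w).symm))]⟩
  rw [Good]
  generalize eh h = e' at Θ' h2
  simp only [h2]
  refine ⟨fun n => ((hom_continuous_iff Θ'.toMulEquiv.toMonoidHom).1 (map_continuous Θ') n).imp
    fun m hm w => hm (toGS D e' (pw D e' w)), fun n => ((hom_continuous_iff
      Θ'.symm.toMulEquiv.toMonoidHom).1 (map_continuous Θ'.symm) n).imp fun m hm w k => ?_,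
    fun j n => ?_⟩
  · have := hm _ k
    rwa [show ∀ x, Θ'.symm.toMulEquiv.toMonoidHom (Θ' x) = x from Θ'.symm_apply_apply] at this
  · obtain ⟨m, hm⟩ := (cont_from Θ'.toMulEquiv.toMonoidHom).1 (map_continuous Θ') n
    obtain ⟨x, hx⟩ := ((toGS D e').trans Θ'.toMulEquiv).surjective ⟨y j, FG.y_mem y j⟩
    obtain ⟨f, f1, f2⟩ := exists_Fs x m
    obtain ⟨w, rfl⟩ := exists_word f1
    have := (NC.agree_iff (ρ := (lus_pi y).toSubgroup.subtype.comp
      ((toGS D e').trans Θ'.toMulEquiv).toMonoidHom) _ x n).1 (hm _ f2)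
    exact ⟨w, fun i hi => (this i hi).symm.trans (congrArg (fun g => ap g.1 i) hx)⟩

/-- words as elements of the group of a sequence -/
noncomputable def ly (y : ℕ → SInf) : FreeGroup ℕ →* (lus_pi y).toSubgroup :=
  (FreeGroup.lift y).codRestrict _ (FG.lift_mem (FG.y_mem y))

lemma mk_of {y : ℕ → SInf} (Θ : (GS D e).toSubgroup ≃ₜ* (lus_pi y).toSubgroup) :
    Mk y ((pr D e).comp (((toGS D e).trans Θ.toMulEquiv).symm.toMonoidHom.comp (ly y))) := by
  let Φ := (toGS D e).trans Θ.toMulEquiv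
  constructor
  · intro w
    obtain ⟨n, hn⟩ := (cont_to Θ.symm.toMulEquiv.toMonoidHom).1 (map_continuous Θ.symm) 0
    obtain ⟨g, hg, k⟩ := SInf_mem_closure.1 ((lus_mem _ _).1 (Φ (lf D e w)).2) n
    rw [← FreeGroup.range_lift_eq_closure] at hg
    obtain ⟨u, rfl⟩ := hg
    have : Φ.symm ((Φ (lf D e w))⁻¹ * ly y u) ∈ V D e 0 := hn _ fun i hi => by
      rw [Subgroup.coe_mul, Subgroup.coe_inv, ap_mul]
      exact (congrArg _ (k i hi)).trans (ap_inv_ap _ _)
    rw [map_mul, map_inv, MulEquiv.symm_apply_apply] at this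
    exact ⟨u, (inv_mul_mem_V.1 this).1⟩
  · intro w
    refine pr_eq_one.trans ⟨fun h j => ?_, fun h g => ?_⟩
    · have := (h (Φ.symm ⟨y j, FG.y_mem y j⟩)).of_map Φ.symm.injective
      exact this.map (lus_pi y).toSubgroup.subtype
    · obtain ⟨g, rfl⟩ := Φ.symm.surjective g
      refine Commute.map (Subtype.ext ?_) Φ.symm
      refine closure_minimal (t := Subgroup.centralizer {FreeGroup.lift y w})
        ((Subgroup.closure_le _).2 ?_) (Set.isClosed_centralizer _) ((lus_mem _ _).1 g.2) _ rfl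
      rintro _ ⟨j, rfl⟩ _ rfl
      exact h j

/-- the family read off from words for the generators -/
noncomputable def hr (y : ℕ → SInf) (r : Gn → FreeGroup ℕ) : Gn → SInf
  | .inl k => FreeGroup.lift y (r (.inl k))
  | .inr b => FreeGroup.lift y ⁅r (.inl (b, 0)), r (.inr b)⁆

lemma good_of_mk {y : ℕ → SInf} (Θ : (GS D e).toSubgroup ≃ₜ* (lus_pi y).toSubgroup)
    {ψ : FreeGroup ℕ →* W} (hψ : Mk y ψ) {r : Gn → FreeGroup ℕ}
    (h : ∀ j, ψ (r j) = (gg D 0 j).1.w) : Good D y (hr y r) := by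
  obtain ⟨s, k⟩ := mk_of Θ
  set φ := (pr D e).comp (((toGS D e).trans Θ.toMulEquiv).symm.toMonoidHom.comp (ly y))
  have k' : φ.ker = ψ.ker := Subgroup.ext fun w => (k w).trans (hψ.2 w).symm
  let β : W ≃* W := (QuotientGroup.quotientKerEquivOfSurjective _ s).symm.trans
    ((QuotientGroup.quotientMulEquivOfEq k').trans
      (QuotientGroup.quotientKerEquivOfSurjective _ hψ.1))
  have hβ : ∀ w, β (φ w) = ψ w := fun w => by
    have : (QuotientGroup.quotientKerEquivOfSurjective _ s).symm (φ w) = w :=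
      (MulEquiv.symm_apply_eq _).2 rfl
    simp only [β, MulEquiv.trans_apply, this]
    rfl
  obtain ⟨σ, hσ⟩ := D.rig β
  obtain ⟨θ, t1, t2, t3⟩ := exists_lift (D := D) (e := e) (e' := e ∘ (rl σ).symm) β σ hσ
    (fun m => ⟨m, fun i => by simp⟩) fun m => ⟨m, fun i => by simp⟩
  obtain ⟨A, hA⟩ := exists_iso θ t1 t2
  let g : FreeGroup ℕ →* Gh D (e ∘ (rl σ).symm) := θ.toMonoidHom.comp
    (((toGS D e).trans Θ.toMulEquiv).symm.toMonoidHom.comp (ly y))
  have g1 : ∀ w, (g w).1.w = ψ w := fun w => (congrArg B.w (t3 _)).trans (hβ w)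
  have g2 : ∀ w, (Θ (A.symm (toGS D _ (g w)))).1 = FreeGroup.lift y w := fun w => by
    rw [show toGS D _ (g w) = A _ from (hA _).symm, A.symm_apply_apply]
    exact congrArg Subtype.val (((toGS D e).trans Θ.toMulEquiv).apply_symm_apply (ly y w))
  obtain ⟨A', a1, a2⟩ := exists_aut (fun k => g (r (.inl k))) fun k => (g1 _).trans (h _)
  refine good_of (A'.trans (A.symm.trans Θ)) ?_
  rintro (j | j)
  · exact (congrArg (fun x => (Θ (A.symm x)).1) (a1 j)).trans (g2 _)
  · refine (congrArg (fun x => (Θ (A.symm x)).1) (a2 j)).trans (Eq.trans ?_ (g2 _))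
    rw [map_commutatorElement g, comm_t ((g1 _).trans (h _)) ((g1 _).trans (h _))]

lemma meas_sInf {Ω : Type} [MeasurableSpace Ω] {P : Ω → ℕ → Prop}
    (h : ∀ n, Measurable (P · n)) : Measurable fun ω => sInf {n | P ω n} := by
  refine measurable_to_countable' fun k => ?_
  have : (fun ω => sInf {n | P ω n}) ⁻¹' {k} =
      {ω | (k = 0 ∧ ∀ j, ¬ P ω j) ∨ (P ω k ∧ ∀ j, j < k → ¬ P ω j)} := by
    ext ω
    simp only [mem_preimage, mem_singleton_iff, mem_ofPred_eq]
    constructor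
    · rintro rfl
      rcases {j | P ω j}.eq_empty_or_nonempty with c | c
      · exact Or.inl ⟨by simp [c], fun j d => (c ▸ d : j ∈ (∅ : Set ℕ))⟩
      · exact Or.inr ⟨Nat.sInf_mem c, fun j hj => Nat.notMem_of_lt_sInf hj⟩
    · rintro (⟨rfl, c⟩ | ⟨c, d⟩)
      · simp [c]
      · exact le_antisymm (Nat.sInf_le c) (not_lt.1 fun j => d _ j (Nat.sInf_mem (s := {j | P ω j})
          ⟨k, c⟩))
  rw [this, measurableSet_setOfPred]
  exact (measurable_const.and (.forall fun j => (h j).not)).or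
    ((h k).and (.forall fun j => measurable_const.imp (h j).not))

lemma meas_good [MeasurableSpace SInf] [BorelSpace SInf] {h : (ℕ → SInf) → Gn → SInf}
    (hh : ∀ j, Measurable (h · j)) (he : Measurable fun y => eh (h y)) :
    Measurable fun y => Good D y (h y) := by
  have k1 : ∀ w i, Measurable fun y => ap (FreeGroup.lift (h y) w) i := fun w i =>
    (continuous_ap_at i).measurable.comp (FG.meas_lift hh w)
  have k2 : ∀ w i, Measurable fun y => ap (rho D (eh (h y)) (pw D (eh (h y)) w)) i := fun w i => by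
    simp only [fun y => pw_eq (D := D) (e := eh (h y)) w]
    exact (measurable_rho _ (pw_fin w) i).comp he
  have k3 : ∀ {a : (ℕ → SInf) → ℕ → ℕ}, (∀ i, Measurable (a · i)) → ∀ m,
      Measurable fun y => ∀ i < m, a y i = i := fun ha m =>
    .forall fun i => measurable_const.imp (FG.meas_eq (ha i) measurable_const)
  exact (Measurable.forall fun n => .exists fun m => .forall fun w =>
      (k3 (k2 w) m).imp (k3 (k1 w) n)).and
    ((Measurable.forall fun n => .exists fun m => .forall fun w =>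
      (k3 (k1 w) m).imp (k3 (k2 w) n)).and (.forall fun j => .forall fun n => .exists fun w =>
        .forall fun i => measurable_const.imp (FG.meas_eq (k1 w i)
          ((continuous_ap_at i).measurable.comp (measurable_pi_apply j)))))

variable (D) in
theorem exists_sg : ∃ sg : CS → Om → ℕ, Measurable sg ∧
    MeasurableSet {H | ∃ e, TopIso (GS D e) H} ∧
      ∀ e H, TopIso (GS D e) H → TopIso (GS D (sg H)) H := by
  classical
  borelize SInf
  obtain ⟨s, hs, s1⟩ := exists_section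
  obtain ⟨m, hm, m1⟩ := exists_mark W
  obtain ⟨en, hen⟩ := exists_surjective_nat (FreeGroup ℕ)
  let r : (ℕ → SInf) → Gn → FreeGroup ℕ := fun y j => en (sInf {n | m y (en n) = (gg D 0 j).1.w})
  have r1 : ∀ j, Measurable fun y => sInf {n | m y (en n) = (gg D 0 j).1.w} := fun j =>
    meas_sInf fun n => measurableSet_setOfPred.1 (hm _ _)
  have l1 : ∀ {k : (ℕ → SInf) → ℕ} (_ : Measurable k) (F : ℕ → FreeGroup ℕ),
      Measurable fun y => FreeGroup.lift y (F (k y)) := fun hk F =>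
    (measurable_from_prod_countable_left (f := fun p : (ℕ → SInf) × ℕ =>
      FreeGroup.lift p.1 (F p.2)) fun n => FG.meas_lift measurable_pi_apply (F n)).comp
        (measurable_id.prodMk hk)
  have h1 : ∀ j, Measurable fun y => hr y (r y) j := by
    rintro (j | j)
    · exact l1 (r1 _) en
    · simp only [hr, commutatorElement_def, map_mul, map_inv]
      exact (((l1 (r1 _) en).mul (l1 (r1 _) en)).mul (l1 (r1 _) en).inv).mul (l1 (r1 _) en).inv
  have k1 : ∀ y, Good D y (hr y (r y)) → TopIso (GS D (eh (hr y (r y)))) (lus_pi y) := fun y =>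
    Good.iso (by rintro (j | j) <;> exact FG.lift_mem (FG.y_mem y) _)
  have k2 : ∀ e y, TopIso (GS D e) (lus_pi y) → Good D y (hr y (r y)) := fun e y ⟨Θ⟩ => by
    obtain ⟨ψ, p1, p2⟩ := m1 y _ (mk_of Θ)
    refine good_of_mk Θ p1 fun j => ?_
    obtain ⟨w, hw⟩ := p1.1 (gg D 0 j).1.w
    obtain ⟨n, rfl⟩ := hen w
    rw [p2] at hw ⊢
    exact Nat.sInf_mem (s := {n | m y (en n) = (gg D 0 j).1.w}) ⟨n, hw⟩
  have e1 : Measurable fun y => eh (hr y (r y)) := measurable_pi_lambda _ fun p =>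
    meas_sInf fun j => (FG.meas_eq ((continuous_ap_at j).measurable.comp
      (FG.meas_lift h1 _)) measurable_const).not
  refine ⟨fun H => eh (hr (s H) (r (s H))), e1.comp hs, ?_, fun e H h => ?_⟩
  · convert hs (measurableSet_setOfPred.2 (meas_good (D := D) h1 e1)) using 1
    exact Set.ext fun H => ⟨fun ⟨e, h⟩ => k2 e _ ((s1 H).symm ▸ h), fun h => ⟨_, s1 H ▸ k1 _ h⟩⟩
  · have := k1 _ (k2 e (s H) ((s1 H).symm ▸ h))
    rwa [s1] at this

end Pool.Agent.P.MP_52b1ec_lc.OR
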