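import Pool.Agent.P.MP_52b1ec_lc.Y.ODefs

namespace Pool.Agent.P.MP_52b1ec_lc.OR

open Topology Filter Set
open scoped commutatorElement

/-- pairs of points with a label -/
abbrev Om : Type := ℕ × ℕ × ℕ

/-- the centre -/
abbrev Z : Type := Om → ZMod 2

variable {W : Type} [Group W] (D : Rig W)

/-- the cocycle -/
noncomputable def ka (w w' : W) : Z := fun p =>
  (((D.U w).toAdd (p.1, 0) * (D.U w').toAdd (p.2.1, p.2.2 + 1) : ℤ) : ZMod 2)

lemma ka_fin (w w' : W) : {p | ka D w w' p ≠ 0}.Finite :=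
  (((D.U w).toAdd.support.finite_toSet.prod (D.U w').toAdd.support.finite_toSet).preimage
    (f := fun p : Om => ((p.1, 0), (p.2.1, p.2.2 + 1)))
    fun _ _ _ _ h => by simpa [Prod.ext_iff] using h).subset fun p hp => by
      by_contra h
      simp only [mem_preimage, mem_prod, Finset.mem_coe, Finsupp.mem_support_iff, not_and_or,
        not_not] at h
      exact hp (by rcases h with h | h <;> simp [ka, h])

lemma ka_mul_left (x y z : W) : ka D (x * y) z = ka D x z + ka D y z := by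
  funext p; simp [ka, add_mul]

lemma ka_mul_right (x y z : W) : ka D x (y * z) = ka D x y + ka D x z := by
  funext p; simp [ka, mul_add]

@[simp] lemma ka_one_left (x : W) : ka D 1 x = 0 := by funext p; simp [ka]

@[simp] lemma ka_one_right (x : W) : ka D x 1 = 0 := by funext p; simp [ka]

/-- the central extension -/
@[ext] structure B (D : Rig W) where
  w : W
  c : Z

variable {D}

noncomputable instance : Mul (B D) := ⟨fun x y => ⟨x.w * y.w, x.c + y.c + ka D x.w y.w⟩⟩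

instance : One (B D) := ⟨⟨1, 0⟩⟩

noncomputable instance : Inv (B D) := ⟨fun x => ⟨x.w⁻¹, -x.c - ka D x.w⁻¹ x.w⟩⟩

@[simp] lemma mul_w (x y : B D) : (x * y).w = x.w * y.w := rfl
@[simp] lemma mul_c (x y : B D) : (x * y).c = x.c + y.c + ka D x.w y.w := rfl
@[simp] lemma one_w : (1 : B D).w = 1 := rfl
@[simp] lemma one_c : (1 : B D).c = 0 := rfl
@[simp] lemma inv_w (x : B D) : x⁻¹.w = x.w⁻¹ := rfl
@[simp] lemma inv_c (x : B D) : x⁻¹.c = -x.c - ka D x.w⁻¹ x.w := rfl

noncomputable instance : Group (B D) := Group.ofLeftAxioms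
  (fun x y z => B.ext (mul_assoc _ _ _) (by
    simp only [mul_c, mul_w, ka_mul_left, ka_mul_right]; abel))
  (fun x => by ext1 <;> simp)
  (fun x => B.ext (inv_mul_cancel _) (by rw [mul_c, inv_c, inv_w, one_c]; abel))

variable (D) in
/-- central elements -/
def ze (c : Z) : B D := ⟨1, c⟩

lemma mul_ze (x : B D) (c : Z) : x * ze D c = ⟨x.w, c + x.c⟩ := by ext1 <;> simp [ze, add_comm]

lemma ze_mul (x : B D) (c : Z) : ze D c * x = x * ze D c := by ext1 <;> simp [ze, add_comm]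

variable (D) (e : Om → ℕ)

/-- the completion along the tower -/
def Gh : Subgroup (B D) where
  carrier := {g | ∀ m, {i | e i ≤ m ∧ g.c i ≠ 0}.Finite}
  one_mem' := fun m => by simp
  mul_mem' {x y} hx hy m :=
    (((hx m).union (hy m)).union (ka_fin D x.w y.w)).subset fun i hi => by
      by_contra h
      simp only [mem_union, mem_ofPred_eq, hi.1, true_and, not_or, not_not] at h
      exact hi.2 (by simp [h])
  inv_mem' {x} hx m := ((hx m).union (ka_fin D x.w⁻¹ x.w)).subset fun i hi => by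
    by_contra h
    simp only [mem_union, mem_ofPred_eq, hi.1, true_and, not_or, not_not] at h
    exact hi.2 (by simp [h])

/-- the basic open subgroups -/
def V (m : ℕ) : Subgroup (Gh D e) where
  carrier := {g | g.1.w = 1 ∧ ∀ i, e i ≤ m → g.1.c i = 0}
  one_mem' := ⟨rfl, fun _ _ => rfl⟩
  mul_mem' := fun h k => ⟨by simp [h.1, k.1], fun i hi => by simp [h.1, h.2 i hi, k.2 i hi]⟩
  inv_mem' := fun h => ⟨by simp [h.1], fun i hi => by simp [h.1, h.2 i hi]⟩

variable {D e}

lemma V_anti : Antitone (V D e) := fun _ _ h _ k => ⟨k.1, fun i hi => k.2 i (hi.trans h)⟩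

lemma comm_of {v : Gh D e} (hv : v.1.w = 1) (g : Gh D e) : v * g = g * v :=
  Subtype.ext (B.ext (by simp [hv]) (by simp [hv, add_comm]))

lemma V_normal (m : ℕ) : (V D e m).Normal :=
  ⟨fun v hv g => by rwa [← comm_of hv.1, mul_inv_cancel_right]⟩

lemma V_sep (g : Gh D e) (h : ∀ m, g ∈ V D e m) : g = 1 :=
  Subtype.ext (B.ext (h 0).1 (funext fun i => (h (e i)).2 i le_rfl))

lemma inv_mul_mem_V {m : ℕ} {x y : Gh D e} : x⁻¹ * y ∈ V D e m ↔
    y.1.w = x.1.w ∧ ∀ i, e i ≤ m → y.1.c i = x.1.c i := by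
  show x.1.w⁻¹ * y.1.w = 1 ∧ _ ↔ _
  rw [inv_mul_eq_one, eq_comm]
  refine and_congr_right fun h => forall₂_congr fun i _ => ?_
  simp only [Subgroup.coe_mul, Subgroup.coe_inv, mul_c, inv_c, inv_w, ← h, Pi.add_apply,
    Pi.neg_apply, Pi.sub_apply]
  exact ⟨fun k => by linear_combination k, fun k => by linear_combination k⟩

lemma Gh_complete (h : ℕ → Gh D e) (hh : ∀ m m', m ≤ m' → (h m)⁻¹ * h m' ∈ V D e m) :
    ∃ g : Gh D e, ∀ m, g⁻¹ * h m ∈ V D e m := by
  simp only [inv_mul_mem_V] at hh ⊢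
  have key : ∀ m i, e i ≤ m → (h m).1.c i = (h (e i)).1.c i := fun m i hi =>
    (hh _ _ hi).2 i le_rfl
  exact ⟨⟨⟨(h 0).1.w, fun i => (h (e i)).1.c i⟩, fun m =>
    ((h m).2 m).subset fun i hi => ⟨hi.1, (key m i hi.1).trans_ne hi.2⟩⟩,
    fun m => ⟨(hh 0 m m.zero_le).1, key m⟩⟩

variable (D) in
/-- the elements of finite support -/
def Fs : Type := {g : B D // {i | g.c i ≠ 0}.Finite}

instance [Countable W] : Countable (Fs D) := by
  refine Function.Surjective.countable (f := fun p : W × (Om →₀ ZMod 2) =>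
    (⟨⟨p.1, p.2⟩, p.2.hasFiniteSupport⟩ : Fs D)) fun g => ?_
  exact ⟨(g.1.w, Finsupp.ofSupportFinite _ g.2), rfl⟩

instance : Inhabited (Fs D) := ⟨⟨1, by simp⟩⟩

/-- the action on the points of level `m` -/
noncomputable def ac (g : Gh D e) (u : ℕ × Fs D) : ℕ × Fs D :=
  (u.1, ⟨⟨(g.1 * u.2.1).w, fun i => if e i ≤ u.1 then (g.1 * u.2.1).c i else u.2.1.c i⟩,
    (((g.2 u.1).union u.2.2).union (ka_fin D g.1.w u.2.1.w)).subset fun i hi => by
      by_contra h
      simp only [mem_union, mem_ofPred_eq, not_or, not_not, not_and] at h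
      refine hi ?_
      simp only
      split_ifs with k
      · simp [h.1.1 k, h.1.2, h.2]
      · exact h.1.2⟩)

lemma ac_ext {u v : ℕ × Fs D} : u = v ↔ u.1 = v.1 ∧ u.2.1.w = v.2.1.w ∧
    ∀ i, u.2.1.c i = v.2.1.c i :=
  ⟨fun h => by simp [h], fun ⟨h1, h2, h5⟩ => Prod.ext h1 (Subtype.ext (B.ext h2 (funext h5)))⟩

variable (D e) in
/-- the action as a homomorphism -/
noncomputable def acH : Gh D e →* Function.End (ℕ × Fs D) where
  toFun := ac
  map_one' := funext fun u => (ac_ext (v := u)).2 (by simp [ac])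
  map_mul' g h := funext fun u => by
    show ac (g * h) u = ac g (ac h u)
    have k : (g.1 * h.1) * u.2.1 = g.1 * (h.1 * u.2.1) := mul_assoc _ _ _
    refine ac_ext.2 ⟨rfl, (congrArg B.w k :), fun i => ?_⟩
    simp only [ac, Subgroup.coe_mul, k]
    split_ifs with j
    · simp [j]
    · rfl

lemma ac_fix (g : Gh D e) (u : ℕ × Fs D) : ac g u = u ↔ g ∈ V D e u.1 := by
  rw [ac_ext]
  simp only [ac, mul_w, mul_c, true_and, mul_eq_right]
  refine and_congr_right fun h1 => forall_congr' fun i => ?_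
  split_ifs with j <;> simp [j, h1]

variable [Countable W]

variable (D) in
/-- an enumeration of the points -/
noncomputable def en : ℕ × Fs D ≃ ℕ := nonempty_equiv_of_countable.some

variable (D e) in
/-- the permutation representation -/
noncomputable def rho : Gh D e →* SInf :=
  ((en D).permCongrHom : Equiv.Perm (ℕ × Fs D) →* Equiv.Perm ℕ).comp (acH D e).toHomPerm

lemma ap_rho (g : Gh D e) (j : ℕ) : ap (rho D e g) j = en D (ac g ((en D).symm j)) := rfl

lemma isRep : NC.IsRep (V D e) (rho D e) := by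
  have key : ∀ (g : Gh D e) j, ap (rho D e g) j = j ↔ g ∈ V D e ((en D).symm j).1 := fun g j => by
    rw [ap_rho, ← ac_fix, ← (en D).eq_symm_apply]
  refine ⟨fun m => ⟨en D (m, default) + 1, fun g hg => ?_⟩, fun n => ?_⟩
  · have := (key g _).1 (hg _ (Nat.lt_succ_self _))
    rwa [(en D).symm_apply_apply] at this
  · refine ⟨(Finset.range n).sup (fun j => ((en D).symm j).1), fun g hg i hi => (key g i).2 ?_⟩
    exact V_anti (Finset.le_sup (f := fun j => ((en D).symm j).1) (Finset.mem_range.2 hi)) hg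

lemma rho_inj : Function.Injective (rho D e) := isRep.injective V_sep

variable (D e) in
/-- the closed subgroup attached to a tower -/
noncomputable def GS : CS := ⟨(⊤ : Subgroup (Gh D e)).map (rho D e),
  isRep.isClosed _ fun h _ hh => (Gh_complete h hh).imp fun _ hg => ⟨trivial, hg⟩⟩

variable (D e) in
/-- the group of a tower and its image -/
noncomputable def toGS : Gh D e ≃* (GS D e).toSubgroup :=
  Subgroup.topEquiv.symm.trans (Subgroup.equivMapOfInjective _ _ rho_inj)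

lemma toGS_val (g : Gh D e) : (toGS D e g).1 = rho D e g := rfl

lemma cont_from {H : Subgroup SInf} (Θ : (GS D e).toSubgroup →* H) : Continuous Θ ↔
    ∀ n, ∃ m, ∀ g ∈ V D e m, ∀ i < n, ap (Θ (toGS D e g)) i = i := by
  rw [hom_continuous_iff]
  refine forall_congr' fun n => ⟨fun ⟨k, hk⟩ => ((isRep (D := D) (e := e)).h2 k).imp fun m hm g hg =>
    hk _ (hm g hg), fun ⟨m, hm⟩ => ((isRep (D := D) (e := e)).h1 m).imp fun k hk x hx => ?_⟩
  obtain ⟨g, rfl⟩ := (toGS D e).surjective x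
  exact hm g (hk g hx)

lemma cont_to {H : Subgroup SInf} (Θ : H →* (GS D e).toSubgroup) : Continuous Θ ↔
    ∀ m, ∃ n, ∀ h : H, (∀ i < n, ap h i = i) → (toGS D e).symm (Θ h) ∈ V D e m := by
  rw [hom_continuous_iff]
  have k : ∀ h, rho D e ((toGS D e).symm (Θ h)) = Θ h := fun h => by
    rw [← toGS_val, MulEquiv.apply_symm_apply]
  constructor
  · intro h m
    obtain ⟨n, hn⟩ := (isRep (D := D) (e := e)).h1 m
    exact (h n).imp fun n' hn' x hx => hn _ (k x ▸ hn' x hx)
  · intro h n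
    obtain ⟨m, hm⟩ := (isRep (D := D) (e := e)).h2 n
    exact (h m).imp fun n' hn' x hx => k x ▸ hm _ (hn' x hx)

lemma cont_iff {e e' : Om → ℕ} (Θ : (GS D e).toSubgroup →* (GS D e').toSubgroup) :
    Continuous Θ ↔
      ∀ m, ∃ m', ∀ g ∈ V D e m', (toGS D e').symm (Θ (toGS D e g)) ∈ V D e' m := by
  rw [cont_to]
  refine forall_congr' fun n => ⟨fun ⟨k, hk⟩ => ((isRep (D := D) (e := e)).h2 k).imp fun m hm g hg =>
    hk _ (hm g hg), fun ⟨m, hm⟩ => ((isRep (D := D) (e := e)).h1 m).imp fun k hk x hx => ?_⟩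
  obtain ⟨g, rfl⟩ := (toGS D e).surjective x
  exact hm g (hk g hx)

lemma exists_iso {e e' : Om → ℕ} (θ : Gh D e ≃* Gh D e')
    (h1 : ∀ m, ∃ m', ∀ g ∈ V D e m', θ g ∈ V D e' m)
    (h2 : ∀ m, ∃ m', ∀ g ∈ V D e' m', θ.symm g ∈ V D e m) :
    ∃ A : (GS D e).toSubgroup ≃ₜ* (GS D e').toSubgroup,
      ∀ g, A (toGS D e g) = toGS D e' (θ g) := by
  let Θ := (toGS D e).symm.trans (θ.trans (toGS D e'))
  exact ⟨⟨Θ, (cont_iff Θ.toMonoidHom).2 (by simpa [Θ] using h1),
    (cont_iff Θ.symm.toMonoidHom).2 (by simpa [Θ] using h2)⟩, fun g =>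
    congrArg (fun x => toGS D e' (θ x)) ((toGS D e).symm_apply_apply g)⟩

/-- relabelling -/
def rl (σ : Equiv.Perm ℕ) : Equiv.Perm Om := σ.prodCongr (σ.prodCongr (Equiv.refl ℕ))

omit [Countable W] in
lemma exists_lift {e e' : Om → ℕ} (β : W ≃* W) (σ : Equiv.Perm ℕ)
    (h : ∀ w b i, (D.U (β w)).toAdd (σ b, i) = (D.U w).toAdd (b, i))
    (h1 : Cf e (e' ∘ rl σ)) (h2 : Cf (e' ∘ rl σ) e) : ∃ θ : Gh D e ≃* Gh D e',
      (∀ m, ∃ m', ∀ g ∈ V D e m', θ g ∈ V D e' m) ∧
      (∀ m, ∃ m', ∀ g ∈ V D e' m', θ.symm g ∈ V D e m) ∧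
      ∀ g, (θ g).1 = ⟨β g.1.w, g.1.c ∘ (rl σ).symm⟩ := by
  have k : ∀ x y, ka D (β x) (β y) = ka D x y ∘ (rl σ).symm := fun x y => funext fun p => by
    obtain ⟨p, rfl⟩ := (rl σ).surjective p
    rw [Function.comp_apply, Equiv.symm_apply_apply]
    simp [ka, rl, h]
  refine ⟨{ toFun := fun g => ⟨⟨β g.1.w, g.1.c ∘ (rl σ).symm⟩, fun m => ?_⟩
            invFun := fun g => ⟨⟨β.symm g.1.w, g.1.c ∘ rl σ⟩, fun m => ?_⟩
            left_inv := fun g => Subtype.ext (B.ext (by simp) (funext fun p => by simp))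
            right_inv := fun g => Subtype.ext (B.ext (by simp) (funext fun p => by simp))
            map_mul' := fun x y => Subtype.ext (B.ext (map_mul β _ _) (funext fun p => by
              simp [k])) }, fun m => (h1 m).imp fun m' hm g hg => ⟨by simp [hg.1], fun p hp =>
      hg.2 _ (hm _ (by simpa using hp))⟩, fun m => (h2 m).imp fun m' hm g hg =>
    ⟨by simp [hg.1], fun p hp => hg.2 _ (hm _ hp)⟩, fun _ => rfl⟩
  · obtain ⟨m', hm⟩ := h1 m
    exact ((g.2 m').preimage (rl σ).symm.injective.injOn).subset fun p hp =>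
      ⟨hm _ (by simpa using hp.1), hp.2⟩
  · obtain ⟨m', hm⟩ := h2 m
    exact ((g.2 m').preimage (rl σ).injective.injOn).subset fun p hp => ⟨hm _ hp.1, hp.2⟩

variable (e) in
/-- an element of finite support as an element of the completion -/
def emb (g : B D) (h : {i | g.c i ≠ 0}.Finite) : Gh D e := ⟨g, fun _ => h.subset fun _ k => k.2⟩

variable (D e) in
/-- the standard lift -/
def lf (w : W) : Gh D e := emb e ⟨w, 0⟩ (by simp)

variable (D e) in
/-- the projection -/
noncomputable def pr : Gh D e →* W := MonoidHom.mk' (fun g => g.1.w) fun _ _ => rfl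

variable (D e) in
/-- the central generators -/
def zt (p : Om) : Gh D e := emb e (ze D (Pi.single p 1))
  ((finite_singleton p).subset fun q h => by
    by_contra k
    exact h (Pi.single_eq_of_ne k _))

omit [Countable W]

lemma zt_mem {p : Om} {m : ℕ} : zt D e p ∈ V D e m ↔ m < e p := by
  refine ⟨fun h => not_le.1 fun k => by simpa [zt, emb, ze] using h.2 p k,
    fun h => ⟨rfl, fun j hj => Pi.single_eq_of_ne ?_ _⟩⟩
  rintro rfl
  omega

lemma comm_eq {x y : Gh D e} {p : Om} (h : Commute x.1.w y.1.w)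
    (hx : D.U x.1.w = .ofAdd (Finsupp.single (p.1, 0) 1))
    (hy : D.U y.1.w = .ofAdd (Finsupp.single (p.2.1, p.2.2 + 1) 1)) : ⁅x, y⁆ = zt D e p := by
  rw [commutatorElement_def, mul_assoc, ← mul_inv_rev, mul_inv_eq_iff_eq_mul]
  refine Subtype.ext (B.ext (by simp [zt, emb, ze, h.eq]) (funext fun q => ?_))
  obtain ⟨a, b, j⟩ := p
  obtain ⟨a', b', j'⟩ := q
  simp only [Subgroup.coe_mul, mul_c, mul_w, zt, emb, ze, ka_one_left, Pi.add_apply, ka, hx, hy,
    toAdd_ofAdd, Finsupp.single_apply, Pi.single_apply, Prod.mk.injEq, Pi.zero_apply]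
  rw [if_neg (show ¬ (b = a' ∧ j + 1 = 0) by omega)]
  by_cases h1 : a' = a ∧ b' = b ∧ j' = j
  · obtain ⟨rfl, rfl, rfl⟩ := h1
    simp [add_comm]
  · rw [if_neg h1]
    by_cases h2 : a = a'
    · rw [if_neg (show ¬ (b = b' ∧ j + 1 = j' + 1) by omega)]
      simp [add_comm]
    · simp [h2, add_comm]

lemma pr_eq_one {g : Gh D e} : pr D e g = 1 ↔ ∀ h, Commute g h :=
  ⟨fun k h => comm_of k h, fun k => D.cen _ fun w => (k (lf D e w)).map (pr D e)⟩

lemma exists_ind {e e' : Om → ℕ} (θ : Gh D e ≃* Gh D e') :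
    ∃ σ : Equiv.Perm ℕ, ∀ p, θ (zt D e p) = zt D e' (rl σ p) := by
  have s : ∀ e, Function.Surjective (pr D e) := fun e w => ⟨lf D e w, rfl⟩
  have k : (pr D e).ker = ((pr D e').comp θ.toMonoidHom).ker := by
    ext g
    simp only [MonoidHom.mem_ker, MonoidHom.comp_apply, pr_eq_one]
    exact ⟨fun h x => (θ.surjective x).elim fun y hy => hy ▸ (h y).map θ,
      fun h x => (h (θ x)).of_map θ.injective⟩
  let β : W ≃* W := (QuotientGroup.quotientKerEquivOfSurjective _ (s e)).symm.trans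
    ((QuotientGroup.quotientMulEquivOfEq k).trans
      (QuotientGroup.quotientKerEquivOfSurjective _ ((s e').comp θ.surjective)))
  have hβ : ∀ g, β (pr D e g) = pr D e' (θ g) := fun g => by
    have : (QuotientGroup.quotientKerEquivOfSurjective _ (s e)).symm (pr D e g) = g :=
      (MulEquiv.symm_apply_eq _).2 rfl
    simp only [β, MulEquiv.trans_apply, this]
    rfl
  obtain ⟨σ, hσ⟩ := D.rig β
  have u : ∀ a i, D.U (θ (lf D e (D.x (a, i)))).1.w = .ofAdd (Finsupp.single (σ a, i) 1) := by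
    intro a i
    refine Multiplicative.toAdd.injective (Finsupp.ext fun ⟨b, j⟩ => ?_)
    obtain ⟨b, rfl⟩ := σ.surjective b
    rw [show (θ (lf D e (D.x (a, i)))).1.w = β (D.x (a, i)) from (hβ _).symm, hσ, D.U_x]
    simp [Finsupp.single_apply]
  refine ⟨σ, fun p => ?_⟩
  rw [← comm_eq (x := lf D e (D.x (p.1, 0))) (y := lf D e (D.x (p.2.1, p.2.2 + 1)))
    (D.x_comm _ _) (D.U_x _) (D.U_x _), map_commutatorElement]
  refine comm_eq ?_ (u _ _) (u _ _)
  show Commute (pr D e' (θ _)) (pr D e' (θ _))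
  rw [← hβ, ← hβ]
  exact (D.x_comm _ _).map β

variable [Countable W]

theorem topIso_iff {e e' : Om → ℕ} : TopIso (GS D e) (GS D e') ↔ Es e e' := by
  constructor
  · rintro ⟨Θ⟩
    obtain ⟨σ, hσ⟩ := exists_ind ((toGS D e).trans (Θ.toMulEquiv.trans (toGS D e').symm))
    refine ⟨σ, fun m => ((cont_iff Θ.toMulEquiv.toMonoidHom).1 (map_continuous Θ) m).imp
      fun m' hm p hp => not_lt.1 fun k => ?_, fun m => ((cont_iff Θ.symm.toMulEquiv.toMonoidHom).1
        (map_continuous Θ.symm) m).imp fun m' hm p hp => not_lt.1 fun k => ?_⟩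
    · exact (zt_mem.1 (hσ p ▸ hm _ (zt_mem.2 k))).not_ge hp
    · have := hm _ ((zt_mem (p := rl σ p)).2 k)
      rw [← hσ] at this
      exact (zt_mem.1 ((((toGS D e).trans (Θ.toMulEquiv.trans (toGS D e').symm)).symm_apply_apply
        (zt D e p)) ▸ this)).not_ge hp
  · rintro ⟨σ, h1, h2⟩
    obtain ⟨β, hβ⟩ := D.rea σ
    obtain ⟨θ, t1, t2, -⟩ := exists_lift β σ hβ h1 h2
    exact (exists_iso θ t1 t2).elim fun A _ => ⟨A⟩

omit [Countable W] in
lemma exists_Fs (g : Gh D e) (m : ℕ) :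
    ∃ f : Gh D e, {i | f.1.c i ≠ 0}.Finite ∧ f⁻¹ * g ∈ V D e m := by
  have : {i | (if e i ≤ m then g.1.c i else 0) ≠ 0}.Finite :=
    (g.2 m).subset fun i hi => by simpa using hi
  exact ⟨emb e ⟨g.1.w, fun i => if e i ≤ m then g.1.c i else 0⟩ this, this,
    inv_mul_mem_V.2 ⟨rfl, fun i hi => (if_pos hi).symm⟩⟩

lemma measurable_rho (g : B D) (h : {i | g.c i ≠ 0}.Finite) (j : ℕ) :
    Measurable fun e => ap (rho D e (emb e g h)) j := by
  refine measurable_to_countable' fun k => ?_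
  have : (fun e => ap (rho D e (emb e g h)) j) ⁻¹' {k} =
      {e | ac (emb e g h) ((en D).symm j) = (en D).symm k} := by
    ext e
    rw [mem_preimage, ap_rho, mem_singleton_iff, ← (en D).eq_symm_apply, mem_ofPred_eq]
  rw [this]
  simp only [ac_ext, ac, emb, measurableSet_setOfPred]
  refine measurable_const.and (measurable_const.and (.forall fun i => ?_))
  exact (measurable_from_top (f := fun k : ℕ => (if k ≤ ((en D).symm j).1 then
    (g * ((en D).symm j).2.1).c i else ((en D).symm j).2.1.c i) = _)).comp (measurable_pi_apply i)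

theorem measurable_GS : Measurable fun e => GS D e := by
  refine measurable_CS fun U hU => ?_
  have : {e | ∃ g ∈ GS D e, g ∈ U} = ⋃ (g : Fs D) (n : ℕ) (s : Fin n → ℕ)
      (_ : ∀ h : SInf, (∀ i : Fin n, ap h i = s i) → h ∈ U),
      ⋂ i : Fin n, (fun e => ap (rho D e (emb e g.1 g.2)) i) ⁻¹' {s i} := by
    ext e
    simp only [mem_ofPred_eq, mem_iUnion, mem_iInter, mem_preimage, mem_singleton_iff]
    constructor
    · rintro ⟨_, ⟨g, -, rfl⟩, hg⟩
      obtain ⟨n, hn⟩ := SInf_mem_nhds.1 (hU.mem_nhds hg)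
      obtain ⟨m, hm⟩ := (isRep (D := D) (e := e)).h2 n
      obtain ⟨f, f1, f2⟩ := exists_Fs g m
      exact ⟨⟨f.1, f1⟩, n, _, fun h k => hn h fun i hi => k ⟨i, hi⟩,
        fun i => ((NC.agree_iff f g n).1 (hm _ f2) i i.2).symm⟩
    · rintro ⟨g, n, s, h1, h2⟩
      exact ⟨_, ⟨_, trivial, rfl⟩, h1 _ h2⟩
  rw [this]
  exact .iUnion fun g => .iUnion fun n => .iUnion fun s => .iUnion fun _ =>
    .iInter fun i => measurable_rho _ _ i (measurableSet_singleton _)

lemma GS_pro : GS D e ∈ ProCountable := isRep.proCountable V_normal rfl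

end Pool.Agent.P.MP_52b1ec_lc.OR
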