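import Pool.Agent.P.MP_52b1ec_lc.X.Smooth

namespace Pool.Agent.P.MP_52b1ec_lc.Cls

open Topology Filter Set MeasureTheory

/-- `w` codes the isomorphism `θ` -/
def Codes {G H : CS} (w : ℕ → ℕ) (θ : G.toSubgroup ≃ₜ* H.toSubgroup) : Prop :=
  (∀ g : G.toSubgroup, ev true w (ap g) = ap (θ g)) ∧
    ∀ h : H.toSubgroup, ev false w (ap h) = ap (θ.symm h)

lemma Codes.cond {G H : CS} {w : ℕ → ℕ} {θ : G.toSubgroup ≃ₜ* H.toSubgroup} (h : Codes w θ) :
    Cond true w G H ∧ Cond false w H G :=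
  ⟨cond_of_code θ.toMulEquiv h.1 h.2, cond_of_code θ.symm.toMulEquiv h.2 h.1⟩

lemma codes_of_cond {w : ℕ → ℕ} {G H : CS} (h1 : Cond true w G H) (h2 : Cond false w H G) :
    ∃ θ : G.toSubgroup ≃ₜ* H.toSubgroup, Codes w θ := by
  choose f hf hf' using h1.exists_image
  choose k hk hk' using h2.exists_image
  let F : G.toSubgroup → H.toSubgroup := fun g => ⟨f g.1 g.2, hf g.1 g.2⟩
  let K : H.toSubgroup → G.toSubgroup := fun g => ⟨k g.1 g.2, hk g.1 g.2⟩
  have hF : ∀ g, ap (F g).1 = ev true w (ap g.1) := fun g => hf' g.1 g.2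
  have hK : ∀ g, ap (K g).1 = ev false w (ap g.1) := fun g => hk' g.1 g.2
  refine ⟨{ toFun := F, invFun := K, left_inv := ?_, right_inv := ?_, map_mul' := ?_,
            continuous_toFun := ?_, continuous_invFun := ?_ }, fun g => (hF g).symm,
            fun g => (hK g).symm⟩
  · intro g
    apply Subtype.ext
    apply ap_injective
    rw [hK, hF]
    exact h1.2.2.2 g.1 g.2
  · intro g
    apply Subtype.ext
    apply ap_injective
    rw [hF, hK]
    exact h2.2.2.2 g.1 g.2
  · intro a b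
    apply Subtype.ext
    apply ap_injective
    rw [hF]
    have : ap (F a * F b).1 = ap (F a).1 ∘ ap (F b).1 := rfl
    rw [this, hF, hF]
    exact h1.1 a.1 a.2 b.1 b.2
  · apply continuous_induced_rng.2
    rw [isInducing_ap.continuous_iff]
    have : ap ∘ Subtype.val ∘ F = fun g => ev true w (ap g.1) := funext hF
    rw [this]
    exact Continuous.ev' _ continuous_const (continuous_ap.comp continuous_subtype_val)
  · apply continuous_induced_rng.2
    rw [isInducing_ap.continuous_iff]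
    have : ap ∘ Subtype.val ∘ K = fun g => ev false w (ap g.1) := funext hK
    rw [this]
    exact Continuous.ev' _ continuous_const (continuous_ap.comp continuous_subtype_val)

lemma exists_codes {G H : CS} (e : G.toSubgroup ≃ₜ* H.toSubgroup) : ∃ w, Codes w e := by
  obtain ⟨v1, hv1⟩ := exists_half_code (e : G.toSubgroup →* H.toSubgroup) (map_continuous e)
  obtain ⟨v2, hv2⟩ := exists_half_code (e.symm : H.toSubgroup →* G.toSubgroup)
    (map_continuous e.symm)
  let V : Idx → ℕ := fun p => if p.1 then v1 p.2 else v2 p.2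
  let w : ℕ → ℕ := Function.extend cd V 0
  have hw : ∀ p, w (cd p) = V p := fun p => cd_inj.extend_apply _ _ _
  refine ⟨w, fun g => ?_, fun g => ?_⟩
  · funext m
    have e1 : w (cd (true, Sum.inl m)) = v1 (Sum.inl m) := by rw [hw]; simp [V]
    unfold ev
    rw [e1]
    simp only [kap, hw, V, if_true]
    exact hv1 g m
  · funext m
    have e1 : w (cd (false, Sum.inl m)) = v2 (Sum.inl m) := by rw [hw]; simp [V]
    unfold ev
    rw [e1]
    simp only [kap, hw, V, Bool.false_eq_true, if_false]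
    exact hv2 g m

/-- some code of the pair of maps `F` on the sets `A` starts like `s` -/
def Ext (n : ℕ) (s : ℕ → ℕ) (F : Bool → (ℕ → ℕ) → ℕ → ℕ) (A : Bool → CS) : Prop :=
  ∃ w : ℕ → ℕ, (∀ i < n, w i = s i) ∧ ∀ b, ∀ g ∈ A b, ev b w (ap g) = F b (ap g)

lemma kap_congr (b : Bool) (m k : ℕ) {f f' : ℕ → ℕ} (h : ∀ i : Fin k, f i = f' i) :
    kap b m k f = kap b m k f' := by
  unfold kap
  rw [show (fun i : Fin k => f i) = fun i : Fin k => f' i from funext h]

lemma ext_iff {n : ℕ} {s : ℕ → ℕ} {F : Bool → (ℕ → ℕ) → ℕ → ℕ} {A : Bool → CS} :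
    Ext n s F A ↔ ∀ b m, ∃ k, (cd (b, Sum.inl m) < n → s (cd (b, Sum.inl m)) = k) ∧
      ∀ g ∈ A b, ∀ g' ∈ A b, ((∀ i : Fin k, ap g i = ap g' i) → F b (ap g) m = F b (ap g') m) ∧
        (kap b m k (ap g) < n → s (kap b m k (ap g)) = F b (ap g) m) := by
  classical
  constructor
  · rintro ⟨w, hw, hF⟩ b m
    refine ⟨w (cd (b, Sum.inl m)), fun h => (hw _ h).symm, fun g hg g' hg' => ⟨fun h => ?_,
      fun h => ?_⟩⟩
    · rw [← hF b g hg, ← hF b g' hg']
      unfold ev
      rw [kap_congr b m _ h]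
    · rw [← hF b g hg, ← hw _ h]
      rfl
  · intro h
    choose k hk1 hk2 using h
    let V : Idx → ℕ := fun p => Sum.elim (fun m => k p.1 m)
      (fun q : ℕ × (Σ n : ℕ, Fin n → ℕ) =>
        if h : ∃ g ∈ A p.1, kap p.1 q.1 (k p.1 q.1) (ap g) = cd p then F p.1 (ap h.choose) q.1
        else s (cd p)) p.2
    let w : ℕ → ℕ := Function.extend cd V s
    have hw : ∀ p, w (cd p) = V p := fun p => cd_inj.extend_apply _ _ _
    refine ⟨w, fun i hi => ?_, fun b g hg => ?_⟩
    · by_cases hr : ∃ p, cd p = i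
      · obtain ⟨⟨b, m | q⟩, rfl⟩ := hr
        · rw [hw]
          exact (hk1 b m hi).symm
        · rw [hw]
          simp only [V, Sum.elim_inr]
          split_ifs with h
          · obtain ⟨h1, h2⟩ := h.choose_spec
            have := (hk2 b q.1 _ h1 _ h1).2 (lt_of_eq_of_lt h2 hi)
            rw [← this, h2]
          · rfl
      · exact Function.extend_apply' _ _ _ hr
    · funext m
      unfold ev
      have e1 : w (cd (b, Sum.inl m)) = k b m := hw _
      rw [e1]
      have hex : ∃ g' ∈ A b, kap b m (k b m) (ap g') = kap b m (k b m) (ap g) := ⟨g, hg, rfl⟩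
      have e2 : w (kap b m (k b m) (ap g)) = F b (ap hex.choose) m :=
        (hw _).trans (dif_pos hex)
      rw [e2]
      obtain ⟨h1, h2⟩ := hex.choose_spec
      refine (hk2 b m _ h1 _ hg).1 fun i => ?_
      have h3 := cd_inj h2
      simp only [Prod.mk.injEq, Sum.inr.injEq, Sigma.mk.injEq, heq_eq_eq, true_and] at h3
      exact congrFun h3 i

lemma measurableSet_ext {Ω : Type*} [MeasurableSpace Ω] (n : ℕ) {s w : Ω → ℕ → ℕ}
    (hs : Measurable s) (hw : Measurable w) {F : (ℕ → ℕ) → Bool → (ℕ → ℕ) → ℕ → ℕ}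
    (hF : ∀ b, Continuous fun p : (ℕ → ℕ) × (ℕ → ℕ) => F p.1 b p.2) {A : Ω → Bool → CS}
    (hA : ∀ b, Measurable fun ω => A ω b) :
    MeasurableSet {ω | Ext n (s ω) (F (w ω)) (A ω)} := by
  simp only [ext_iff, ofPred_forall, ofPred_exists, ofPred_and]
  refine MeasurableSet.iInter fun b => MeasurableSet.iInter fun m =>
    MeasurableSet.iUnion fun k => MeasurableSet.inter ?_ ?_
  · refine MeasurableSet.iInter fun _ => ?_
    exact ((measurable_pi_apply _).comp hs) (measurableSet_singleton k)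
  · have c1 : Continuous fun p : ((ℕ → ℕ) × (ℕ → ℕ)) × SInf × SInf => ap p.2.1 :=
      continuous_ap.comp (by fun_prop)
    have c2 : Continuous fun p : ((ℕ → ℕ) × (ℕ → ℕ)) × SInf × SInf => ap p.2.2 :=
      continuous_ap.comp (by fun_prop)
    have c3 : Continuous fun p : ((ℕ → ℕ) × (ℕ → ℕ)) × SInf × SInf => kap b m k (ap p.2.1) :=
      (continuous_kap b m).comp (continuous_const.prodMk c1)
    have c4 : Continuous fun p : ((ℕ → ℕ) × (ℕ → ℕ)) × SInf × SInf => F p.1.2 b (ap p.2.1) m :=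
      (continuous_apply m).comp ((hF b).comp ((by fun_prop : Continuous
        fun p : ((ℕ → ℕ) × (ℕ → ℕ)) × SInf × SInf => p.1.2).prodMk c1))
    have c5 : Continuous fun p : ((ℕ → ℕ) × (ℕ → ℕ)) × SInf × SInf => F p.1.2 b (ap p.2.2) m :=
      (continuous_apply m).comp ((hF b).comp ((by fun_prop : Continuous
        fun p : ((ℕ → ℕ) × (ℕ → ℕ)) × SInf × SInf => p.1.2).prodMk c2))
    have c6 : Continuous fun p : ((ℕ → ℕ) × (ℕ → ℕ)) × SInf × SInf =>
        p.1.1 (kap b m k (ap p.2.1)) :=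
      continuous_evalN.comp ((by fun_prop : Continuous
        fun p : ((ℕ → ℕ) × (ℕ → ℕ)) × SInf × SInf => p.1.1).prodMk c3)
    have c7 : Continuous fun p : ((ℕ → ℕ) × (ℕ → ℕ)) × SInf × SInf =>
        (fun i : Fin k => ap p.2.1 i) := continuous_pi fun i => (continuous_apply _).comp c1
    have c8 : Continuous fun p : ((ℕ → ℕ) × (ℕ → ℕ)) × SInf × SInf =>
        (fun i : Fin k => ap p.2.2 i) := continuous_pi fun i => (continuous_apply _).comp c2
    have hW := (isClosed_discrete {q : ((Fin k → ℕ) × (Fin k → ℕ)) × (ℕ × ℕ) × (ℕ × ℕ) |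
      ((∀ i, q.1.1 i = q.1.2 i) → q.2.1.1 = q.2.1.2) ∧ (q.2.2.1 < n → q.2.2.2 = q.2.1.1)}).preimage
      ((c7.prodMk c8).prodMk ((c4.prodMk c5).prodMk (c3.prodMk c6)))
    have := measurableSet_all2 (hs.prodMk hw) (hA b) (hA b) hW
    convert this using 1
    ext ω
    simp only [mem_iInter, mem_ofPred_eq, mem_preimage]

/-- the level of an index -/
def lev (p : Idx) : ℕ := Sum.elim id Prod.fst p.2

lemma exists_lev (n : ℕ) : ∃ M, ∀ p, cd p < n → lev p < M := by
  have : (cd ⁻¹' Set.Iio n).Finite := (Set.finite_Iio n).preimage cd_inj.injOn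
  obtain ⟨M, hM⟩ := (this.image lev).bddAbove
  exact ⟨M + 1, fun p hp => Nat.lt_succ_of_le (hM ⟨p, hp, rfl⟩)⟩

lemma exists_glue (n : ℕ) : ∃ M, ∀ w u : ℕ → ℕ, ∃ v : ℕ → ℕ, (∀ i < n, v i = w i) ∧
    ∀ b f m, (m < M → ev b v f m = ev b w f m) ∧ (M ≤ m → ev b v f m = ev b u f m) := by
  classical
  obtain ⟨M, hM⟩ := exists_lev n
  refine ⟨M, fun w u => ?_⟩
  let v : ℕ → ℕ := fun x => if ∃ p, cd p = x ∧ M ≤ lev p then u x else w x
  have h1 : ∀ p, lev p < M → v (cd p) = w (cd p) := fun p hp => if_neg (by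
    rintro ⟨q, hq, hq'⟩
    rw [cd_inj hq] at hq'
    omega)
  have h2 : ∀ p, M ≤ lev p → v (cd p) = u (cd p) := fun p hp => if_pos ⟨p, rfl, hp⟩
  refine ⟨v, fun i hi => if_neg ?_, fun b f m => ⟨fun h => ?_, fun h => ?_⟩⟩
  · rintro ⟨q, rfl, hq'⟩
    have := hM q hi
    omega
  · unfold ev
    rw [h1 (b, Sum.inl m) h]
    exact h1 _ h
  · unfold ev
    rw [h2 (b, Sum.inl m) h]
    exact h2 _ h

/-- the automorphism group is separable for uniform convergence -/
def SepAut (G : CS) : Prop :=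
  ∃ D : Set (G.toSubgroup ≃ₜ* G.toSubgroup), D.Countable ∧ ∀ (α : G.toSubgroup ≃ₜ* G.toSubgroup) k,
    ∃ β ∈ D, ∀ g, (α g)⁻¹ * β g ∈ stab G.toSubgroup k ∧
      (α.symm g)⁻¹ * β.symm g ∈ stab G.toSubgroup k

/-- the composite of two coded maps -/
noncomputable def cmp (u w : ℕ → ℕ) (b : Bool) (f : ℕ → ℕ) : ℕ → ℕ :=
  if b then ev true w (ev true u f) else ev false u (ev false w f)

lemma continuous_cmp (u : ℕ → ℕ) (b : Bool) :
    Continuous fun p : (ℕ → ℕ) × (ℕ → ℕ) => cmp u p.1 b p.2 := by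
  cases b
  · exact Continuous.ev' false continuous_const (continuous_ev false)
  · exact Continuous.ev' true continuous_fst (Continuous.ev' true continuous_const continuous_snd)

lemma ext_cmp {G H : CS} {θ : G.toSubgroup ≃ₜ* H.toSubgroup} {β : G.toSubgroup ≃ₜ* G.toSubgroup}
    {u w : ℕ → ℕ} (hw : Codes w θ) (hu : Codes u β) {n : ℕ} {s : ℕ → ℕ} :
    Ext n s (cmp u w) (fun b => if b then G else H) ↔
      ∃ v, (∀ i < n, v i = s i) ∧ Codes v (β.trans θ) := by
  have e1 : ∀ g : G.toSubgroup, cmp u w true (ap g) = ap ((β.trans θ) g) := fun g => by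
    show ev true w (ev true u (ap g)) = _
    rw [hu.1, hw.1]
    rfl
  have e2 : ∀ g : H.toSubgroup, cmp u w false (ap g) = ap ((β.trans θ).symm g) := fun g => by
    show ev false u (ev false w (ap g)) = _
    rw [hw.2, hu.2]
    rfl
  refine exists_congr fun v => and_congr_right fun _ => ⟨fun h => ⟨fun g => ?_, fun g => ?_⟩, ?_⟩
  · exact (h true g.1 g.2).trans (e1 g)
  · exact (h false g.1 g.2).trans (e2 g)
  · rintro ⟨h1, h2⟩ (_ | _) g hg
    · exact (h2 ⟨g, hg⟩).trans (e2 ⟨g, hg⟩).symm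
    · exact (h1 ⟨g, hg⟩).trans (e1 ⟨g, hg⟩).symm

lemma agree_of_stab {G : Subgroup SInf} {x y : G} {k m : ℕ} (h : x⁻¹ * y ∈ stab G k)
    (hm : m < k) : ap x m = ap y m := by
  have h3 : ap (x.1⁻¹ * y.1) m = m := h m hm
  rw [ap_mul] at h3
  have := congrArg (ap x.1) h3
  rw [ap_ap_inv] at this
  exact this.symm

lemma exists_near {G H : CS} {D : Set (G.toSubgroup ≃ₜ* G.toSubgroup)}
    (hD : ∀ (α : G.toSubgroup ≃ₜ* G.toSubgroup) k,
      ∃ β ∈ D, ∀ g, (α g)⁻¹ * β g ∈ stab G.toSubgroup k ∧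
        (α.symm g)⁻¹ * β.symm g ∈ stab G.toSubgroup k)
    (θ θ' : G.toSubgroup ≃ₜ* H.toSubgroup) {w : ℕ → ℕ} (hw : Codes w θ') (n : ℕ) :
    ∃ β ∈ D, ∃ v, (∀ i < n, v i = w i) ∧ Codes v (β.trans θ) := by
  obtain ⟨M, hM⟩ := exists_glue n
  obtain ⟨k, hk⟩ := (hom_continuous_iff (θ : G.toSubgroup →* H.toSubgroup)).1
    (map_continuous θ) M
  obtain ⟨β, hβ, h⟩ := hD (θ'.trans θ.symm) (max k M)
  obtain ⟨u, hu⟩ := exists_codes (β.trans θ)
  obtain ⟨v, hv, hv'⟩ := hM w u
  refine ⟨β, hβ, v, hv, fun g => ?_, fun g => ?_⟩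
  · funext m
    rcases lt_or_ge m M with hm | hm
    · rw [(hv' _ _ _).1 hm, hw.1]
      refine agree_of_stab (k := M) ?_ hm
      have h1 := hk _ (fun i hi => (h g).1 i (lt_of_lt_of_le hi (le_max_left _ _)))
      have h2 : (θ : G.toSubgroup →* H.toSubgroup) (((θ'.trans θ.symm) g)⁻¹ * β g) =
          (θ' g)⁻¹ * (β.trans θ) g := by simp
      rw [h2] at h1
      exact h1
    · rw [(hv' _ _ _).2 hm, hu.1]
  · funext m
    rcases lt_or_ge m M with hm | hm
    · rw [(hv' _ _ _).1 hm, hw.2]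
      have h1 := agree_of_stab (h (θ.symm g)).2 (lt_of_lt_of_le hm (le_max_right _ _))
      have h2 : (θ'.trans θ.symm).symm (θ.symm g) = θ'.symm g := by
        apply (θ'.trans θ.symm).injective
        simp
      rw [h2] at h1
      exact h1
    · rw [(hv' _ _ _).2 hm, hu.2]

lemma isClosed_cond (b : Bool) (G H : CS) : IsClosed {w | Cond b w G H} := by
  have c : ∀ f, Continuous fun w => ev b w f := fun f =>
    Continuous.ev' b continuous_id continuous_const
  simp only [Cond, ofPred_and]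
  refine IsClosed.inter ?_ (IsClosed.inter (isClosed_eq (c _) continuous_const)
    (IsClosed.inter ?_ ?_))
  · simp only [ofPred_forall]
    exact isClosed_iInter fun g => isClosed_iInter fun _ => isClosed_iInter fun h =>
      isClosed_iInter fun _ => isClosed_eq (c _) (continuous_compN (c _) (c _))
  · simp only [forall_exists_index, and_imp]
    rw [ofPred_forall]
    refine isClosed_iInter fun m => ?_
    rw [ofPred_forall]
    refine isClosed_iInter fun s => ?_
    rw [ofPred_forall]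
    refine isClosed_iInter fun g => ?_
    rw [ofPred_forall]
    refine isClosed_iInter fun _ => ?_
    have h1 : Continuous fun w : ℕ → ℕ => (fun i : Fin m => ev b w (ap g) i) :=
      continuous_pi fun i => (continuous_apply _).comp (c _)
    exact (isClosed_discrete {q : Fin m → ℕ | (∀ i, q i = s i) →
      ∃ h ∈ H, ∀ i : Fin m, ap h i = s i}).preimage h1
  · simp only [ofPred_forall]
    exact isClosed_iInter fun g => isClosed_iInter fun _ =>
      isClosed_eq (Continuous.ev' _ continuous_id (c _)) continuous_const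

theorem measurableSet_class_of_sepAut {G : CS} (hG : SepAut G) :
    MeasurableSet {H : CS | TopIso G H} := by
  borelize SInf
  obtain ⟨D, hDc, hD⟩ := hG
  obtain ⟨c, hc, hci⟩ := lus_code
  have : SecondCountableTopology G.toSubgroup :=
    TopologicalSpace.Subtype.secondCountableTopology (G.toSubgroup : Set SInf)
  let d : ℕ → G.toSubgroup := TopologicalSpace.denseSeq G.toSubgroup
  have hd : DenseRange d := TopologicalSpace.denseRange_denseSeq G.toSubgroup
  choose u hu using fun β : G.toSubgroup ≃ₜ* G.toSubgroup => exists_codes β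
  have hp : Measurable lus_pi := measurable_CS fun U hU => (lus_open hU).measurableSet
  have hq : Measurable (fun p : (ℕ → SInf) × (ℕ → ℕ) => lus_pi p.1) := hp.comp measurable_fst
  let T : Set ((ℕ → SInf) × (ℕ → ℕ)) :=
    ({p | Cond true p.2 G (lus_pi p.1)} ∩ {p | Cond false p.2 (lus_pi p.1) G}) ∩
      ({p | ∀ j, ap (p.1 j) = ev true p.2 (ap (d j))} ∩ ⋂ n, ⋂ a, ⋂ β ∈ D,
        ({p | Ext (n + 1) (Function.update p.2 n a) (cmp (u β) p.2)
          (fun b => if b then G else lus_pi p.1)}ᶜ ∪ {p | p.2 n ≤ a}))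
  have hT : MeasurableSet T := by
    refine ((measurableSet_cond true measurable_snd measurable_const hq).inter
      (measurableSet_cond false measurable_snd hq measurable_const)).inter
      (MeasurableSet.inter ?_ ?_)
    · simp only [ofPred_forall]
      refine MeasurableSet.iInter fun j => IsClosed.measurableSet (isClosed_eq ?_ ?_)
      · exact continuous_ap.comp (by fun_prop)
      · exact Continuous.ev' true continuous_snd continuous_const
    · refine MeasurableSet.iInter fun n => MeasurableSet.iInter fun a =>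
        MeasurableSet.biInter hDc fun β _ => MeasurableSet.union (MeasurableSet.compl ?_) ?_
      · refine measurableSet_ext (n + 1) ?_ measurable_snd (continuous_cmp (u β)) fun b => ?_
        · exact (continuous_snd.update n continuous_const).measurable
        · cases b
          · exact hq
          · exact measurable_const
      · exact measurableSet_le ((measurable_pi_apply n).comp measurable_snd) measurable_const
  have key : ∀ (z : ℕ → SInf) (w : ℕ → ℕ) (θ : G.toSubgroup ≃ₜ* (lus_pi z).toSubgroup),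
      Codes w θ → ((z, w) ∈ ⋂ n, ⋂ a, ⋂ β ∈ D,
        ({p : (ℕ → SInf) × (ℕ → ℕ) | Ext (n + 1) (Function.update p.2 n a) (cmp (u β) p.2)
          (fun b => if b then G else lus_pi p.1)}ᶜ ∪ {p | p.2 n ≤ a}) ↔
        ∀ v, (Cond true v G (lus_pi z) ∧ Cond false v (lus_pi z) G) →
          ∀ n, (∀ i < n, v i = w i) → w n ≤ v n) := by
    intro z w θ hw
    simp only [mem_iInter, mem_union, mem_compl_iff, mem_ofPred_eq, ext_cmp hw (hu _)]
    constructor
    · rintro h v ⟨h1, h2⟩ n hn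
      obtain ⟨θ', hv⟩ := codes_of_cond h1 h2
      obtain ⟨β, hβ, v', hv', hc'⟩ := exists_near hD θ θ' hv (n + 1)
      refine (h n (v n) β hβ).resolve_left (not_not.2 ⟨v', fun i hi => ?_, hc'⟩)
      rw [hv' i hi]
      rcases (Nat.lt_succ_iff.1 hi).eq_or_lt with rfl | h'
      · simp
      · rw [Function.update_of_ne h'.ne, hn i h']
    · intro h n a β _
      rw [← imp_iff_not_or]
      rintro ⟨v, hv, hc'⟩
      have := h v hc'.cond n fun i hi => by
        rw [hv i (Nat.lt_succ_of_lt hi), Function.update_of_ne hi.ne]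
      rwa [hv n (Nat.lt_succ_self n), Function.update_self] at this
  have hinj : InjOn (fun p : (ℕ → SInf) × (ℕ → ℕ) => c (lus_pi p.1)) T := by
    rintro ⟨z, w⟩ ⟨⟨h1, h2⟩, h3, h4⟩ ⟨z', w'⟩ ⟨⟨h1', h2'⟩, h3', h4'⟩ e
    have e' : lus_pi z = lus_pi z' := hci e
    obtain ⟨θ, hθ⟩ := codes_of_cond h1 h2
    obtain ⟨θ', hθ'⟩ := codes_of_cond h1' h2'
    have k1 := (key z w θ hθ).1 h4 w' (e' ▸ ⟨h1', h2'⟩)
    have k2 := (key z' w' θ' hθ').1 h4' w (e' ▸ ⟨h1, h2⟩)
    have : w = w' := by
      funext n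
      induction n using Nat.strong_induction_on with
      | _ n ih => exact le_antisymm (k1 n fun i hi => (ih i hi).symm) (k2 n ih)
    subst this
    exact Prod.ext (funext fun j => ap_injective ((h3 j).trans (h3' j).symm)) rfl
  have him := hc (hT.image_of_measurable_injOn (hc.comp hq) hinj)
  convert him using 1
  ext H
  constructor
  · intro hH
    obtain ⟨w, ⟨h1, h2⟩, hl⟩ := exists_lexLeast
      ((isClosed_cond true G H).inter (isClosed_cond false H G)) (cond_of_topIso hH)
    obtain ⟨θ, hθ⟩ := codes_of_cond h1 h2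
    have e : lus_pi (fun j => (θ (d j)).1) = H := by
      refine SetLike.ext fun g => ?_
      rw [lus_mem]
      constructor
      · intro hg
        refine closure_minimal (t := (H : Set SInf)) ?_ H.isClosed' hg
        refine (Subgroup.closure_le H.toSubgroup).2 ?_
        rintro _ ⟨n, rfl⟩
        exact (θ (d n)).2
      · intro hg
        have h1 := image_closure_subset_closure_image
          (continuous_subtype_val.comp (map_continuous θ)) (mem_image_of_mem _ (hd (θ.symm ⟨g, hg⟩)))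
        simp only [Function.comp, ContinuousMulEquiv.apply_symm_apply] at h1
        refine closure_mono ?_ h1
        rintro _ ⟨_, ⟨n, rfl⟩, rfl⟩
        exact Subgroup.subset_closure ⟨n, rfl⟩
    generalize hz : (fun j => (θ (d j)).1) = z at e
    subst e
    refine ⟨(z, w), ⟨⟨h1, h2⟩, fun j => ?_, (key z w θ hθ).2 hl⟩, rfl⟩
    rw [hθ.1]
    exact congrArg ap (congrFun hz j).symm
  · rintro ⟨⟨z, w⟩, ⟨⟨h1, h2⟩, -⟩, e⟩
    obtain rfl : lus_pi z = H := hci e
    exact topIso_of_cond h1 h2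

lemma exists_reps {A B : Type*} (Φ : A → B) (h : (range Φ).Countable) :
    ∃ D : Set A, D.Countable ∧ ∀ a, ∃ d ∈ D, Φ d = Φ a := by
  have := h.to_subtype
  exact ⟨range fun y : range Φ => y.2.choose, countable_range _,
    fun a => ⟨_, ⟨⟨Φ a, a, rfl⟩, rfl⟩, Exists.choose_spec (⟨a, rfl⟩ : Φ a ∈ range Φ)⟩⟩

theorem sepAut_of_fg {G : CS} (hG : ∀ U ∈ 𝓝 (1 : G.toSubgroup), ∃ N : Subgroup G.toSubgroup,
    N.Normal ∧ IsOpen (N : Set G.toSubgroup) ∧ (N : Set G.toSubgroup) ⊆ U ∧
      ∃ S : Finset G.toSubgroup, Subgroup.closure (S : Set G.toSubgroup) ⊔ N = ⊤) :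
    SepAut G := by
  have : SecondCountableTopology G.toSubgroup :=
    TopologicalSpace.Subtype.secondCountableTopology (G.toSubgroup : Set SInf)
  choose N hn ho hs S hS using fun k => hG _ (stab_mem_nhds G.toSubgroup k)
  have cq : ∀ k, Countable (G.toSubgroup ⧸ N k) := fun k => by
    have := QuotientGroup.discreteTopology (ho k)
    exact countable_of_Lindelof_of_discrete
  have hc : ∀ k, {φ : G.toSubgroup →* G.toSubgroup ⧸ N k | ∃ l, N l ≤ φ.ker}.Countable := by
    intro k
    rw [ofPred_exists]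
    refine countable_iUnion fun l => ?_
    refine MapsTo.countable_of_injOn (f := fun φ (s : S l) => φ s) (mapsTo_univ _ _) ?_
      countable_univ
    intro φ hφ ψ hψ e
    have : (⊤ : Subgroup G.toSubgroup) ≤ φ.eqLocus ψ := by
      rw [← hS l]
      refine sup_le ((Subgroup.closure_le _).2 fun s hs => congrFun e ⟨s, hs⟩) fun g hg => ?_
      exact (hφ hg).trans (hψ hg).symm
    exact MonoidHom.ext fun g => this trivial
  have hm : ∀ k (α : G.toSubgroup ≃ₜ* G.toSubgroup), ∃ l, N l ≤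
      ((QuotientGroup.mk' (N k)).comp (α : G.toSubgroup →* G.toSubgroup)).ker := by
    intro k α
    have h1 : α ⁻¹' (N k) ∈ 𝓝 (1 : G.toSubgroup) :=
      ((ho k).preimage (map_continuous α)).mem_nhds (by simp)
    obtain ⟨l, hl⟩ := sub_mem_nhds.1 h1
    exact ⟨l, fun g hg => (QuotientGroup.eq_one_iff _).2 (hl g (hs l hg))⟩
  have hr : ∀ k, ∃ D : Set (G.toSubgroup ≃ₜ* G.toSubgroup), D.Countable ∧
      ∀ α : G.toSubgroup ≃ₜ* G.toSubgroup, ∃ β ∈ D, ∀ g, (α g)⁻¹ * β g ∈ N k ∧ (α.symm g)⁻¹ * β.symm g ∈ N k := by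
    intro k
    obtain ⟨D, hD, h⟩ := exists_reps (fun α : G.toSubgroup ≃ₜ* G.toSubgroup =>
      ((QuotientGroup.mk' (N k)).comp (α : G.toSubgroup →* G.toSubgroup),
        (QuotientGroup.mk' (N k)).comp (α.symm : G.toSubgroup →* G.toSubgroup)))
      (((hc k).prod (hc k)).mono (by
        rintro _ ⟨α, rfl⟩
        exact ⟨hm k α, hm k α.symm⟩))
    refine ⟨D, hD, fun α => ?_⟩
    obtain ⟨β, hβ, e⟩ := h α
    obtain ⟨e1, e2⟩ := Prod.mk.inj e
    exact ⟨β, hβ, fun g => ⟨QuotientGroup.eq.1 (DFunLike.congr_fun e1 g).symm,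
      QuotientGroup.eq.1 (DFunLike.congr_fun e2 g).symm⟩⟩
  choose D hD h using hr
  refine ⟨⋃ k, D k, countable_iUnion hD, fun α k => ?_⟩
  obtain ⟨β, hβ, e⟩ := h k α
  exact ⟨β, mem_iUnion.2 ⟨k, hβ⟩, fun g => ⟨hs k (e g).1, hs k (e g).2⟩⟩

/-- the isomorphism class of an inverse limit of finitely generated groups is Borel -/
theorem measurableSet_class {G : CS} (hG : ∀ U ∈ 𝓝 (1 : G.toSubgroup),
    ∃ N : Subgroup G.toSubgroup, N.Normal ∧ IsOpen (N : Set G.toSubgroup) ∧
      (N : Set G.toSubgroup) ⊆ U ∧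
      ∃ S : Finset G.toSubgroup, Subgroup.closure (S : Set G.toSubgroup) ⊔ N = ⊤) :
    MeasurableSet {H : CS | TopIso G H} :=
  measurableSet_class_of_sepAut (sepAut_of_fg hG)

/-- a class all of whose isomorphism classes are Borel is not analytic complete -/
theorem not_analyticComplete {C : Set CS} (hC : ∀ G ∈ C, MeasurableSet {H : CS | TopIso G H}) :
    ¬ AnalyticComplete (IsoOn C) := by
  intro hE
  obtain ⟨f, hf, h⟩ := hE.2 (ℕ → Bool) EE isAnalyticEqv_EE
  apply not_measurableSet_DD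
  rcases DD.eq_empty_or_nonempty with e | ⟨a, ha⟩
  · rw [e]; exact MeasurableSet.empty
  · have : DD = (fun x => (f x).1) ⁻¹' {H | TopIso (f a).1 H} := by
      ext x
      refine Iff.trans ?_ (h a x)
      constructor
      · intro hx; exact Or.inr ⟨ha, hx⟩
      · rintro (rfl | hx)
        · exact ha
        · exact hx.2
    rw [this]
    exact (measurable_subtype_coe.comp hf) (hC _ (f a).2)

end Pool.Agent.P.MP_52b1ec_lc.Cls

namespace Pool.Agent.P.MP_52b1ec_lc.FG

open Topology Filter Set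

theorem measurableSet_class {G : CS} (h1 : G ∈ ProCountable) {k : ℕ∞}
    (h2 : ∀ M, ∃ S : Finset G.toSubgroup, (S.card : ℕ∞) ≤ k ∧
      Subgroup.closure ((S : Set G.toSubgroup) ∪ stab G.toSubgroup M) = ⊤) :
    MeasurableSet {H | TopIso G H} := by
  refine Cls.measurableSet_class fun U hU => ?_
  obtain ⟨N, hN, ho, hs⟩ := h1 U hU
  obtain ⟨M, hM⟩ := sub_mem_nhds.1 (ho.mem_nhds N.one_mem)
  obtain ⟨S, -, hS⟩ := h2 M
  refine ⟨N, hN, ho, hs, S, eq_top_iff.2 (hS.ge.trans ((Subgroup.closure_le _).2 ?_))⟩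
  rintro g (hg | hg)
  · exact Subgroup.mem_sup_left (Subgroup.subset_closure hg)
  · exact Subgroup.mem_sup_right (hM g hg)

theorem not_complete' {C : Set CS} (h : ∀ G ∈ C, MeasurableSet {H | TopIso G H}) :
    ¬ AnalyticComplete (IsoOn C) := Cls.not_analyticComplete h

end Pool.Agent.P.MP_52b1ec_lc.FG
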