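import Pool.Agent.P.MP_52b1ec_lc.Defs

namespace Pool.Agent.P.MP_52b1ec_lc

/-- Closed subgroups in which the open normal subgroups whose quotient is generated by a finite
set of at most `k` elements form a base at the identity. -/
def ProGen (k : ℕ∞) : Set (ClosedSubgroup SInf) :=
  {G | ∀ U ∈ nhds (1 : G.toSubgroup), ∃ (N : Subgroup G.toSubgroup) (_ : N.Normal),
    IsOpen (N : Set G.toSubgroup) ∧ (N : Set G.toSubgroup) ⊆ U ∧
      ∃ S : Finset (G.toSubgroup ⧸ N), (S.card : ℕ∞) ≤ k ∧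
        Subgroup.closure (S : Set (G.toSubgroup ⧸ N)) = ⊤}

end Pool.Agent.P.MP_52b1ec_lc
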