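import Pool.Agent.P.MP_52b1ec_lc.Basic

namespace Pool.Agent.P.MP_52b1ec_lc.FG

open Topology Filter Set MeasureTheory
open scoped ENNReal

/-- analytic sets are measurable for the completion of every finite measure -/
lemma analytic_null {X : Type} [TopologicalSpace X] [PolishSpace X] [MeasurableSpace X]
    [BorelSpace X] (μ : Measure X) [IsFiniteMeasure μ] {A : Set X} (hA : AnalyticSet A) :
    NullMeasurableSet A μ := by
  rw [AnalyticSet] at hA
  rcases hA with rfl | ⟨φ, hφ, rfl⟩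
  · exact nullMeasurableSet_empty
  let P : List ℕ → Set X := fun l => φ '' {z | PiNat.res z l.length = l}
  let Q : List ℕ → Set X := fun l => toMeasurable μ (P l) ∩ closure (P l)
  have hQ : ∀ l, MeasurableSet (Q l) := fun l =>
    (measurableSet_toMeasurable _ _).inter isClosed_closure.measurableSet
  have hPQ : ∀ l, P l ⊆ Q l := fun l => subset_inter (subset_toMeasurable _ _) subset_closure
  let Z : List ℕ → Set X := fun l => Q l \ ⋃ k, Q (k :: l)
  have hZ : ∀ l, μ (Z l) = 0 := by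
    intro l
    have hm : MeasurableSet (Z l) := (hQ l).diff (.iUnion fun k => hQ _)
    have h1 : P l ∩ Z l = ∅ := by
      rw [eq_empty_iff_forall_notMem]
      rintro _ ⟨⟨z, hz, rfl⟩, -, h⟩
      refine h (mem_iUnion.2 ⟨z l.length, hPQ _ ⟨z, ?_, rfl⟩⟩)
      show z l.length :: PiNat.res z l.length = _
      rw [hz]
    have h2 := Measure.measure_toMeasurable_inter hm (measure_ne_top μ (P l))
    rw [h1, measure_empty] at h2
    exact measure_mono_null (fun x hx => mem_inter hx.1.1 hx) h2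
  have key : Q [] \ ⋃ l, Z l ⊆ range φ := by
    rintro x ⟨h0, h1⟩
    have h2 : ∀ l, ∃ k, x ∈ Q l → x ∈ Q (k :: l) := by
      intro l
      by_cases h : x ∈ Q l
      · have : x ∈ ⋃ k, Q (k :: l) := by
          by_contra hc
          exact h1 (mem_iUnion.2 ⟨l, h, hc⟩)
        exact (mem_iUnion.1 this).imp fun k hk _ => hk
      · exact ⟨0, fun h' => (h h').elim⟩
    choose k hk using h2
    let L : ℕ → List ℕ := fun n => Nat.rec [] (fun _ l => k l :: l) n
    have hL : ∀ n, PiNat.res (fun j => k (L j)) n = L n ∧ x ∈ Q (L n) := by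
      intro n
      induction n with
      | zero => exact ⟨rfl, h0⟩
      | succ n ih => exact ⟨by rw [PiNat.res_succ, ih.1], hk _ ih.2⟩
    refine ⟨fun j => k (L j), ?_⟩
    by_contra hne
    obtain ⟨W, hW, hWc, hWs⟩ := exists_mem_nhds_isClosed_subset
      (isOpen_compl_singleton.mem_nhds (show φ _ ∈ ({x}ᶜ : Set X) from hne))
    obtain ⟨n, hn⟩ := baire_mem_nhds.1 (hφ.continuousAt hW)
    refine hWs (closure_minimal ?_ hWc (hL n).2.2) rfl
    rintro _ ⟨z, hz, rfl⟩
    refine hn z fun i hi => ?_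
    rw [← (hL n).1, mem_ofPred_eq, PiNat.res_length] at hz
    exact PiNat.res_eq_res.1 hz hi
  have h3 : range φ ⊆ Q [] := by
    rintro _ ⟨z, rfl⟩
    exact hPQ _ ⟨z, rfl, rfl⟩
  refine (hQ []).nullMeasurableSet.congr (ae_eq_set.2 ⟨?_, ?_⟩)
  · refine measure_mono_null (fun x hx => ?_) (measure_iUnion_null hZ)
    by_contra hc
    exact hx.2 (key ⟨hx.1, hc⟩)
  · rw [sdiff_eq_empty.2 h3, measure_empty]

/-- Lusin's theorem -/
lemma lusin {X Y : Type} [TopologicalSpace X] [PolishSpace X] [MeasurableSpace X] [BorelSpace X]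
    [TopologicalSpace Y] [SecondCountableTopology Y] [MeasurableSpace Y] [BorelSpace Y]
    (μ : Measure X) [IsFiniteMeasure μ] (h0 : μ univ ≠ 0) {f : X → Y} (hf : Measurable f) :
    ∃ K, IsClosed K ∧ μ K ≠ 0 ∧ ContinuousOn f K := by
  obtain ⟨b, cb, -, hb⟩ := TopologicalSpace.exists_countable_basis Y
  have := cb.to_subtype
  obtain ⟨ε, ε0, ε1⟩ := ENNReal.exists_pos_sum_of_countable h0 (b × Bool)
  let A : b × Bool → Set X := fun p => if p.2 then f ⁻¹' p.1 else (f ⁻¹' p.1)ᶜ
  have hA : ∀ p, MeasurableSet (A p) := by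
    rintro ⟨U, _ | _⟩
    · exact (hf (hb.isOpen U.2).measurableSet).compl
    · exact hf (hb.isOpen U.2).measurableSet
  choose F F1 F2 F3 using fun p => (hA p).exists_isClosed_sdiff_lt (measure_ne_top μ _)
    (ε := ε p) (by simpa using (ε0 p).ne')
  refine ⟨⋂ U : b, (F (U, true) ∪ F (U, false)),
    isClosed_iInter fun U => (F2 _).union (F2 _), fun hK => ?_, fun x hx => ?_⟩
  · have h1 : univ ⊆ (⋂ U : b, (F (U, true) ∪ F (U, false))) ∪ ⋃ p, (A p \ F p) := by
      intro x _
      by_contra hc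
      simp only [mem_union, mem_iInter, mem_iUnion, Set.mem_sdiff, not_or, not_forall, not_exists,
        not_and, not_not] at hc
      obtain ⟨⟨U, h1, h2⟩, h3⟩ := hc
      by_cases h : x ∈ f ⁻¹' U
      · exact h1 (h3 (U, true) h)
      · exact h2 (h3 (U, false) h)
    have h2 := (measure_mono (μ := μ) h1).trans (measure_union_le _ _)
    rw [hK, zero_add] at h2
    exact (h2.trans ((measure_iUnion_le _).trans
      (ENNReal.tsum_le_tsum fun p => (F3 p).le))).not_gt ε1
  · intro W hW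
    obtain ⟨U, hU, h1, h2⟩ := hb.mem_nhds_iff.1 hW
    have h3 : (F (⟨U, hU⟩, false))ᶜ ∈ 𝓝 x :=
      (F2 _).isOpen_compl.mem_nhds fun h => F1 _ h h1
    refine mem_map.2 (mem_of_superset (inter_mem_nhdsWithin _ h3) fun y hy => h2 ?_)
    exact F1 (⟨U, hU⟩, true) ((mem_iInter.1 hy.1 ⟨U, hU⟩).resolve_right hy.2)

section
variable {H : Type} [AddCommGroup H] [TopologicalSpace H] [IsTopologicalAddGroup H]
  [CompactSpace H] [PolishSpace H] [MeasurableSpace H] [BorelSpace H]
  {μ : Measure (ℕ → H)} {ν : Measure H} [μ.IsAddHaarMeasure] [ν.IsAddHaarMeasure]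

omit [CompactSpace H] [PolishSpace H] [MeasurableSpace H] [BorelSpace H] in
lemma cont_sh (n : ℕ) : Continuous fun p : (ℕ → H) × H => (Pi.single n p.2 : ℕ → H) + p.1 :=
  ((continuous_single n).comp continuous_snd).add continuous_fst

variable (ν) in
lemma fub (n : ℕ) {N : Set (ℕ → H)} (hN : MeasurableSet N) :
    μ N = 0 ↔ ∀ᵐ x ∂μ, ν {h | Pi.single n h + x ∈ N} = 0 := by
  have hs := (cont_sh n).measurable hN
  refine Iff.trans ?_ (Measure.measure_prod_null hs)
  rw [Measure.prod_apply_symm hs]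
  have : ∀ y : H, μ ((fun x => (x, y)) ⁻¹'
      ((fun p : (ℕ → H) × H => (Pi.single n p.2 : ℕ → H) + p.1) ⁻¹' N)) = μ N := fun y =>
    measure_preimage_add μ (Pi.single n y) N
  simp only [this, lintegral_const, mul_eq_zero]
  exact (or_iff_left (isOpen_univ.measure_ne_zero ν univ_nonempty)).symm

variable (ν) in
lemma exists_closed_null {N : Set (ℕ → H)} (hN : μ N = 0) :
    ∃ M, N ⊆ M ∧ μ M = 0 ∧ ∀ x ∉ M, ∀ n, ν {h | Pi.single n h + x ∈ M} = 0 := by
  let D : Set (ℕ → H) → Set (ℕ → H) := fun A =>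
    toMeasurable μ {x | ¬ ∀ n, ν {h | Pi.single n h + x ∈ A} = 0}
  let M : ℕ → Set (ℕ → H) := fun j => Nat.rec (toMeasurable μ N) (fun _ A => D A) j
  have hM : ∀ j, MeasurableSet (M j) ∧ μ (M j) = 0 := by
    intro j
    induction j with
    | zero => exact ⟨measurableSet_toMeasurable _ _, (measure_toMeasurable _).trans hN⟩
    | succ j ih =>
      refine ⟨measurableSet_toMeasurable _ _, (measure_toMeasurable _).trans ?_⟩
      exact ae_all_iff.2 fun n => (fub ν n ih.1).1 ih.2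
  refine ⟨⋃ j, M j, (subset_toMeasurable μ N).trans (subset_iUnion M 0),
    measure_iUnion_null fun j => (hM j).2, fun x hx n => ?_⟩
  simp only [mem_iUnion, ofPred_exists]
  refine measure_iUnion_null fun j => ?_
  by_contra hc
  exact hx (mem_iUnion.2 ⟨j + 1, subset_toMeasurable μ _ fun h => hc (h n)⟩)

variable {Γ Y : Type} [Group Γ] [TopologicalSpace Γ] [IsTopologicalGroup Γ] [PolishSpace Γ]
  [TopologicalSpace Y] [PolishSpace Y] [MeasurableSpace Y] [BorelSpace Y] [MulAction Γ Y]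
  [ContinuousSMul Γ Y] {f : (ℕ → H) → Y}

variable (μ ν) in
lemma bad_null (hf : Measurable f) (n : ℕ)
    (h1 : ∀ x h, ∃ g : Γ, g • f x = f (Pi.single n h + x)) {K : Set (ℕ → H)}
    (hK : MeasurableSet K) {V : Set Γ} (hV : IsOpen V) (hV1 : (1 : Γ) ∈ V) :
    μ {x | x ∈ K ∧ ν {h | Pi.single n h + x ∈ K ∧
      ∃ g ∈ V, g • f x = f (Pi.single n h + x)} = 0} = 0 := by
  borelize Γ
  let A : Set ((ℕ → H) × H) := {p | Pi.single n p.2 + p.1 ∈ K ∧
    ∃ g ∈ V, g • f p.1 = f (Pi.single n p.2 + p.1)}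
  have hm := (cont_sh (H := H) n).measurable
  have hA : AnalyticSet A := by
    have h2 : MeasurableSet {q : ((ℕ → H) × H) × Γ | Pi.single n q.1.2 + q.1.1 ∈ K ∧
        q.2 ∈ V ∧ q.2 • f q.1.1 = f (Pi.single n q.1.2 + q.1.1)} := by
      refine ((hm.comp measurable_fst) hK).inter ((measurable_snd hV.measurableSet).inter ?_)
      exact measurableSet_eq_fun ((continuous_smul (M := Γ) (X := Y)).measurable.comp
        (measurable_snd.prodMk (hf.comp measurable_fst.fst))) (hf.comp (hm.comp measurable_fst))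
    convert h2.analyticSet_image measurable_fst using 1
    ext p
    constructor
    · rintro ⟨a, g, b, c⟩
      exact ⟨(p, g), ⟨a, b, c⟩, rfl⟩
    · rintro ⟨q, ⟨a, b, c⟩, rfl⟩
      exact ⟨a, q.2, b, c⟩
  have hA' := (analytic_null (μ.prod ν) hA).toMeasurable_ae_eq
  let B : Set (ℕ → H) := K ∩ {x | ν (Prod.mk x ⁻¹' toMeasurable (μ.prod ν) A) = 0}
  have hB : MeasurableSet B := hK.inter
    (measurable_measure_prodMk_left (measurableSet_toMeasurable _ _) (measurableSet_singleton 0))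
  obtain ⟨W, hW, hWV⟩ := exists_nhds_split_inv (hV.mem_nhds hV1)
  have hB0 : μ B = 0 := by
    refine (fub ν n hB).2 (Eventually.of_forall fun x => ?_)
    let d := TopologicalSpace.denseSeq Γ
    let P : ℕ → Set H := fun j => {h | Pi.single n h + x ∈ K ∧
      ∃ w ∈ W, (w * d j) • f x = f (Pi.single n h + x)}
    refine measure_mono_null (t := ⋃ j, ⋃ _ : ν (P j) = 0, P j) (fun h hh => ?_)
      (measure_iUnion_null fun j => measure_iUnion_null id)
    obtain ⟨g, hg⟩ := h1 x h
    have h3 : (fun a => g * a⁻¹) ⁻¹' W ∈ 𝓝 g :=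
      (continuous_const.mul continuous_inv).continuousAt (by simpa using hW)
    obtain ⟨_, hj, j, rfl⟩ := mem_closure_iff_nhds.1
      (TopologicalSpace.denseRange_denseSeq Γ g) _ h3
    refine mem_iUnion₂.2 ⟨j, ?_, hh.1, _, hj, by simpa [d] using hg⟩
    rw [← measure_preimage_add_right ν h]
    refine measure_mono_null (fun k hk => ?_) hh.2
    obtain ⟨k1, w, hw, k2⟩ := hk
    rw [Pi.single_add, add_assoc] at k1 k2
    refine subset_toMeasurable _ _ ⟨k1, _, hWV w hw _ hj, ?_⟩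
    rw [← k2, ← hg, smul_smul]
    simp [d, div_eq_mul_inv, mul_assoc]
  refine measure_mono_null (fun x hx => ?_)
    (measure_union_null hB0 (Measure.ae_ae_of_ae_prod hA'))
  by_contra hc
  rw [mem_union, not_or, mem_compl_iff, not_not] at hc
  exact hc.1 ⟨hx.1, (measure_congr hc.2).trans hx.2⟩

variable (ν) in
theorem not_red (h0 : ν {0} = 0) (hf : Measurable f)
    (h : ∀ x x', (∀ᶠ n in atTop, x n = x' n) ↔ ∃ g : Γ, g • f x = f x') : False := by
  let μ : Measure (ℕ → H) := Measure.addHaar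
  obtain ⟨K, hK, hK0, hc⟩ := lusin μ (isOpen_univ.measure_ne_zero μ univ_nonempty) hf
  obtain ⟨V, hV, hb⟩ := (nhds_basis_opens (1 : Γ)).exists_antitone_subbasis
  have h1 : ∀ n x k, ∃ g : Γ, g • f x = f (Pi.single n k + x) := fun n x k =>
    (h _ _).1 ((eventually_gt_atTop n).mono fun m hm => by simp [Pi.single_eq_of_ne hm.ne'])
  obtain ⟨M, M1, M2, M3⟩ := exists_closed_null ν (measure_iUnion_null fun p : ℕ × ℕ =>
    bad_null μ ν hf p.1 (h1 p.1) hK.measurableSet (hV p.2).2 (hV p.2).1)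
  obtain ⟨x0, hx0⟩ : (K \ M).Nonempty := by
    by_contra hn
    exact hK0 (measure_mono_null (sdiff_eq_empty.1 (not_nonempty_iff_eq_empty.1 hn)) M2)
  let _ := TopologicalSpace.upgradeIsCompletelyMetrizable Γ
  have step : ∀ (n : ℕ) (s : (K \ M : Set (ℕ → H)) × Γ), ∃ (t : (K \ M : Set (ℕ → H)) × Γ),
      (∃ k ≠ 0, t.1.1 = Pi.single n k + s.1.1) ∧ dist s.2 t.2 ≤ 1 * (1 / 2) ^ n ∧
        (s.2 • f x0 = f s.1 → t.2 • f x0 = f t.1) := by
    rintro n ⟨⟨x, hx, hx'⟩, γ⟩
    have h2 : (fun g => g * γ) ⁻¹' Metric.closedBall γ (1 * (1 / 2) ^ n) ∈ 𝓝 (1 : Γ) :=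
      (continuous_id.mul continuous_const).continuousAt
        (by simpa using Metric.closedBall_mem_nhds γ (by positivity))
    obtain ⟨j, hj⟩ := hb.mem_iff.1 h2
    have h3 : ¬ {k | Pi.single n k + x ∈ K ∧ ∃ g ∈ V j, g • f x = f (Pi.single n k + x)} ⊆
        {0} ∪ {k | Pi.single n k + x ∈ M} := fun hs => hx' (M1 (mem_iUnion.2
          ⟨(n, j), hx, measure_mono_null hs (measure_union_null h0 (M3 x hx' n))⟩))
    obtain ⟨k, ⟨k1, g, hg, k2⟩, k3⟩ := not_subset.1 h3
    rw [mem_union, not_or] at k3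
    refine ⟨(⟨_, k1, k3.2⟩, g * γ), ⟨k, k3.1, rfl⟩, Metric.mem_closedBall'.1 (hj hg),
      fun e => ?_⟩
    simp only at e ⊢
    rw [mul_smul, e, k2]
  choose T T1 T2 T3 using step
  let s : ℕ → (K \ M : Set (ℕ → H)) × Γ := fun n => Nat.rec (⟨x0, hx0⟩, 1) T n
  have s1 : ∀ n, (s n).2 • f x0 = f (s n).1 := fun n =>
    Nat.rec (one_smul _ _) (fun n ih => T3 n _ ih) n
  obtain ⟨γ, hγ⟩ := cauchySeq_tendsto_of_complete
    (cauchySeq_of_le_geometric (1 / 2) 1 (by norm_num) fun n => T2 n (s n))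
  have s2 : ∀ n m, m ≠ n → (s (n + 1)).1.1 m = (s n).1.1 m := fun n m hm => by
    obtain ⟨k, -, e⟩ := T1 n (s n)
    exact (congrFun e m).trans (by simp [Pi.single_eq_of_ne hm])
  have s3 : ∀ m n, n ≤ m → (s n).1.1 m = x0 m := fun m n => by
    induction n with
    | zero => exact fun _ => rfl
    | succ n ih => exact fun hn => (s2 n m (by omega)).trans (ih (by omega))
  have s4 : ∀ m n, m + 1 ≤ n → (s n).1.1 m = (s (m + 1)).1.1 m := fun m n hn => by
    induction hn with
    | refl => rfl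
    | step hn ih => exact (s2 _ m (by simp at hn; omega)).trans ih
  have t1 : Tendsto (fun n => (s n).1.1) atTop (𝓝 fun m => (s (m + 1)).1.1 m) :=
    tendsto_pi_nhds.2 fun m => tendsto_const_nhds.congr'
      ((eventually_ge_atTop (m + 1)).mono fun n hn => (s4 m n hn).symm)
  have t2 := hK.mem_of_tendsto t1 (Eventually.of_forall fun n => (s n).1.2.1)
  have t3 := (hc _ t2).tendsto.comp
    (tendsto_nhdsWithin_iff.2 ⟨t1, Eventually.of_forall fun n => (s n).1.2.1⟩)
  have t4 := (hγ.smul (tendsto_const_nhds (x := f x0))).congr s1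
  obtain ⟨m, hm⟩ := ((h _ _).2 ⟨γ, tendsto_nhds_unique t4 t3⟩).exists
  obtain ⟨k, k0, e⟩ := T1 m (s m)
  have := hm.trans (congrFun e m)
  rw [Pi.add_apply, s3 m m le_rfl, Pi.single_eq_same] at this
  exact k0 (by simpa using this)

end

/-- bounded difference is not reducible to an orbit equivalence relation -/
theorem not_red_linf (Γ Y : Type) [Group Γ] [TopologicalSpace Γ] [IsTopologicalGroup Γ]
    [PolishSpace Γ] [TopologicalSpace Y] [PolishSpace Y] [MeasurableSpace Y] [BorelSpace Y]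
    [MulAction Γ Y] [ContinuousSMul Γ Y] :
    ¬ BorelRed (fun x y : ℕ → ℝ => ∃ c, ∀ n, |x n - y n| ≤ c)
      (fun a b : Y => ∃ g : Γ, g • a = b) := by
  rintro ⟨f, hf, h⟩
  let u : (ℕ → ℕ → ZMod 2) → ℕ → ℝ := fun x j =>
    (j.unpair.1 : ℝ) * ((x j.unpair.1 j.unpair.2).val : ℝ)
  have hu : Measurable u := measurable_pi_lambda _ fun j =>
    (measurable_from_top (f := fun a : ZMod 2 => (j.unpair.1 : ℝ) * (a.val : ℝ))).comp
      (by fun_prop)
  have : (𝓝[≠] (0 : ℕ → ZMod 2)).NeBot := by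
    refine mem_closure_iff_nhdsWithin_neBot.1 (mem_closure_of_tendsto
      (f := fun n : ℕ => (Pi.single n 1 : ℕ → ZMod 2)) (b := atTop) ?_
      (Eventually.of_forall fun n e => ?_))
    · exact tendsto_pi_nhds.2 fun m => tendsto_const_nhds.congr'
        ((eventually_gt_atTop m).mono fun n hn => by simp [Pi.single_eq_of_ne hn.ne])
    · simpa using congrFun e n
  have v : ∀ a b : ZMod 2, |(a.val : ℝ) - b.val| = if a = b then 0 else 1 := by
    intro a b
    have : ∀ a b : ZMod 2, |(a.val : ℤ) - b.val| = if a = b then 0 else 1 := by decide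
    exact_mod_cast this a b
  have w : ∀ x y j, |u x j - u y j| = if x j.unpair.1 j.unpair.2 = y j.unpair.1 j.unpair.2
      then 0 else (j.unpair.1 : ℝ) := by
    intro x y j
    simp only [u, ← mul_sub, abs_mul, v, Nat.abs_cast]
    split_ifs <;> simp
  have : PolishSpace (ZMod 2) := inferInstance
  refine not_red (Γ := Γ) (Measure.addHaar : Measure (ℕ → ZMod 2)) (measure_singleton 0)
    (hf.comp hu) fun x y => Iff.trans ?_ (h _ _)
  rw [eventually_atTop]
  constructor
  · rintro ⟨m, hm⟩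
    refine ⟨m, fun j => ?_⟩
    rw [w]
    split_ifs with e
    · positivity
    · exact_mod_cast le_of_not_ge fun hj => e (congrFun (hm _ hj) _)
  · rintro ⟨c, hc⟩
    obtain ⟨m, hm⟩ := exists_nat_gt c
    refine ⟨m, fun n hn => funext fun k => ?_⟩
    have := hc (Nat.pair n k)
    rw [w, Nat.unpair_pair] at this
    by_contra e
    rw [if_neg e] at this
    exact absurd (Nat.cast_lt.1 (this.trans_lt hm)) (not_lt.2 hn)

end Pool.Agent.P.MP_52b1ec_lc.FG
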