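import Pool.Agent.P.MP_52b1ec_lc.X.Glue
import Pool.Agent.P.MP_52b1ec_lc.Y.Defs

namespace Pool.Agent.P.MP_52b1ec_lc.FG

open Topology Filter Set

/-- generated by at most `k` elements over every basic open subgroup -/
def Gen (k : ℕ∞) (G : Subgroup SInf) : Prop :=
  ∀ M, ∃ S : Finset G, (S.card : ℕ∞) ≤ k ∧ Subgroup.closure ((S : Set G) ∪ stab G M) = ⊤

lemma card_image_le' {A B : Type} [DecidableEq B] {k : ℕ∞} {S : Finset A} (f : A → B)
    (h : (S.card : ℕ∞) ≤ k) : ((S.image f).card : ℕ∞) ≤ k :=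
  le_trans (Nat.cast_le.2 Finset.card_image_le) h

lemma top_of_map {A B : Type} [Group A] [Group B] (f : A →* B) (hf : Function.Surjective f)
    {s : Set A} (hs : Subgroup.closure s = ⊤) {K : Subgroup B} (h : ∀ a ∈ s, f a ∈ K) :
    K = ⊤ := by
  rw [eq_top_iff]
  intro b _
  obtain ⟨a, rfl⟩ := hf b
  exact ((Subgroup.closure_le (K.comap f)).2 h) (hs ▸ Subgroup.mem_top a)

theorem mem_proGen_iff {k : ℕ∞} {G : CS} :
    G ∈ ProGen k ↔ G ∈ ProCountable ∧ Gen k G.toSubgroup := by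
  classical
  constructor
  · intro h
    refine ⟨fun U hU => ?_, fun M => ?_⟩
    · obtain ⟨N, a, b, c, -⟩ := h U hU
      exact ⟨N, a, b, c⟩
    · obtain ⟨N, a, -, c, S, d, e⟩ := h _ (stab_mem_nhds G.toSubgroup M)
      refine ⟨S.image Quotient.out, card_image_le' _ d, ?_⟩
      set K := Subgroup.closure ((S.image Quotient.out : Finset G.toSubgroup) ∪
        (stab G.toSubgroup M : Set G.toSubgroup)) with hK
      have h1 : K.map (QuotientGroup.mk' N) = ⊤ := by
        refine top_of_map (MonoidHom.id _) Function.surjective_id e fun s hs => ?_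
        refine ⟨s.out, Subgroup.subset_closure (Or.inl ?_), QuotientGroup.out_eq' s⟩
        exact Finset.mem_coe.2 (Finset.mem_image_of_mem _ hs)
      have h2 := Subgroup.comap_map_eq (QuotientGroup.mk' N) K
      rw [h1, QuotientGroup.ker_mk', Subgroup.comap_top, sup_eq_left.2] at h2
      · exact h2.symm
      · exact fun x hx => Subgroup.subset_closure (Or.inr (c hx))
  · rintro ⟨h1, h2⟩ U hU
    obtain ⟨N, a, b, c⟩ := h1 U hU
    obtain ⟨M, hM⟩ := sub_mem_nhds.1 (b.mem_nhds N.one_mem)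
    obtain ⟨S, d, e⟩ := h2 M
    refine ⟨N, a, b, c, S.image (QuotientGroup.mk' N), card_image_le' _ d, ?_⟩
    refine top_of_map (QuotientGroup.mk' N) (QuotientGroup.mk'_surjective N) e ?_
    rintro x (hx | hx)
    · exact Subgroup.subset_closure (Finset.mem_coe.2 (Finset.mem_image_of_mem _ hx))
    · rw [show QuotientGroup.mk' N x = 1 from (QuotientGroup.eq_one_iff x).2 (hM x hx)]
      exact Subgroup.one_mem _

lemma Gen.of_iso {k : ℕ∞} {G H : Subgroup SInf} (h : Gen k G) (e : G ≃ₜ* H) : Gen k H := by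
  classical
  intro M
  obtain ⟨n, hn⟩ := (hom_continuous_iff (e : G →* H)).1 (map_continuous e) M
  obtain ⟨S, d, hS⟩ := h n
  refine ⟨S.image e, card_image_le' _ d, top_of_map (e : G →* H) e.surjective hS ?_⟩
  rintro x (hx | hx)
  · exact Subgroup.subset_closure (Or.inl (Finset.mem_coe.2 (Finset.mem_image_of_mem _ hx)))
  · exact Subgroup.subset_closure (Or.inr (hn x hx))

theorem invariant_proGen (k : ℕ∞) : Invariant (ProGen k) := by
  rintro G hG H ⟨e⟩
  rw [mem_proGen_iff] at hG ⊢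
  exact ⟨invariant_proCountable G hG.1 H ⟨e⟩, hG.2.of_iso e⟩

/-- restriction to an initial segment -/
def rs (M : ℕ) (f : SInf) : Fin M → ℕ := fun i => ap f i

lemma continuous_rs (M : ℕ) : Continuous (rs M) := continuous_pi fun i => continuous_ap_at i

lemma rs_stab {G : Subgroup SInf} {M : ℕ} {g h : G} (e : rs M g = rs M h) :
    g⁻¹ * h ∈ stab G M := by
  intro i hi
  show ap (g.1⁻¹ * h.1) i = i
  rw [ap_mul, ← show ap g i = ap h i from congrFun e ⟨i, hi⟩, ap_inv_ap]

/-- allowed letters -/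
def Let {M : ℕ} (T : Finset (Fin M → ℕ)) (f : SInf) : Prop :=
  rs M f ∈ T ∨ rs M f⁻¹ ∈ T ∨ rs M f = rs M 1

/-- restrictions of products of `r` letters -/
def Reach (G : Subgroup SInf) {M : ℕ} (T : Finset (Fin M → ℕ)) : ℕ → (Fin M → ℕ) → Prop
  | 0, t => t = rs M 1
  | r + 1, t => ∃ t', Reach G T r t' ∧ ∃ f ∈ G, Let T f ∧ (fun i => ap f (t' i)) = t

lemma Reach.mem {G : Subgroup SInf} {M : ℕ} {T : Finset (Fin M → ℕ)} {K : Subgroup G}
    (hK : ∀ f : G, Let T f → f ∈ K) : ∀ {r t}, Reach G T r t → ∃ g ∈ K, rs M g = t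
  | 0, _, h => ⟨1, K.one_mem, h.symm⟩
  | _ + 1, _, ⟨_, h, f, hf, h1, h2⟩ => by
    obtain ⟨g, hg, rfl⟩ := Reach.mem hK h
    exact ⟨(⟨f, hf⟩ : G) * g, K.mul_mem (hK ⟨f, hf⟩ h1) hg, h2⟩

lemma gen_iff {k : ℕ∞} {G : Subgroup SInf} : Gen k G ↔ ∀ M, ∃ T : Finset (Fin M → ℕ),
    (T.card : ℕ∞) ≤ k ∧ ∀ t, (∃ g ∈ G, rs M g = t) → ∃ r, Reach G T r t := by
  classical
  refine forall_congr' fun M => ⟨?_, ?_⟩
  · rintro ⟨S, d, e⟩
    refine ⟨S.image fun s : G => rs M s.1, card_image_le' _ d, ?_⟩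
    rintro _ ⟨g, hg, rfl⟩
    have hm : (⟨g, hg⟩ : G) ∈ Subgroup.closure ((S : Set G) ∪ stab G M) := e ▸ Subgroup.mem_top _
    have hs : ∀ x : G, x ∈ stab G M → rs M x = rs M 1 := fun x hx => funext fun i => hx i i.2
    refine Subgroup.closure_induction_left
      (p := fun x _ => ∃ r, Reach G (S.image fun s : G => rs M s.1) r (rs M x.1)) ?_ ?_ ?_ hm
    · exact ⟨0, rfl⟩
    · rintro x hx y - ⟨r, hr⟩
      refine ⟨r + 1, _, hr, x, x.2, ?_, rfl⟩
      rcases hx with hx | hx
      · exact Or.inl (Finset.mem_image_of_mem _ hx)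
      · exact Or.inr (Or.inr (hs x hx))
    · rintro x hx y - ⟨r, hr⟩
      refine ⟨r + 1, _, hr, x⁻¹, G.inv_mem x.2, ?_, rfl⟩
      rcases hx with hx | hx
      · exact Or.inr (Or.inl (by rw [inv_inv]; exact Finset.mem_image_of_mem _ hx))
      · exact Or.inr (Or.inr (hs x⁻¹ ((stab G M).inv_mem hx)))
  · rintro ⟨T, d, e⟩
    let c : (Fin M → ℕ) → G := fun t => if h : ∃ g : G, rs M g = t then h.choose else 1
    have hc : ∀ g : G, rs M (c (rs M g)) = rs M g := fun g => by
      have h : ∃ g' : G, rs M g' = rs M g := ⟨g, rfl⟩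
      simp only [c, dif_pos h]
      exact h.choose_spec
    refine ⟨T.image c, card_image_le' _ d, ?_⟩
    set K := Subgroup.closure ((T.image c : Finset G) ∪ (stab G M : Set G)) with hK
    have h1 : ∀ g h : G, g ∈ K → rs M g = rs M h → h ∈ K := fun g h hg e => by
      have := K.mul_mem hg (Subgroup.subset_closure (Or.inr (rs_stab e)))
      rwa [mul_inv_cancel_left] at this
    have h2 : ∀ g : G, rs M g ∈ T → g ∈ K := fun g hg => h1 _ g
      (Subgroup.subset_closure (Or.inl (Finset.mem_coe.2 (Finset.mem_image_of_mem _ hg)))) (hc g)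
    rw [eq_top_iff]
    intro g _
    obtain ⟨r, hr⟩ := e _ ⟨g, g.2, rfl⟩
    obtain ⟨g', a, b⟩ := Reach.mem (K := K) (fun f hf => by
      rcases hf with hf | hf | hf
      · exact h2 f hf
      · exact K.inv_mem_iff.1 (h2 f⁻¹ hf)
      · exact h1 1 f K.one_mem hf.symm) hr
    exact h1 g' g a b

lemma measurableSet_reach {M : ℕ} (T : Finset (Fin M → ℕ)) :
    ∀ r t, MeasurableSet {G : CS | Reach G.toSubgroup T r t}
  | 0, _ => MeasurableSet.const _
  | r + 1, t => by
    have : {G : CS | Reach G.toSubgroup T (r + 1) t} = ⋃ t', {G : CS | Reach G.toSubgroup T r t'} ∩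
        {G : CS | ∃ f ∈ G, f ∈ {f | Let T f ∧ (fun i => ap f (t' i)) = t}} := by
      ext G
      simp only [mem_iUnion]
      rfl
    rw [this]
    refine .iUnion fun t' => (measurableSet_reach T r t').inter (measurableSet_hit ?_)
    have hc : Continuous fun f : SInf => (rs M f, rs M f⁻¹, fun i => ap f (t' i)) :=
      (continuous_rs M).prodMk (((continuous_rs M).comp continuous_inv).prodMk
        (continuous_pi fun i => continuous_ap_at _))
    exact (isOpen_discrete {p : (Fin M → ℕ) × (Fin M → ℕ) × (Fin M → ℕ) |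
      (p.1 ∈ T ∨ p.2.1 ∈ T ∨ p.1 = rs M 1) ∧ p.2.2 = t}).preimage hc

theorem measurableSet_proGen (k : ℕ∞) : MeasurableSet (ProGen k) := by
  have : ProGen k = ProCountable ∩ ⋂ M : ℕ, ⋃ T : Finset (Fin M → ℕ), ⋃ _ : (T.card : ℕ∞) ≤ k,
      ⋂ t, ({G : CS | ∃ g ∈ G, g ∈ rs M ⁻¹' {t}}ᶜ ∪ ⋃ r, {G : CS | Reach G.toSubgroup T r t}) := by
    ext G
    rw [mem_proGen_iff, gen_iff]
    simp only [mem_inter_iff, mem_iInter, mem_iUnion, mem_union, mem_compl_iff, mem_ofPred_eq,
      exists_prop, ← imp_iff_not_or]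
    rfl
  rw [this]
  exact measurableSet_proCountable.inter (.iInter fun M => .iUnion fun T => .iUnion fun _ =>
    .iInter fun t => (measurableSet_hit ((isOpen_discrete _).preimage (continuous_rs M))).compl.union
      (.iUnion fun r => measurableSet_reach T r t))

/-- binary relations with the relabelling action -/
def Rel2 : Type := ℕ → ℕ → Bool

instance : TopologicalSpace Rel2 := inferInstanceAs (TopologicalSpace (ℕ → ℕ → Bool))
instance : SecondCountableTopology Rel2 :=
  inferInstanceAs (SecondCountableTopology (ℕ → ℕ → Bool))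
instance : TopologicalSpace.IsCompletelyMetrizableSpace Rel2 :=
  inferInstanceAs (TopologicalSpace.IsCompletelyMetrizableSpace (ℕ → ℕ → Bool))
instance : PolishSpace Rel2 := {}
instance : MeasurableSpace Rel2 := inferInstanceAs (MeasurableSpace (ℕ → ℕ → Bool))
instance : BorelSpace Rel2 := inferInstanceAs (BorelSpace (ℕ → ℕ → Bool))

instance : MulAction SInf Rel2 where
  smul σ R := fun i j => R (ap σ⁻¹ i) (ap σ⁻¹ j)
  one_smul R := by funext i j; show R (ap 1⁻¹ i) (ap 1⁻¹ j) = _; rw [inv_one]; rfl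
  mul_smul σ τ R := by
    funext i j
    show R (ap (σ * τ)⁻¹ i) (ap (σ * τ)⁻¹ j) = _
    rw [mul_inv_rev]; rfl

instance : ContinuousSMul SInf Rel2 := ⟨by
  refine continuous_pi fun i => continuous_pi fun j => ?_
  have h0 : Continuous fun p : Rel2 × ℕ × ℕ => p.1 p.2.1 p.2.2 := by
    rw [continuous_prod_of_discrete_right]
    intro q
    exact (continuous_apply q.2).comp (continuous_apply q.1)
  have h1 : ∀ n, Continuous fun p : SInf × Rel2 => ap p.1⁻¹ n := fun n =>
    (continuous_ap_at n).comp continuous_fst.inv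
  exact h0.comp (continuous_snd.prodMk ((h1 i).prodMk (h1 j)))⟩

theorem not_graph {X : Type} [MeasurableSpace X] {E : X → X → Prop}
    (h : ∀ (Γ Y : Type) [Group Γ] [TopologicalSpace Γ] [IsTopologicalGroup Γ]
      [PolishSpace Γ] [TopologicalSpace Y] [PolishSpace Y] [MeasurableSpace Y] [BorelSpace Y]
      [MulAction Γ Y] [ContinuousSMul Γ Y], ¬ BorelRed E (fun a b : Y => ∃ g : Γ, g • a = b)) :
    ¬ BorelRed E GraphIso := by
  classical
  rintro ⟨f, hf, hE⟩
  refine h SInf Rel2 ⟨fun x i j => decide ((f x).Adj i j), ?_, fun x y => (hE x y).trans ?_⟩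
  · refine measurable_pi_iff.2 fun i => measurable_pi_iff.2 fun j => ?_
    have h1 : Measurable fun x => (f x).Adj i j :=
      (measurable_pi_apply j).comp ((measurable_pi_apply i).comp
        (SimpleGraph.measurable_adj.comp hf))
    exact (measurable_of_finite fun p : Prop => decide p).comp h1
  · constructor
    · rintro ⟨e⟩
      refine ⟨(SInf.ofPerm e.symm.toEquiv)⁻¹, ?_⟩
      funext i j
      show decide ((f x).Adj (ap _⁻¹⁻¹ i) (ap _⁻¹⁻¹ j)) = _
      rw [inv_inv]
      exact decide_eq_decide.2 e.symm.map_rel_iff'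
    · rintro ⟨σ, hσ⟩
      exact ⟨SimpleGraph.Iso.symm ⟨σ⁻¹.toPerm, fun {i j} =>
        decide_eq_decide.1 (congrFun (congrFun hσ i) j)⟩⟩

theorem not_complete {C : Set CS} (h : ∀ G ∈ C, MeasurableSet {H | TopIso G H}) :
    ¬ AnalyticComplete (IsoOn C) := by
  intro hE
  obtain ⟨f, hf, h'⟩ := hE.2 (ℕ → Bool) EE isAnalyticEqv_EE
  apply not_measurableSet_DD
  rcases DD.eq_empty_or_nonempty with e | ⟨a, ha⟩
  · rw [e]; exact MeasurableSet.empty
  · have : DD = (fun x => (f x).1) ⁻¹' {H | TopIso (f a).1 H} := by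
      ext x
      refine Iff.trans ⟨fun hx => Or.inr ⟨ha, hx⟩, ?_⟩ (h' a x)
      rintro (rfl | hx)
      exacts [ha, hx.2]
    rw [this]
    exact (measurable_subtype_coe.comp hf) (h _ (f a).2)

end Pool.Agent.P.MP_52b1ec_lc.FG
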