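import Pool.Agent.P.MP_52b1ec_lc.X.Glue

namespace Pool.Agent.P.MP_52b1ec_lc.FG

open Topology Filter Set LaurentPolynomial
open scoped commutatorElement

/-- the sequence of primes -/
noncomputable def pz (i : ℕ) : ℕ := Nat.nth Nat.Prime i

instance pz_prime (i : ℕ) : Fact (pz i).Prime := ⟨Nat.prime_nth_prime _⟩

lemma pz_inj : Function.Injective pz := Nat.nth_injective Nat.infinite_setOfPred_prime

/-- Laurent polynomials -/
abbrev R : Type := LaurentPolynomial ℤ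

/-- the centre -/
abbrev Z : Type := ∀ i : ℕ, ZMod (pz i)

/-- reduction of the coefficients -/
noncomputable def ka : R →+ Z where
  toFun r i := (r.coeff (i + 1) : ℤ)
  map_zero' := by funext i; simp
  map_add' r s := by funext i; simp

lemma ka_fin (r : R) : {i | ka r i ≠ 0}.Finite :=
  (r.coeff.support.finite_toSet.preimage (f := fun i : ℕ => (i + 1 : ℤ))
    fun _ _ _ _ h => by simpa using h).subset fun i hi => by
    by_contra h
    exact hi (by simp [ka, Finsupp.notMem_support_iff.1 h])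

lemma ka_T (i : ℕ) : ka (T (i + 1)) = Pi.single i 1 := by
  funext j
  by_cases h : i = j
  · subst h; simp [ka]
  · simp [ka, h]

lemma ka_T_neg (i : ℕ) : ka (T (-(i + 1))) = 0 := by
  funext j
  have : ¬ (-(i + 1 : ℤ) = j + 1) := by omega
  simp only [ka, AddMonoidHom.coe_mk, ZeroHom.coe_mk, T_apply, if_neg this, Int.cast_zero,
    Pi.zero_apply]

/-- triangular matrices with a modified centre -/
@[ext] structure B where
  n : ℤ
  a : R
  b : R
  c : Z

noncomputable instance : Mul B :=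
  ⟨fun x y => ⟨x.n + y.n, y.a + x.a * T y.n, T x.n * y.b + x.b, y.c + ka (x.a * y.b) + x.c⟩⟩

noncomputable instance : One B := ⟨⟨0, 0, 0, 0⟩⟩

noncomputable instance : Inv B :=
  ⟨fun x => ⟨-x.n, -(x.a * T (-x.n)), -(T (-x.n) * x.b), ka (x.a * T (-x.n) * x.b) - x.c⟩⟩

@[simp] lemma mul_n (x y : B) : (x * y).n = x.n + y.n := rfl
@[simp] lemma mul_a (x y : B) : (x * y).a = y.a + x.a * T y.n := rfl
@[simp] lemma mul_b (x y : B) : (x * y).b = T x.n * y.b + x.b := rfl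
@[simp] lemma mul_c (x y : B) : (x * y).c = y.c + ka (x.a * y.b) + x.c := rfl
@[simp] lemma one_n : (1 : B).n = 0 := rfl
@[simp] lemma one_a : (1 : B).a = 0 := rfl
@[simp] lemma one_b : (1 : B).b = 0 := rfl
@[simp] lemma one_c : (1 : B).c = 0 := rfl
@[simp] lemma inv_n (x : B) : x⁻¹.n = -x.n := rfl
@[simp] lemma inv_a (x : B) : x⁻¹.a = -(x.a * T (-x.n)) := rfl
@[simp] lemma inv_b (x : B) : x⁻¹.b = -(T (-x.n) * x.b) := rfl
@[simp] lemma inv_c (x : B) : x⁻¹.c = ka (x.a * T (-x.n) * x.b) - x.c := rfl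

lemma T_neg (n : ℤ) : (T (-n) * T n : R) = 1 := by rw [← T_add, neg_add_cancel, T_zero]

noncomputable instance : Group B := Group.ofLeftAxioms
  (fun x y z => by
    refine B.ext (add_assoc _ _ _) ?_ ?_ ?_
    · simp only [mul_a, mul_n, T_add]; ring
    · simp only [mul_b, mul_n, T_add]; ring
    · simp only [mul_c, mul_a, mul_b, add_mul, mul_add, map_add, mul_assoc]; abel)
  (fun x => by ext1 <;> simp)
  (fun x => by
    refine B.ext (neg_add_cancel _) ?_ (add_neg_cancel _) ?_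
    · rw [mul_a, inv_a, neg_mul, mul_assoc, T_neg, mul_one, add_neg_cancel, one_a]
    · rw [mul_c, inv_a, inv_c, neg_mul, map_neg, one_c]; abel)

/-- central elements -/
noncomputable def ze (c : Z) : B := ⟨0, 0, 0, c⟩

lemma mul_ze (x : B) (c : Z) : x * ze c = ⟨x.n, x.a, x.b, c + x.c⟩ := by ext1 <;> simp [ze]

lemma ze_mul (x : B) (c : Z) : ze c * x = x * ze c := by ext1 <;> simp [ze, add_comm]

lemma ze_pow (c : Z) (k : ℕ) : ze c ^ k = ze (k • c) := by
  induction k with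
  | zero => simp [ze]; rfl
  | succ k ih => rw [pow_succ, ih, mul_ze, succ_nsmul, add_comm]; rfl

lemma comm_comm (x y z w : B) : ∃ c, ⁅⁅x, y⁆, ⁅z, w⁆⁆ = ze c := by
  have h : ∀ x y : B, ⁅x, y⁆.n = 0 := fun x y => by simp [commutatorElement_def]
  have h1 := h x y
  have h2 := h z w
  generalize ⁅x, y⁆ = u at h1
  generalize ⁅z, w⁆ = v at h2
  exact ⟨_, B.ext (h u v) (by simp [commutatorElement_def, h1, h2, ze])
    (by simp [commutatorElement_def, h1, h2, ze]) rfl⟩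

/-- the subgroup cut out by the symmetry condition -/
def Sy : Subgroup B where
  carrier := {g | g.b = T g.n * invert g.a}
  one_mem' := by simp
  mul_mem' {x y} hx hy := by
    rw [mem_ofPred_eq] at *
    simp only [mul_b, mul_n, mul_a, hx, hy, T_add, map_add, map_mul, invert_T]
    linear_combination (-(T x.n * invert x.a : R)) * T_neg y.n
  inv_mem' {x} hx := by
    rw [mem_ofPred_eq] at *
    simp only [inv_b, inv_n, inv_a, hx, map_neg, map_mul, invert_T, neg_neg]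
    ring

variable (e : ℕ → ℕ)

/-- the completion along the tower -/
def Gh : Subgroup B where
  carrier := {g | g ∈ Sy ∧ ∀ m, {i | e i ≤ m ∧ g.c i ≠ 0}.Finite}
  one_mem' := ⟨one_mem _, fun m => by simp⟩
  mul_mem' {x y} hx hy := ⟨mul_mem hx.1 hy.1, fun m =>
    (((hx.2 m).union (hy.2 m)).union (ka_fin (x.a * y.b))).subset fun i hi => by
      by_contra h
      simp only [mem_union, mem_ofPred_eq, hi.1, true_and, not_or, not_not] at h
      exact hi.2 (by simp [h])⟩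
  inv_mem' {x} hx := ⟨inv_mem hx.1, fun m =>
    ((hx.2 m).union (ka_fin (x.a * T (-x.n) * x.b))).subset fun i hi => by
      by_contra h
      simp only [mem_union, mem_ofPred_eq, hi.1, true_and, not_or, not_not] at h
      exact hi.2 (by simp only [inv_c, Pi.sub_apply, h, sub_zero])⟩

/-- the basic open subgroups -/
def V (m : ℕ) : Subgroup (Gh e) where
  carrier := {g | ∃ c, g.1 = ze c ∧ ∀ i, e i ≤ m → c i = 0}
  one_mem' := ⟨0, rfl, fun _ _ => rfl⟩
  mul_mem' := by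
    rintro x y ⟨c, hc, h⟩ ⟨d, hd, k⟩
    exact ⟨d + c, by rw [Subgroup.coe_mul, hc, hd, mul_ze]; rfl, fun i hi => by simp [h i hi, k i hi]⟩
  inv_mem' := by
    rintro x ⟨c, hc, h⟩
    exact ⟨-c, by rw [Subgroup.coe_inv, hc]; ext1 <;> simp [ze], fun i hi => by simp [h i hi]⟩

variable {e}

lemma V_anti : Antitone (V e) := fun _ _ h _ ⟨c, h1, h2⟩ => ⟨c, h1, fun i hi => h2 i (hi.trans h)⟩

lemma V_comm {m : ℕ} {v : Gh e} (hv : v ∈ V e m) (g : Gh e) : v * g = g * v := by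
  obtain ⟨c, hc, -⟩ := hv
  exact Subtype.ext (by rw [Subgroup.coe_mul, Subgroup.coe_mul, hc, ze_mul])

lemma V_normal (m : ℕ) : (V e m).Normal :=
  ⟨fun v hv g => by rwa [← V_comm hv, mul_inv_cancel_right]⟩

lemma V_sep (g : Gh e) (h : ∀ m, g ∈ V e m) : g = 1 := by
  obtain ⟨c, hc, -⟩ := h 0
  refine Subtype.ext (hc.trans (congrArg ze (funext fun i => ?_)))
  obtain ⟨d, hd, h2⟩ := h (e i)
  exact (congrFun (congrArg B.c (hc.symm.trans hd)) i).trans (h2 i le_rfl)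

lemma inv_mul_mem_V {m : ℕ} {x y : Gh e} : x⁻¹ * y ∈ V e m ↔
    y.1.n = x.1.n ∧ y.1.a = x.1.a ∧ y.1.b = x.1.b ∧ ∀ i, e i ≤ m → y.1.c i = x.1.c i := by
  constructor
  · rintro ⟨c, hc, h⟩
    have : y.1 = x.1 * ze c := by rw [← hc]; simp
    rw [this, mul_ze]
    exact ⟨rfl, rfl, rfl, fun i hi => by simp [h i hi]⟩
  · rintro ⟨h1, h2, h3, h4⟩
    refine ⟨y.1.c - x.1.c, ?_, fun i hi => by simp [h4 i hi]⟩
    rw [Subgroup.coe_mul, Subgroup.coe_inv, inv_mul_eq_iff_eq_mul, mul_ze]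
    exact B.ext h1 h2 h3 (by simp)

lemma Gh_complete (h : ℕ → Gh e) (hh : ∀ m m', m ≤ m' → (h m)⁻¹ * h m' ∈ V e m) :
    ∃ g : Gh e, ∀ m, g⁻¹ * h m ∈ V e m := by
  simp only [inv_mul_mem_V] at hh ⊢
  have key : ∀ m i, e i ≤ m → (h m).1.c i = (h (e i)).1.c i := fun m i hi =>
    (hh _ _ hi).2.2.2 i le_rfl
  refine ⟨⟨⟨(h 0).1.n, (h 0).1.a, (h 0).1.b, fun i => (h (e i)).1.c i⟩, (h 0).2.1, fun m =>
    ((h m).2.2 m).subset fun i hi => ⟨hi.1, (key m i hi.1).trans_ne hi.2⟩⟩, fun m => ?_⟩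
  obtain ⟨h1, h2, h3, -⟩ := hh 0 m m.zero_le
  exact ⟨h1, h2, h3, key m⟩

/-- the elements of finite support -/
def Fs : Type := {g : B // {i | g.c i ≠ 0}.Finite}

instance : Countable R := AddMonoidAlgebra.coeffEquiv.injective.countable

lemma exists_ka {c : Z} (h : {i | c i ≠ 0}.Finite) : ∃ r, ka r = c :=
  ⟨∑ i ∈ h.toFinset, (c i).val • T (i + 1), funext fun j => by
    simp only [map_sum, map_nsmul, ka_T, Finset.sum_apply, Pi.smul_apply]
    rw [Finset.sum_eq_single j (fun i _ k => by simp [Pi.single_eq_of_ne k.symm])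
      fun k => by simp [show c j = 0 by simpa using k]]
    simp⟩

instance : Countable Fs := by
  refine Function.Surjective.countable (f := fun p : ℤ × R × R × R =>
    (⟨⟨p.1, p.2.1, p.2.2.1, ka p.2.2.2⟩, ka_fin _⟩ : Fs)) fun g => ?_
  obtain ⟨r, hr⟩ := exists_ka g.2
  exact ⟨(g.1.n, g.1.a, g.1.b, r), Subtype.ext (B.ext rfl rfl rfl hr)⟩

noncomputable instance : Inhabited Fs := ⟨⟨1, by simp⟩⟩

/-- the action on the points of level `m` -/
noncomputable def ac (g : Gh e) (u : ℕ × Fs) : ℕ × Fs :=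
  (u.1, ⟨⟨(g.1 * u.2.1).n, (g.1 * u.2.1).a, (g.1 * u.2.1).b,
    fun i => if e i ≤ u.1 then (g.1 * u.2.1).c i else u.2.1.c i⟩,
    (((g.2.2 u.1).union u.2.2).union (ka_fin (g.1.a * u.2.1.b))).subset fun i hi => by
      by_contra h
      simp only [mem_union, mem_ofPred_eq, not_or, not_not, not_and] at h
      refine hi ?_
      simp only
      split_ifs with k
      · simp [h.1.1 k, h.1.2, h.2]
      · exact h.1.2⟩)

lemma ac_ext {u v : ℕ × Fs} : u = v ↔ u.1 = v.1 ∧ u.2.1.n = v.2.1.n ∧ u.2.1.a = v.2.1.a ∧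
    u.2.1.b = v.2.1.b ∧ ∀ i, u.2.1.c i = v.2.1.c i :=
  ⟨fun h => by simp [h], fun ⟨h1, h2, h3, h4, h5⟩ =>
    Prod.ext h1 (Subtype.ext (B.ext h2 h3 h4 (funext h5)))⟩

variable (e) in
/-- the action as a homomorphism -/
noncomputable def acH : Gh e →* Function.End (ℕ × Fs) where
  toFun := ac
  map_one' := funext fun u => (ac_ext (v := u)).2 (by simp [ac])
  map_mul' g h := funext fun u => by
    show ac (g * h) u = ac g (ac h u)
    have k : (g.1 * h.1) * u.2.1 = g.1 * (h.1 * u.2.1) := mul_assoc _ _ _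
    refine ac_ext.2 ⟨rfl, (congrArg B.n k :), (congrArg B.a k :), (congrArg B.b k :), fun i => ?_⟩
    simp only [ac, Subgroup.coe_mul, k]
    split_ifs with j
    · simp [j]
    · rfl

lemma ac_fix (g : Gh e) (u : ℕ × Fs) : ac g u = u ↔ g ∈ V e u.1 := by
  rw [← one_mul g, ← inv_one, inv_mul_mem_V, inv_one, one_mul, ac_ext]
  simp only [ac, mul_n, mul_a, mul_b, mul_c, true_and, add_eq_right, add_eq_left,
    (isUnit_T _).mul_left_eq_zero, OneMemClass.coe_one, one_n, one_a, one_b, one_c]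
  refine and_congr_right fun h1 => and_congr_right fun h2 => and_congr (by simp [h1])
    (forall_congr' fun i => ?_)
  split_ifs with j <;> simp [j, h2]

/-- an enumeration of the points -/
noncomputable def en : ℕ × Fs ≃ ℕ := nonempty_equiv_of_countable.some

variable (e) in
/-- the permutation representation -/
noncomputable def rho : Gh e →* SInf :=
  (en.permCongrHom : Equiv.Perm (ℕ × Fs) →* Equiv.Perm ℕ).comp (acH e).toHomPerm

lemma ap_rho (g : Gh e) (j : ℕ) : ap (rho e g) j = en (ac g (en.symm j)) := rfl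

lemma isRep : NC.IsRep (V e) (rho e) := by
  have key : ∀ (g : Gh e) j, ap (rho e g) j = j ↔ g ∈ V e (en.symm j).1 := fun g j => by
    rw [ap_rho, ← ac_fix, ← en.eq_symm_apply]
  refine ⟨fun m => ⟨en (m, default) + 1, fun g hg => ?_⟩, fun n => ?_⟩
  · have := (key g _).1 (hg _ (Nat.lt_succ_self _))
    rwa [en.symm_apply_apply] at this
  · refine ⟨(Finset.range n).sup (fun j => (en.symm j).1), fun g hg i hi => (key g i).2 ?_⟩
    exact V_anti (Finset.le_sup (f := fun j => (en.symm j).1) (Finset.mem_range.2 hi)) hg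

lemma rho_inj : Function.Injective (rho e) := isRep.injective V_sep

variable (e) in
/-- the closed subgroup attached to a tower -/
noncomputable def GS : CS := ⟨(⊤ : Subgroup (Gh e)).map (rho e),
  isRep.isClosed _ fun h _ hh => (Gh_complete h hh).imp fun _ hg => ⟨trivial, hg⟩⟩

variable (e) in
/-- the group of a tower and its image -/
noncomputable def toGS : Gh e ≃* (GS e).toSubgroup :=
  Subgroup.topEquiv.symm.trans (Subgroup.equivMapOfInjective _ _ rho_inj)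

lemma toGS_val (g : Gh e) : (toGS e g).1 = rho e g := rfl

lemma cont_from {H : Subgroup SInf} (Θ : (GS e).toSubgroup →* H) : Continuous Θ ↔
    ∀ n, ∃ m, ∀ g ∈ V e m, ∀ i < n, ap (Θ (toGS e g)) i = i := by
  rw [hom_continuous_iff]
  refine forall_congr' fun n => ⟨fun ⟨k, hk⟩ => ((isRep (e := e)).h2 k).imp fun m hm g hg =>
    hk _ (hm g hg), fun ⟨m, hm⟩ => ((isRep (e := e)).h1 m).imp fun k hk x hx => ?_⟩
  obtain ⟨g, rfl⟩ := (toGS e).surjective x
  exact hm g (hk g hx)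

lemma cont_to {H : Subgroup SInf} (Θ : H →* (GS e).toSubgroup) : Continuous Θ ↔
    ∀ m, ∃ n, ∀ h : H, (∀ i < n, ap h i = i) → (toGS e).symm (Θ h) ∈ V e m := by
  rw [hom_continuous_iff]
  have k : ∀ h, rho e ((toGS e).symm (Θ h)) = Θ h := fun h => by
    rw [← toGS_val, MulEquiv.apply_symm_apply]
  constructor
  · intro h m
    obtain ⟨n, hn⟩ := (isRep (e := e)).h1 m
    exact (h n).imp fun n' hn' x hx => hn _ (k x ▸ hn' x hx)
  · intro h n
    obtain ⟨m, hm⟩ := (isRep (e := e)).h2 n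
    exact (h m).imp fun n' hn' x hx => k x ▸ hm _ (hn' x hx)

lemma cont_iff {e e' : ℕ → ℕ} (Θ : (GS e).toSubgroup →* (GS e').toSubgroup) : Continuous Θ ↔
    ∀ m, ∃ m', ∀ g ∈ V e m', (toGS e').symm (Θ (toGS e g)) ∈ V e' m := by
  rw [cont_to]
  refine forall_congr' fun n => ⟨fun ⟨k, hk⟩ => ((isRep (e := e)).h2 k).imp fun m hm g hg =>
    hk _ (hm g hg), fun ⟨m, hm⟩ => ((isRep (e := e)).h1 m).imp fun k hk x hx => ?_⟩
  obtain ⟨g, rfl⟩ := (toGS e).surjective x
  exact hm g (hk g hx)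

lemma iso_iff {e e' : ℕ → ℕ} : TopIso (GS e) (GS e') ↔ ∃ θ : Gh e ≃* Gh e',
    (∀ m, ∃ m', ∀ g ∈ V e m', θ g ∈ V e' m) ∧ ∀ m, ∃ m', ∀ g ∈ V e' m', θ.symm g ∈ V e m := by
  constructor
  · rintro ⟨Θ⟩
    exact ⟨(toGS e).trans (Θ.toMulEquiv.trans (toGS e').symm),
      (cont_iff Θ.toMulEquiv.toMonoidHom).1 (map_continuous Θ),
      (cont_iff Θ.symm.toMulEquiv.toMonoidHom).1 (map_continuous Θ.symm)⟩
  · rintro ⟨θ, h1, h2⟩
    let Θ := (toGS e).symm.trans (θ.trans (toGS e'))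
    exact ⟨⟨Θ, (cont_iff Θ.toMonoidHom).2 (by simpa [Θ] using h1),
      (cont_iff Θ.symm.toMonoidHom).2 (by simpa [Θ] using h2)⟩⟩

/-- comparison of towers -/
def Cof (e e' : ℕ → ℕ) : Prop := ∀ m, ∃ m', ∀ i, e' i ≤ m → e i ≤ m'

variable (e) in
/-- an element of finite support as an element of the completion -/
def emb (g : B) (h : g ∈ Sy ∧ {i | g.c i ≠ 0}.Finite) : Gh e :=
  ⟨g, h.1, fun _ => h.2.subset fun _ k => k.2⟩

lemma ze_mem (c : Z) : ze c ∈ Sy := by simp [Sy, ze]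

variable (e) in
/-- the central generators -/
noncomputable def zt (i : ℕ) : Gh e := emb e (ze (ka (T (i + 1)))) ⟨ze_mem _, ka_fin _⟩

lemma zt_mem {i m : ℕ} : zt e i ∈ V e m ↔ m < e i := by
  constructor
  · rintro ⟨c, hc, h⟩
    by_contra k
    have := (congrFun (congrArg B.c hc) i).trans (h i (not_lt.1 k))
    simp [zt, emb, ze, ka_T] at this
  · refine fun h => ⟨_, rfl, fun j hj => ?_⟩
    rw [ka_T, Pi.single_eq_of_ne]
    rintro rfl
    omega

lemma zt_pow (i : ℕ) : zt e i ^ pz i = 1 := by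
  refine Subtype.ext ((ze_pow _ _).trans (congrArg ze (funext fun j => ?_)))
  by_cases h : j = i
  · subst h; simp
  · simp [ka_T, Pi.single_eq_of_ne h]

lemma tors {i : ℕ} {c : Z} (h : ze c ^ pz i = 1) {j : ℕ} (k : j ≠ i) : c j = 0 := by
  have : pz i • c j = 0 := congrFun (congrArg B.c ((ze_pow c _).symm.trans h)) j
  rw [nsmul_eq_mul, mul_eq_zero, ZMod.natCast_eq_zero_iff] at this
  exact this.resolve_left fun d =>
    k (pz_inj ((Nat.prime_dvd_prime_iff_eq (pz_prime j).out (pz_prime i).out).1 d))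

lemma cof_of {e e' : ℕ → ℕ} (θ : Gh e →* Gh e') (hi : Function.Injective θ)
    (h : ∀ m, ∃ m', ∀ g ∈ V e m', θ g ∈ V e' m) : Cof e e' := fun m => (h m).imp fun m' hm i k => by
  by_contra k'
  obtain ⟨c, hc, h2⟩ := hm _ (zt_mem.2 (not_le.1 k'))
  have h3 : ze c ^ pz i = 1 := by
    rw [← hc, ← Subgroup.coe_pow, ← map_pow, zt_pow, map_one, Subgroup.coe_one]
  have h4 : θ (zt e i) = θ 1 := by
    rw [map_one]
    refine Subtype.ext (hc.trans (congrArg ze (funext fun j => ?_)))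
    by_cases hj : j = i
    · exact h2 j (hj ▸ k)
    · exact tors h3 hj
  exact lt_irrefl _ (zt_mem.1 (hi h4 ▸ (V e (e i)).one_mem))

theorem topIso_iff {e e' : ℕ → ℕ} : TopIso (GS e) (GS e') ↔ Cof e e' ∧ Cof e' e := by
  rw [iso_iff]
  constructor
  · rintro ⟨θ, h1, h2⟩
    exact ⟨cof_of θ.toMonoidHom θ.injective h1, cof_of θ.symm.toMonoidHom θ.symm.injective h2⟩
  · rintro ⟨h1, h2⟩
    have k : ∀ {e e'}, Cof e e' → Gh e ≤ Gh e' := fun h g hg => ⟨hg.1, fun m =>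
      (h m).elim fun m' hm => (hg.2 m').subset fun i hi => ⟨hm i hi.1, hi.2⟩⟩
    exact ⟨MulEquiv.subgroupCongr (le_antisymm (k h1) (k h2)),
      fun m => (h1 m).imp fun m' hm g ⟨c, c1, c2⟩ => ⟨c, c1, fun i hi => c2 i (hm i hi)⟩,
      fun m => (h2 m).imp fun m' hm g ⟨c, c1, c2⟩ => ⟨c, c1, fun i hi => c2 i (hm i hi)⟩⟩

/-- the two generators -/
noncomputable def gn : Fin 2 → B := ![⟨1, 0, 0, 0⟩, ⟨0, 1, 1, 0⟩]

lemma gn_fin (j : Fin 2) : gn j ∈ Sy ∧ {i | (gn j).c i ≠ 0}.Finite := by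
  fin_cases j <;> simp [gn, Sy]

lemma gen_Fs {L : Subgroup B} (h : ∀ j, gn j ∈ L) {g : B}
    (hg : g ∈ Sy ∧ {i | g.c i ≠ 0}.Finite) : g ∈ L := by
  have h0 : ∀ n : ℤ, (⟨n, 0, 0, 0⟩ : B) ∈ L := fun n => by
    let φ : Multiplicative ℤ →* B := MonoidHom.mk' (fun n => ⟨n.toAdd, 0, 0, 0⟩)
      fun _ _ => by ext1 <;> simp
    have := L.zpow_mem (show φ (.ofAdd 1) ∈ L from h 0) n
    rwa [← map_zpow, ← ofAdd_zsmul, smul_eq_mul, mul_one] at this
  have h1 : ∀ k : ℤ, (⟨0, T k, T (-k), 0⟩ : B) ∈ L := fun k => by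
    convert L.mul_mem (L.mul_mem (h0 (-k)) (h 1)) (h0 k) using 1
    ext1 <;> simp [gn]
  have h2 : ∀ i : ℕ, ze (ka (T (i + 1))) ∈ L := fun i => by
    convert L.mul_mem (L.mul_mem (L.mul_mem (h1 (i + 1)) (h1 0)) (L.inv_mem (h1 (i + 1))))
      (L.inv_mem (h1 0)) using 1
    refine B.ext (by simp [ze]) (by simp [ze]) (by simp [ze]) ?_
    simp only [ze, mul_c, mul_a, inv_c, inv_b, inv_a, inv_n, neg_zero, T_zero, mul_one,
      one_mul, mul_neg, add_mul, map_neg, map_add, ka_T_neg]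
    abel
  have h3 : ∀ r, ze (ka r) ∈ L := fun r => by
    let φ : Multiplicative Z →* B := MonoidHom.mk' (fun c => ze c.toAdd)
      fun _ _ => by rw [mul_ze, toAdd_mul, add_comm]; rfl
    show φ (.ofAdd (ka r)) ∈ L
    induction r using LaurentPolynomial.induction_on' with
    | add p q hp hq => rw [map_add, ofAdd_add, map_mul]; exact L.mul_mem hp hq
    | C_mul_T n a =>
      rw [eq_intCast, ← zsmul_eq_mul, map_zsmul, ofAdd_zsmul, map_zpow]
      refine L.zpow_mem ?_ _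
      by_cases k : 0 < n
      · obtain ⟨i, rfl⟩ : ∃ i : ℕ, n = i + 1 := ⟨(n - 1).toNat, by omega⟩
        exact h2 i
      · have : ka (T n) = 0 := funext fun j => by simp [ka, show n ≠ j + 1 by omega]
        rw [this, ofAdd_zero, map_one]
        exact L.one_mem
  let A : AddSubgroup R :=
    { carrier := {r | ∃ x ∈ L ⊓ Gh 0, x.n = 0 ∧ x.a = r}
      zero_mem' := ⟨1, one_mem _, rfl, rfl⟩
      add_mem' := by
        rintro _ _ ⟨x, hx, x0, rfl⟩ ⟨y, hy, y0, rfl⟩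
        exact ⟨y * x, mul_mem hy hx, by simp [x0, y0], by simp [x0]⟩
      neg_mem' := by
        rintro _ ⟨x, hx, x0, rfl⟩
        exact ⟨x⁻¹, inv_mem hx, by simp [x0], by simp [x0]⟩ }
  have h4 : ∀ r, r ∈ A := fun r => by
    induction r using LaurentPolynomial.induction_on' with
    | add p q hp hq => exact A.add_mem hp hq
    | C_mul_T n a =>
      rw [eq_intCast, ← zsmul_eq_mul]
      exact A.zsmul_mem ⟨_, ⟨h1 n, by simp [Sy], by simp⟩, rfl, rfl⟩ _
  obtain ⟨x, ⟨x1, x2, x3⟩, x4, x5⟩ := h4 g.a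
  obtain ⟨r, hr⟩ := exists_ka (c := g.c - x.c) ((hg.2.union (x3 0)).subset fun i hi => by
    by_contra k
    simp only [mem_union, mem_ofPred_eq, not_or, not_not, Pi.zero_apply, le_refl, true_and] at k
    exact hi (by simp [k]))
  convert L.mul_mem (L.mul_mem (h0 g.n) x1) (h3 r) using 1
  have x6 : x.b = T x.n * invert x.a := x2
  have x7 : g.b = T g.n * invert g.a := hg.1
  rw [mul_ze]
  exact B.ext (by simp [x4]) (by simp [x5]) (by simp [x4, x5, x6, x7]) (by simp [hr])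

lemma gen_Gh {H : Type} [Group H] (φ : Gh e →* H) {L : Subgroup H}
    (h : ∀ j, φ (emb e _ (gn_fin j)) ∈ L) {f : Gh e} (hf : {i | f.1.c i ≠ 0}.Finite) :
    φ f ∈ L := by
  obtain ⟨f', h1, h2⟩ := gen_Fs (L := (L.comap φ).map (Gh e).subtype)
    (fun j => ⟨emb e _ (gn_fin j), h j, rfl⟩) ⟨f.2.1, hf⟩
  exact Subtype.ext h2 ▸ h1

lemma exists_Fs (g : Gh e) (m : ℕ) :
    ∃ f : Gh e, {i | f.1.c i ≠ 0}.Finite ∧ f⁻¹ * g ∈ V e m := by
  have : {i | (if e i ≤ m then g.1.c i else 0) ≠ 0}.Finite :=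
    (g.2.2 m).subset fun i hi => by simpa using hi
  exact ⟨emb e ⟨g.1.n, g.1.a, g.1.b, fun i => if e i ≤ m then g.1.c i else 0⟩ ⟨g.2.1, this⟩, this,
    inv_mul_mem_V.2 ⟨rfl, rfl, rfl, fun i hi => (if_pos hi).symm⟩⟩

lemma measurable_rho (g : B) (h : g ∈ Sy ∧ {i | g.c i ≠ 0}.Finite) (j : ℕ) :
    Measurable fun e => ap (rho e (emb e g h)) j := by
  refine measurable_to_countable' fun k => ?_
  have : (fun e => ap (rho e (emb e g h)) j) ⁻¹' {k} = {e | ac (emb e g h) (en.symm j) =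
      en.symm k} := by
    ext e
    rw [mem_preimage, ap_rho, mem_singleton_iff, ← en.eq_symm_apply, mem_ofPred_eq]
  rw [this]
  simp only [ac_ext, ac, emb, measurableSet_setOfPred]
  refine measurable_const.and (measurable_const.and (measurable_const.and
    (measurable_const.and (.forall fun i => ?_))))
  exact (measurable_from_top (f := fun k : ℕ => (if k ≤ (en.symm j).1 then
    (g * (en.symm j).2.1).c i else (en.symm j).2.1.c i) = _)).comp (measurable_pi_apply i)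

theorem measurable_GS : Measurable GS := by
  refine measurable_CS fun U hU => ?_
  have : {e | ∃ g ∈ GS e, g ∈ U} = ⋃ (g : Fs) (hg : g.1 ∈ Sy) (n : ℕ) (s : Fin n → ℕ)
      (_ : ∀ h : SInf, (∀ i : Fin n, ap h i = s i) → h ∈ U),
      ⋂ i : Fin n, (fun e => ap (rho e (emb e g.1 ⟨hg, g.2⟩)) i) ⁻¹' {s i} := by
    ext e
    simp only [mem_ofPred_eq, mem_iUnion, mem_iInter, mem_preimage, mem_singleton_iff]
    constructor
    · rintro ⟨_, ⟨g, -, rfl⟩, hg⟩
      obtain ⟨n, hn⟩ := SInf_mem_nhds.1 (hU.mem_nhds hg)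
      obtain ⟨m, hm⟩ := (isRep (e := e)).h2 n
      obtain ⟨f, f1, f2⟩ := exists_Fs g m
      exact ⟨⟨f.1, f1⟩, f.2.1, n, _, fun h k => hn h fun i hi => k ⟨i, hi⟩,
        fun i => ((NC.agree_iff f g n).1 (hm _ f2) i i.2).symm⟩
    · rintro ⟨g, hg, n, s, h1, h2⟩
      exact ⟨_, ⟨_, trivial, rfl⟩, h1 _ h2⟩
  rw [this]
  exact .iUnion fun g => .iUnion fun _ => .iUnion fun n => .iUnion fun s => .iUnion fun _ =>
    .iInter fun i => measurable_rho _ _ i (measurableSet_singleton _)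

lemma GS_pro : GS e ∈ ProCountable := isRep.proCountable V_normal rfl

lemma GS_gen (M : ℕ) : ∃ S : Finset (GS e).toSubgroup, (S.card : ℕ∞) ≤ 2 ∧
    Subgroup.closure ((S : Set (GS e).toSubgroup) ∪ stab (GS e).toSubgroup M) = ⊤ := by
  classical
  refine ⟨Finset.univ.image fun j => toGS e (emb e _ (gn_fin j)), ?_, ?_⟩
  · exact_mod_cast Finset.card_image_le.trans (by simp)
  · rw [eq_top_iff]
    rintro x -
    obtain ⟨g, rfl⟩ := (toGS e).surjective x
    obtain ⟨m, hm⟩ := (isRep (e := e)).h2 M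
    obtain ⟨f, f1, f2⟩ := exists_Fs g m
    rw [← mul_inv_cancel_left f g, map_mul]
    refine Subgroup.mul_mem _ ?_ (Subgroup.subset_closure (Or.inr (hm _ f2)))
    exact gen_Gh (toGS e).toMonoidHom (fun j => Subgroup.subset_closure (Or.inl
      (Finset.mem_coe.2 (Finset.mem_image.2 ⟨j, Finset.mem_univ j, rfl⟩)))) f1

lemma GS_var : GS e ∈ Var {⁅⁅⁅FreeGroup.of 0, FreeGroup.of 1⁆, ⁅FreeGroup.of 2, FreeGroup.of 3⁆⁆,
    FreeGroup.of 4⁆} := by
  refine NC.sat_iff.2 (NC.Sat.of_surj ?_ (toGS e).toMonoidHom (toGS e).surjective)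
  rintro _ rfl f
  refine Subtype.ext ?_
  obtain ⟨c, hc⟩ := comm_comm (f 0).1 (f 1).1 (f 2).1 (f 3).1
  simp only [map_commutatorElement, FreeGroup.lift_apply_of]
  rw [← Subgroup.subtype_apply]
  simp only [map_commutatorElement, Subgroup.subtype_apply, hc]
  rw [commutatorElement_def, ze_mul]
  simp

/-- bounded difference reduces to the comparison of towers -/
theorem linf_red : ∃ u : (ℕ → ℝ) → ℕ → ℕ, Measurable u ∧
    ∀ x y, (∃ c, ∀ n, |x n - y n| ≤ c) ↔ Cof (u x) (u y) ∧ Cof (u y) (u x) := by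
  obtain ⟨ε⟩ : Nonempty (ℕ ≃ ℕ × ℤ) := nonempty_equiv_of_countable
  refine ⟨fun x i => ⌈|x (ε i).1 - (ε i).2|⌉₊, measurable_pi_lambda _ fun i =>
    Nat.measurable_ceil.comp (by fun_prop), fun x y => ⟨?_, ?_⟩⟩
  · rintro ⟨c, hc⟩
    have k : ∀ {x y : ℕ → ℝ}, (∀ n, |x n - y n| ≤ c) → Cof (fun i => ⌈|x (ε i).1 - (ε i).2|⌉₊)
        fun i => ⌈|y (ε i).1 - (ε i).2|⌉₊ := fun {x y} hc m => ⟨⌈c⌉₊ + m, fun i hi => by
      rw [Nat.ceil_le] at hi ⊢
      have := abs_sub_le (x (ε i).1) (y (ε i).1) (ε i).2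
      have := Nat.le_ceil c
      have := hc (ε i).1
      push_cast
      linarith⟩
    exact ⟨k hc, k fun n => abs_sub_comm (x n) (y n) ▸ hc n⟩
  · rintro ⟨h, -⟩
    obtain ⟨m, hm⟩ := h 1
    refine ⟨m + 1, fun n => ?_⟩
    have h1 : |y n - round (y n)| ≤ 1 := (abs_sub_round _).trans (by norm_num)
    have h2 := hm (ε.symm (n, round (y n))) (by simpa [Nat.ceil_le] using h1)
    simp only [Equiv.apply_symm_apply, Nat.ceil_le] at h2
    have := abs_sub_le (x n) (round (y n)) (y n)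
    rw [abs_sub_comm (round (y n) : ℝ)] at this
    linarith

end Pool.Agent.P.MP_52b1ec_lc.FG
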