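import Pool.Agent.P.MP_52b1ec_lc.Y.E1
import Pool.Agent.P.MP_52b1ec_lc.Y.Tower
import Pool.Agent.P.MP_52b1ec_lc.Y.Gen
import Pool.Agent.P.MP_52b1ec_lc.Y.Class

namespace Pool.Agent.P.MP_52b1ec_lc.FG

open scoped commutatorElement

lemma GS_proGen {k : ℕ∞} (hk : 2 ≤ k) (e : ℕ → ℕ) : GS e ∈ ProGen k :=
  mem_proGen_iff.2 ⟨GS_pro, fun M => (GS_gen M).imp fun _ h => ⟨h.1.trans hk, h.2⟩⟩

theorem linf_iso {C : Set CS} (h : ∀ e, GS e ∈ C) :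
    BorelRed (fun x y : ℕ → ℝ => ∃ c, ∀ n, |x n - y n| ≤ c) (IsoOn C) := by
  obtain ⟨u, hu, h'⟩ := linf_red
  exact ⟨fun x => ⟨GS (u x), h _⟩, (measurable_GS.comp hu).subtype_mk,
    fun x y => (h' x y).trans topIso_iff.symm⟩

theorem not_orbit {C : Set CS} (h : ∀ e, GS e ∈ C) (Γ Y : Type) [Group Γ] [TopologicalSpace Γ]
    [IsTopologicalGroup Γ] [PolishSpace Γ] [TopologicalSpace Y] [PolishSpace Y]
    [MeasurableSpace Y] [BorelSpace Y] [MulAction Γ Y] [ContinuousSMul Γ Y] :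
    ¬ BorelRed (IsoOn C) (fun a b : Y => ∃ g : Γ, g • a = b) := by
  rintro ⟨g, hg, h2⟩
  obtain ⟨f, hf, h1⟩ := linf_iso h
  exact not_red_linf Γ Y ⟨g ∘ f, hg.comp hf, fun x y => (h1 x y).trans (h2 _ _)⟩

theorem class_meas {k : ℕ∞} {G : CS} (h : G ∈ ProGen k) : MeasurableSet {H | TopIso G H} :=
  measurableSet_class (mem_proGen_iff.1 h).1 (mem_proGen_iff.1 h).2

end Pool.Agent.P.MP_52b1ec_lc.FG
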