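import Pool.Agent.P.MP_52b1ec_lc.X.Glue

namespace Pool.Agent.P.MP_52b1ec_lc.OR

open Topology Filter Set
open scoped commutatorElement

/-- comparison of towers -/
def Cf {I : Type} (e e' : I → ℕ) : Prop := ∀ m, ∃ m', ∀ i, e' i ≤ m → e i ≤ m'

/-- towers on pairs with labels, up to cofinality and relabelling of the points -/
def Es (e e' : ℕ × ℕ × ℕ → ℕ) : Prop := ∃ σ : Equiv.Perm ℕ,
  Cf e (fun p => e' (σ p.1, σ p.2.1, p.2.2)) ∧ Cf (fun p => e' (σ p.1, σ p.2.1, p.2.2)) e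

/-- markings of the central quotient -/
def Mk {W : Type} [Group W] (y : ℕ → SInf) (φ : FreeGroup ℕ →* W) : Prop :=
  Function.Surjective φ ∧ ∀ w, φ w = 1 ↔ ∀ j, Commute (FreeGroup.lift y w) (y j)

/-- a rigid countable group -/
structure Rig (W : Type) [Group W] where
  U : W →* Multiplicative (ℕ × ℕ →₀ ℤ)
  x : ℕ × ℕ → W
  t : ℕ → W
  U_x : ∀ k, U (x k) = Multiplicative.ofAdd (Finsupp.single k 1)
  x_comm : ∀ k l, Commute (x k) (x l)
  t_comm : ∀ b, ⁅x (b, 0), t b⁆ = t b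
  gen : Subgroup.closure (range x ∪ range t) = ⊤
  cen : ∀ w : W, (∀ g, Commute w g) → w = 1
  rig : ∀ β : W ≃* W, ∃ σ : Equiv.Perm ℕ, ∀ w b i, (U (β w)).toAdd (σ b, i) = (U w).toAdd (b, i)
  rea : ∀ σ : Equiv.Perm ℕ, ∃ β : W ≃* W, ∀ w b i, (U (β w)).toAdd (σ b, i) = (U w).toAdd (b, i)

end Pool.Agent.P.MP_52b1ec_lc.OR
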