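import Pool.Agent.P.MP_52b1ec_lc.Y.OrbA

set_option linter.unusedSectionVars false

namespace Pool.Agent.P.MP_52b1ec_lc.OR

open Topology Filter Set

/-- labels -/
abbrev Lb : Type := Option (ℕ ⊕ ℕ)

/-- enumeration of the labels -/
noncomputable def lam : Lb ≃ ℕ := Denumerable.eqv _

/-- enumeration of the points -/
noncomputable def pt : ℕ × ℕ × ℕ ≃ ℕ := Denumerable.eqv _

/-- countable data of an action -/
structure Ctx (Γ Y : Type) [Group Γ] [TopologicalSpace Γ] [TopologicalSpace Y] where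
  V : ℕ → Set Γ
  d : ℕ → Γ
  U : ℕ → Set Y
  hV : (𝓝 (1 : Γ)).HasAntitoneBasis V
  hd : DenseRange d
  d0 : d 0 = 1
  ho : ∀ k, IsOpen (U k)
  hU : ∀ y, ∀ W ∈ 𝓝 y, ∃ k, y ∈ U k ∧ U k ⊆ W

lemma unif2 {ι : Type} {f f' : ι → ℕ → ℕ}
    (h : ∀ j (F : Filter ι), Tendsto (fun x => f' x j) F atTop → Tendsto (fun x => f x j) F atTop)
    (lab : ∀ m, ∃ J, ∀ x j, f x j ≤ m → j ≤ J) (m : ℕ) :
    ∃ m', ∀ x j, f x j ≤ m → f' x j ≤ m' := by
  obtain ⟨J, hJ⟩ := lab m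
  choose N hN using fun j => fam_out (R := fun n x => n ≤ f' x j) (fun _ _ _ a b => a.trans b)
    (tendsto_atTop.1 (h j _ (tendsto_atTop.2 (fam_ev _))) (m + 1))
  refine ⟨(Finset.range (J + 1)).sup N, fun x j k => ?_⟩
  have h1 : N j ≤ (Finset.range (J + 1)).sup N :=
    Finset.le_sup (Finset.mem_range.2 (Nat.lt_succ_of_le (hJ x j k)))
  by_contra k'
  have := hN j x (by omega)
  omega

variable {Γ Y : Type} [Group Γ] [TopologicalSpace Γ] [IsTopologicalGroup Γ] [TopologicalSpace Y]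
  [MulAction Γ Y] [ContinuousSMul Γ Y] (C : Ctx Γ Y)

/-- the predicates of the labels -/
def Ctx.Pr (y : Y) (g h : Γ) (n : ℕ) : Lb → Prop
  | none => g * h⁻¹ ∈ C.V n
  | some (.inl s) => (g * C.d s)⁻¹ * h ∈ C.V n
  | some (.inr k) => ∃ w ∈ C.V n, (g * w)⁻¹ • y ∈ C.U k

/-- structures that come from a point -/
structure Ctx.Real (e : ℕ × ℕ × ℕ → ℕ) (y : Y) (G : ℕ → Γ) (lv : ℕ → ℕ) : Prop where
  inf : ∀ s l, {b | G b = C.d s ∧ lv b = l}.Infinite
  iff : ∀ (c : Lb) {ι : Type} (F : Filter ι) (a b : ι → ℕ),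
    Tendsto (fun x => e (a x, b x, lam c)) F atTop ↔ Tendsto (fun x => lv (a x)) F atTop ∧
      Tendsto (fun x => lv (b x)) F atTop ∧ ∀ n, ∀ᶠ x in F, C.Pr y (G (a x)) (G (b x)) n c
  lab : ∀ m, ∃ J, ∀ a b j, e (a, b, j) ≤ m → j ≤ J

/-- the group element of a point -/
noncomputable def Ctx.gp (a : ℕ) : Γ := C.d (pt.symm a).1

/-- the level of a point -/
noncomputable def lp (a : ℕ) : ℕ := (pt.symm a).2.1

open Classical in
/-- the tower of a point -/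
noncomputable def Ctx.uu (y : Y) (p : ℕ × ℕ × ℕ) : ℕ :=
  Nat.findGreatest (fun n => C.Pr y (C.gp p.1) (C.gp p.2.1) n (lam.symm p.2.2))
    (min (lp p.1) (lp p.2.1)) + p.2.2

variable {C}

lemma Ctx.Pr.mono {y : Y} {g h : Γ} {n n' : ℕ} (hn : n ≤ n') :
    ∀ {c : Lb}, C.Pr y g h n' c → C.Pr y g h n c
  | none, k => C.hV.2 hn k
  | some (.inl _), k => C.hV.2 hn k
  | some (.inr _), ⟨w, k, k'⟩ => ⟨w, C.hV.2 hn k, k'⟩

lemma Ctx.pr_move {ι : Type} {F : Filter ι} {g h g' h' : ι → Γ} {m : Γ} {x : Y}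
    (c1 : TC F g fun i => m * g' i) (c2 : TC F h fun i => m * h' i) :
    ∀ c : Lb, (∀ n, ∀ᶠ i in F, C.Pr x (g' i) (h' i) n c) →
      ∀ n, ∀ᶠ i in F, C.Pr (m • x) (g i) (h i) n c
  | none, H => (tend_iff C.hV).1 (by
      simpa [mul_assoc] using (c1.2.mul ((((tend_iff C.hV).2 H).const_mul m).mul_const m⁻¹)).mul
        c2.2.inv)
  | some (.inl s), H => (tend_iff C.hV).1 (by
      simpa [mul_assoc] using (((c1.1.const_mul (C.d s)⁻¹).mul_const (C.d s)).mul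
        ((tend_iff C.hV).2 H)).mul c2.1.inv)
  | some (.inr k), H => fun n => by
      obtain ⟨n', hn⟩ := exists_half C.hV n
      filter_upwards [H n', (tend_iff C.hV).1 c1.1 n'] with i ⟨w, k1, k2⟩ k3
      refine ⟨_, hn _ k3 _ k1, ?_⟩
      simpa [mul_assoc, mul_smul] using k2

lemma Ctx.Real.unif {e e' : ℕ × ℕ × ℕ → ℕ} {x : Y} {m : Γ} {G G' : ℕ → Γ} {lv lv' : ℕ → ℕ}
    (R : C.Real e (m • x) G lv) (R' : C.Real e' x G' lv') {Q : ℕ → ℕ → Prop}
    (h1 : ∀ n, ∃ n', ∀ a i, Q a i → n' ≤ lv a → n ≤ lv' i)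
    (h2 : ∀ n, ∃ n', ∀ a i, Q a i → n' ≤ lv' i → n ≤ lv a ∧ Cl C.V n (G a) (m * G' i)) (m0 : ℕ) :
    ∃ m', ∀ a i a' i' j, Q a i → Q a' i' →
      (e (a, a', j) ≤ m0 → e' (i, i', j) ≤ m') ∧ (e' (i, i', j) ≤ m0 → e (a, a', j) ≤ m') := by
  let ι := {p : (ℕ × ℕ) × ℕ × ℕ // Q p.1.1 p.1.2 ∧ Q p.2.1 p.2.2}
  have a1 : ∀ (F : Filter ι) (a i : ι → ℕ), (∀ x, Q (a x) (i x)) →
      Tendsto (fun x => lv (a x)) F atTop → Tendsto (fun x => lv' (i x)) F atTop :=
    fun F a i hQ h => tendsto_atTop.2 fun n => (h1 n).elim fun n' k =>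
      (tendsto_atTop.1 h n').mono fun x => k _ _ (hQ x)
  have a2 : ∀ (F : Filter ι) (a i : ι → ℕ), (∀ x, Q (a x) (i x)) →
      Tendsto (fun x => lv' (i x)) F atTop → Tendsto (fun x => lv (a x)) F atTop ∧
        TC F (fun x => G (a x)) fun x => m * G' (i x) :=
    fun F a i hQ h => ⟨tendsto_atTop.2 fun n => (h2 n).elim fun n' k =>
      (tendsto_atTop.1 h n').mono fun x k' => (k _ _ (hQ x) k').1,
      (tc_iff C.hV).2 fun n => (h2 n).elim fun n' k =>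
      (tendsto_atTop.1 h n').mono fun x k' => (k _ _ (hQ x) k').2⟩
  have key : ∀ j (F : Filter ι), Tendsto (fun x => e (x.1.1.1, x.1.2.1, j)) F atTop ↔
      Tendsto (fun x => e' (x.1.1.2, x.1.2.2, j)) F atTop := by
    intro j F
    obtain ⟨c, rfl⟩ := lam.surjective j
    rw [R.iff, R'.iff]
    constructor
    · rintro ⟨k1, k2, k3⟩
      have l1 := a1 F _ _ (fun x => x.2.1) k1
      have l2 := a1 F _ _ (fun x => x.2.2) k2
      have t1 := ((a2 F _ _ (fun x => x.2.1) l1).2.left m⁻¹).symm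
      have t2 := ((a2 F _ _ (fun x => x.2.2) l2).2.left m⁻¹).symm
      simp only [inv_mul_cancel_left] at t1 t2
      have := Ctx.pr_move t1 t2 c k3
      rw [inv_smul_smul] at this
      exact ⟨l1, l2, this⟩
    · rintro ⟨k1, k2, k3⟩
      have l1 := a2 F _ _ (fun x => x.2.1) k1
      have l2 := a2 F _ _ (fun x => x.2.2) k2
      exact ⟨l1.1, l2.1, Ctx.pr_move l1.2 l2.2 c k3⟩
  obtain ⟨m1, b1⟩ := unif2 (f := fun (x : ι) j => e (x.1.1.1, x.1.2.1, j)) (fun j F => (key j F).2)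
    (fun m => (R.lab m).imp fun _ k _ _ => k _ _ _) m0
  obtain ⟨m2, b2⟩ := unif2 (f := fun (x : ι) j => e' (x.1.1.2, x.1.2.2, j)) (fun j F => (key j F).1)
    (fun m => (R'.lab m).imp fun _ k _ _ => k _ _ _) m0
  exact ⟨max m1 m2, fun a i a' i' j q q' =>
    ⟨fun k => (b1 ⟨((a, i), a', i'), q, q'⟩ j k).trans (le_max_left _ _),
      fun k => (b2 ⟨((a, i), a', i'), q, q'⟩ j k).trans (le_max_right _ _)⟩⟩

lemma inf_pt (s l : ℕ) {P : ℕ → Prop} (h : ∀ k, P (pt (s, l, k))) : {i | P i}.Infinite :=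
  infinite_of_injective_forall_mem (f := fun k => pt (s, l, k))
    (fun _ _ e => by simpa using e) h

lemma Ctx.real_uu (y : Y) : C.Real (C.uu y) y C.gp lp := by
  classical
  refine ⟨fun s l => inf_pt s l fun k => by simp [Ctx.gp, lp], fun c ι F a b => ?_,
    fun m => ⟨m, fun a b j h => le_trans (Nat.le_add_left _ _) h⟩⟩
  simp only [tendsto_atTop, Ctx.uu, Equiv.symm_apply_apply, ← forall_and, ← eventually_and]
  constructor
  · intro h n
    filter_upwards [h (n + 1 + lam c)] with x hx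
    have h1 := Nat.le_of_add_le_add_right hx
    have h2 := h1.trans (Nat.findGreatest_le _)
    have h3 := Nat.findGreatest_of_ne_zero rfl (Nat.ne_of_gt (Nat.lt_of_lt_of_le n.succ_pos h1))
    exact ⟨by omega, by omega, h3.mono (by omega)⟩
  · intro h n
    filter_upwards [h n] with x hx
    exact (Nat.le_findGreatest (le_min hx.1 hx.2.1) hx.2.2).trans (Nat.le_add_right _ _)

lemma Ctx.real_of_es {e : ℕ × ℕ × ℕ → ℕ} {y : Y} (h : Es e (C.uu y)) :
    ∃ G lv, C.Real e y G lv := by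
  obtain ⟨σ, h1, h2⟩ := h
  have R := C.real_uu y
  refine ⟨fun b => C.gp (σ b), fun b => lp (σ b), fun s l => ?_, fun c ι F a b => ?_, fun m => ?_⟩
  · exact (R.inf s l).preimage (f := σ) (by rw [σ.surjective.range_eq]; exact subset_univ _)
  · rw [← R.iff c F (fun x => σ (a x)) fun x => σ (b x)]
    exact ⟨fun k => h1.tendsto (p := fun x => (a x, b x, lam c)) k,
      fun k => h2.tendsto (p := fun x => (a x, b x, lam c)) k⟩
  · obtain ⟨m', k⟩ := h2 m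
    exact ⟨m', fun a b j k' => le_trans (Nat.le_add_left _ _) (k (a, b, j) k')⟩

lemma Ctx.Real.dense {e : ℕ × ℕ × ℕ → ℕ} {y : Y} {G : ℕ → Γ} {lv : ℕ → ℕ} (R : C.Real e y G lv)
    {h : Γ} {P : Γ → Prop} (hP : ∀ᶠ g in 𝓝 h, P g) (l : ℕ) :
    {b | lv b = l ∧ P (G b)}.Infinite := by
  obtain ⟨s, hs⟩ := C.hd.mem_nhds hP
  exact (R.inf s l).mono fun b (k : G b = C.d s ∧ lv b = l) => ⟨k.2, by rw [k.1]; exact hs⟩

lemma Ctx.es_smul (m : Γ) (x : Y) : Es (C.uu (m • x)) (C.uu x) := by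
  have R := C.real_uu x
  refine Wd.es (Q := fun a i => lp a = lp i ∧ Cl C.V (lp i) (C.gp a) (m * C.gp i))
    ⟨fun a => ?_, fun i => R.dense (cl_left C.hV _ _) _,
      (C.real_uu (m • x)).unif R (fun n => ⟨n, fun a i q k => q.1 ▸ k⟩)
        fun n => ⟨n, fun a i q k => ⟨q.1 ▸ k, q.2.mono C.hV k⟩⟩⟩
  have h1 : Tendsto (fun g => m * g) (𝓝 (m⁻¹ * C.gp a)) (𝓝 (C.gp a)) :=
    Continuous.tendsto' (by fun_prop) _ _ (mul_inv_cancel_left _ _)
  exact (R.dense (h1.eventually (cl_right C.hV (lp a) (C.gp a))) (lp a)).mono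
    fun i (k : lp i = lp a ∧ _) => ⟨k.1.symm, by rw [k.1]; exact k.2⟩

lemma Ctx.meas_uu [MeasurableSpace Y] [BorelSpace Y] : Measurable C.uu := by
  classical
  refine measurable_pi_lambda _ fun p => Measurable.add_const (measurable_findGreatest
    (p := fun y n => C.Pr y (C.gp p.1) (C.gp p.2.1) n (lam.symm p.2.2)) fun n _ => ?_) _
  rcases lam.symm p.2.2 with _ | s | k
  · exact MeasurableSet.const _
  · exact MeasurableSet.const _
  · refine IsOpen.measurableSet ?_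
    simp only [Ctx.Pr, ofPred_exists, ← exists_prop]
    exact isOpen_iUnion fun w => isOpen_iUnion fun _ => (C.ho k).preimage (by fun_prop)

end Pool.Agent.P.MP_52b1ec_lc.OR
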